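import Pool.Agent.H88.Nest.LS

/-!
The torus relation: in every flat structure on the complement of two hooked handles, the
holonomies of the two meridians commute (after transport).
-/

set_option autoImplicit false
set_option linter.unusedSimpArgs false

namespace Pool.Agent.H88.Nest

open Topology Filter Set

/-- The ambient space. -/
abbrev V3 : Type := ℝ × ℝ × ℝ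

/-- An open box, given by its six bounds. -/
structure B6 where
  (a b c d e f : ℝ)

def B6.S (k : B6) : Set V3 :=
  {p | (k.a < p.1 ∧ p.1 < k.b) ∧ (k.c < p.2.1 ∧ p.2.1 < k.d) ∧ (k.e < p.2.2 ∧ p.2.2 < k.f)}

lemma B6.S_eq (k : B6) : k.S = Ioo k.a k.b ×ˢ (Ioo k.c k.d ×ˢ Ioo k.e k.f) := rfl

lemma B6.isOpen (k : B6) : IsOpen k.S := by
  rw [B6.S_eq]; exact isOpen_Ioo.prod (isOpen_Ioo.prod isOpen_Ioo)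

lemma B6.convex (k : B6) : Convex ℝ k.S := by
  rw [B6.S_eq]; exact (convex_Ioo _ _).prod ((convex_Ioo _ _).prod (convex_Ioo _ _))

variable {W : Type} [Group W] {L : LS W V3}

/-- A parallel function on a box. -/
structure PO (L : LS W V3) (k : B6) where
  ψ : V3 → W
  par : L.ParOn k.S ψ
  dom : k.S ⊆ L.dom

/-- The transition between two parallel functions. -/
def Rl {k l : B6} (P : PO L k) (Q : PO L l) (g : W) : Prop :=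
  ∀ q, q ∈ k.S → q ∈ l.S → P.ψ q = g * Q.ψ q

lemma Rl.of_point {k l : B6} {P : PO L k} {Q : PO L l} {g : W} {p : V3} (hp : p ∈ k.S)
    (hp' : p ∈ l.S) (h : P.ψ p = g * Q.ψ p) : Rl P Q g := by
  intro q hq hq'
  have hc : IsPreconnected (k.S ∩ l.S) := (k.convex.inter l.convex).isPreconnected
  have h1 := LS.ParOn.unique hc (P.par.mono inter_subset_left) (Q.par.mono inter_subset_right)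
    (fun z hz => P.dom hz.1) ⟨hq, hq'⟩ ⟨hp, hp'⟩
  rw [h, mul_inv_cancel_right] at h1
  rw [← h1, inv_mul_cancel_right]

lemma Rl.symm {k l : B6} {P : PO L k} {Q : PO L l} {g : W} (h : Rl P Q g) : Rl Q P g⁻¹ := by
  intro q hq hq'
  rw [h q hq' hq, inv_mul_cancel_left]

lemma Rl.tri {k l m : B6} {P : PO L k} {Q : PO L l} {K : PO L m} {g h : W} (p : V3)
    (h1 : Rl P Q g) (h2 : Rl Q K h) (hp : p ∈ k.S) (hq : p ∈ l.S) (hk : p ∈ m.S) :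
    Rl P K (g * h) := by
  apply Rl.of_point hp hk
  rw [h1 p hp hq, h2 p hq hk, mul_assoc]

lemma Rl.congr {k l : B6} {P : PO L k} {Q : PO L l} {g h : W} (h1 : Rl P Q g) (e : g = h) :
    Rl P Q h := e ▸ h1

lemma Rl.eq {k l : B6} {P : PO L k} {Q : PO L l} {g h : W} (p : V3) (h1 : Rl P Q g)
    (h2 : Rl P Q h) (hp : p ∈ k.S) (hp' : p ∈ l.S) : g = h := by
  have := (h1 p hp hp').symm.trans (h2 p hp hp')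
  exact mul_right_cancel this

lemma PO.exists (L : LS W V3) (k : B6) (hd : k.S ⊆ L.dom) (p : V3) (hp : p ∈ k.S) (g : W) :
    ∃ Q : PO L k, Q.ψ p = g := by
  obtain ⟨ψ, h1, h2⟩ := L.exists_parOn_convex k.isOpen k.convex hd hp g
  exact ⟨⟨ψ, h1, hd⟩, h2⟩

lemma PO.exists_rl {k : B6} (P : PO L k) (l : B6) (hd : l.S ⊆ L.dom) (p : V3) (hp : p ∈ k.S)
    (hp' : p ∈ l.S) : ∃ Q : PO L l, Rl P Q 1 := by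
  obtain ⟨Q, hQ⟩ := PO.exists L l hd p hp' (P.ψ p)
  exact ⟨Q, Rl.of_point hp hp' (by rw [hQ, one_mul])⟩

/-- The twenty boxes. -/
def kWpp (r : ℝ) : B6 := ⟨-8, 8, 1, r + 16, 1, r + 16⟩
def kWpm (r : ℝ) : B6 := ⟨-8, 8, 1, r + 16, -(r + 16), -1⟩
def kWmp (r : ℝ) : B6 := ⟨-8, 8, -(r + 16), -1, 1, r + 16⟩
def kWmm (r : ℝ) : B6 := ⟨-8, 8, -(r + 16), -1, -(r + 16), -1⟩
def kT (r : ℝ) : B6 := ⟨-8, 8, -(r + 16), r + 16, 8, r + 16⟩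
def kBo (r : ℝ) : B6 := ⟨-8, 8, -(r + 16), r + 16, -(r + 16), -4⟩
def kBa (r : ℝ) : B6 := ⟨-8, 8, 8, r + 16, -(r + 16), r + 16⟩
def kFr (r : ℝ) : B6 := ⟨-8, 8, -(r + 16), -4, -(r + 16), r + 16⟩
def kU1 (r : ℝ) : B6 := ⟨-8, 2, -(r + 16), r + 16, 1, 6⟩
def kU2 (r : ℝ) : B6 := ⟨-8, 2, -(r + 16), r + 16, -2, -1⟩
def kU3 (r : ℝ) : B6 := ⟨-8, -4, -(r + 16), r + 16, -2, 6⟩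
def kU4 : B6 := ⟨-2, 2, -2, 6, -2, 6⟩
def kV1 (r : ℝ) : B6 := ⟨-2, 8, 1, 6, -(r + 16), r + 16⟩
def kV2 (r : ℝ) : B6 := ⟨-2, 8, -2, -1, -(r + 16), r + 16⟩
def kV3 (r : ℝ) : B6 := ⟨4, 8, -2, 6, -(r + 16), r + 16⟩
def kTe (r : ℝ) : B6 := ⟨-2 * r - 24, 8, -(r + 16), r + 16, r, r + 16⟩
def kBae (r : ℝ) : B6 := ⟨-2 * r - 24, 8, r, r + 16, -(r + 16), r + 16⟩
def kBoe (r : ℝ) : B6 := ⟨-2 * r - 24, 8, -(r + 16), r + 16, -(r + 16), -r⟩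
def kFe (r : ℝ) : B6 := ⟨-2 * r - 24, 8, -(r + 16), -r, -(r + 16), r + 16⟩
def kLf (r : ℝ) : B6 := ⟨-2 * r - 24, -2 * r - 8, -(r + 16), r + 16, -(r + 16), r + 16⟩

/-- The list of all boxes. -/
def boxes (r : ℝ) : List B6 :=
  [kWpp r, kWpm r, kWmp r, kWmm r, kT r, kBo r, kBa r, kFr r, kU1 r, kU2 r, kU3 r, kU4,
    kV1 r, kV2 r, kV3 r, kTe r, kBae r, kBoe r, kFe r, kLf r]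

/-- The torus relation. -/
theorem torus_relation (L : LS W V3) (r : ℝ) (hr : 8 ≤ r) (hL : ∀ k ∈ boxes r, k.S ⊆ L.dom) :
    ∃ (A B : W) (Wpp : PO L (kWpp r)) (Wpm : PO L (kWpm r)) (Wmp : PO L (kWmp r))
      (T : PO L (kT r)) (Ba : PO L (kBa r)) (U1 : PO L (kU1 r)) (V1 : PO L (kV1 r)),
      A * B = B * A ∧ Rl Wpp T 1 ∧ Rl T Wmp 1 ∧ Rl Wpp U1 1 ∧ Rl U1 Wmp A ∧
      Rl Wpp Ba 1 ∧ Rl Ba Wpm B ∧ Rl Wpp V1 1 ∧ Rl V1 Wpm 1 := by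
  simp only [boxes, List.mem_cons, List.not_mem_nil, or_false, forall_eq_or_imp, forall_eq] at hL
  obtain ⟨dWpp, dWpm, dWmp, dWmm, dT, dBo, dBa, dFr, dU1, dU2, dU3, dU4, dV1, dV2, dV3, dTe,
    dBae, dBoe, dFe, dLf⟩ := hL
  obtain ⟨Wpp, -⟩ := PO.exists L _ dWpp (0, 2, 2) (by simp only [kWpp, kWpm, kWmp, kWmm, kT, kBo, kBa, kFr, kU1, kU2, kU3, kU4, kV1, kV2, kV3, kTe, kBae, kBoe, kFe, kLf, B6.S, Set.mem_ofPred_eq]; refine ⟨⟨?_, ?_⟩, ⟨?_, ?_⟩, ⟨?_, ?_⟩⟩ <;> linarith) 1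
  obtain ⟨T, hWppT⟩ := Wpp.exists_rl _ dT (0, 2, 9) (by simp only [kWpp, kWpm, kWmp, kWmm, kT, kBo, kBa, kFr, kU1, kU2, kU3, kU4, kV1, kV2, kV3, kTe, kBae, kBoe, kFe, kLf, B6.S, Set.mem_ofPred_eq]; refine ⟨⟨?_, ?_⟩, ⟨?_, ?_⟩, ⟨?_, ?_⟩⟩ <;> linarith) (by simp only [kWpp, kWpm, kWmp, kWmm, kT, kBo, kBa, kFr, kU1, kU2, kU3, kU4, kV1, kV2, kV3, kTe, kBae, kBoe, kFe, kLf, B6.S, Set.mem_ofPred_eq]; refine ⟨⟨?_, ?_⟩, ⟨?_, ?_⟩, ⟨?_, ?_⟩⟩ <;> linarith)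
  obtain ⟨Wmp, hTWmp⟩ := T.exists_rl _ dWmp (0, -2, 9) (by simp only [kWpp, kWpm, kWmp, kWmm, kT, kBo, kBa, kFr, kU1, kU2, kU3, kU4, kV1, kV2, kV3, kTe, kBae, kBoe, kFe, kLf, B6.S, Set.mem_ofPred_eq]; refine ⟨⟨?_, ?_⟩, ⟨?_, ?_⟩, ⟨?_, ?_⟩⟩ <;> linarith) (by simp only [kWpp, kWpm, kWmp, kWmm, kT, kBo, kBa, kFr, kU1, kU2, kU3, kU4, kV1, kV2, kV3, kTe, kBae, kBoe, kFe, kLf, B6.S, Set.mem_ofPred_eq]; refine ⟨⟨?_, ?_⟩, ⟨?_, ?_⟩, ⟨?_, ?_⟩⟩ <;> linarith)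
  obtain ⟨V3', hWppV3⟩ := Wpp.exists_rl _ dV3 (6, 2, 2) (by simp only [kWpp, kWpm, kWmp, kWmm, kT, kBo, kBa, kFr, kU1, kU2, kU3, kU4, kV1, kV2, kV3, kTe, kBae, kBoe, kFe, kLf, B6.S, Set.mem_ofPred_eq]; refine ⟨⟨?_, ?_⟩, ⟨?_, ?_⟩, ⟨?_, ?_⟩⟩ <;> linarith) (by simp only [kWpp, kWpm, kWmp, kWmm, kT, kBo, kBa, kFr, kU1, kU2, kU3, kU4, kV1, kV2, kV3, kTe, kBae, kBoe, kFe, kLf, B6.S, Set.mem_ofPred_eq]; refine ⟨⟨?_, ?_⟩, ⟨?_, ?_⟩, ⟨?_, ?_⟩⟩ <;> linarith)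
  have hTV3 : Rl T V3' 1 :=
    (Rl.tri (6, 2, 9) hWppT.symm hWppV3 (by simp only [kWpp, kWpm, kWmp, kWmm, kT, kBo, kBa, kFr, kU1, kU2, kU3, kU4, kV1, kV2, kV3, kTe, kBae, kBoe, kFe, kLf, B6.S, Set.mem_ofPred_eq]; refine ⟨⟨?_, ?_⟩, ⟨?_, ?_⟩, ⟨?_, ?_⟩⟩ <;> linarith) (by simp only [kWpp, kWpm, kWmp, kWmm, kT, kBo, kBa, kFr, kU1, kU2, kU3, kU4, kV1, kV2, kV3, kTe, kBae, kBoe, kFe, kLf, B6.S, Set.mem_ofPred_eq]; refine ⟨⟨?_, ?_⟩, ⟨?_, ?_⟩, ⟨?_, ?_⟩⟩ <;> linarith) (by simp only [kWpp, kWpm, kWmp, kWmm, kT, kBo, kBa, kFr, kU1, kU2, kU3, kU4, kV1, kV2, kV3, kTe, kBae, kBoe, kFe, kLf, B6.S, Set.mem_ofPred_eq]; refine ⟨⟨?_, ?_⟩, ⟨?_, ?_⟩, ⟨?_, ?_⟩⟩ <;> linarith)).congr (by group)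
  have hV3Wmp : Rl V3' Wmp 1 :=
    (Rl.tri (6, -3/2, 9) hTV3.symm hTWmp (by simp only [kWpp, kWpm, kWmp, kWmm, kT, kBo, kBa, kFr, kU1, kU2, kU3, kU4, kV1, kV2, kV3, kTe, kBae, kBoe, kFe, kLf, B6.S, Set.mem_ofPred_eq]; refine ⟨⟨?_, ?_⟩, ⟨?_, ?_⟩, ⟨?_, ?_⟩⟩ <;> linarith) (by simp only [kWpp, kWpm, kWmp, kWmm, kT, kBo, kBa, kFr, kU1, kU2, kU3, kU4, kV1, kV2, kV3, kTe, kBae, kBoe, kFe, kLf, B6.S, Set.mem_ofPred_eq]; refine ⟨⟨?_, ?_⟩, ⟨?_, ?_⟩, ⟨?_, ?_⟩⟩ <;> linarith) (by simp only [kWpp, kWpm, kWmp, kWmm, kT, kBo, kBa, kFr, kU1, kU2, kU3, kU4, kV1, kV2, kV3, kTe, kBae, kBoe, kFe, kLf, B6.S, Set.mem_ofPred_eq]; refine ⟨⟨?_, ?_⟩, ⟨?_, ?_⟩, ⟨?_, ?_⟩⟩ <;> linarith)).congr (by group)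
  obtain ⟨U1, hWppU1⟩ := Wpp.exists_rl _ dU1 (0, 2, 2) (by simp only [kWpp, kWpm, kWmp, kWmm, kT, kBo, kBa, kFr, kU1, kU2, kU3, kU4, kV1, kV2, kV3, kTe, kBae, kBoe, kFe, kLf, B6.S, Set.mem_ofPred_eq]; refine ⟨⟨?_, ?_⟩, ⟨?_, ?_⟩, ⟨?_, ?_⟩⟩ <;> linarith) (by simp only [kWpp, kWpm, kWmp, kWmm, kT, kBo, kBa, kFr, kU1, kU2, kU3, kU4, kV1, kV2, kV3, kTe, kBae, kBoe, kFe, kLf, B6.S, Set.mem_ofPred_eq]; refine ⟨⟨?_, ?_⟩, ⟨?_, ?_⟩, ⟨?_, ?_⟩⟩ <;> linarith)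
  -- the element A
  obtain ⟨A, hU1Wmp⟩ : ∃ A, Rl U1 Wmp A :=
    ⟨U1.ψ (0, -2, 2) * (Wmp.ψ (0, -2, 2))⁻¹, Rl.of_point (p := (0, -2, 2)) (by simp only [kWpp, kWpm, kWmp, kWmm, kT, kBo, kBa, kFr, kU1, kU2, kU3, kU4, kV1, kV2, kV3, kTe, kBae, kBoe, kFe, kLf, B6.S, Set.mem_ofPred_eq]; refine ⟨⟨?_, ?_⟩, ⟨?_, ?_⟩, ⟨?_, ?_⟩⟩ <;> linarith) (by simp only [kWpp, kWpm, kWmp, kWmm, kT, kBo, kBa, kFr, kU1, kU2, kU3, kU4, kV1, kV2, kV3, kTe, kBae, kBoe, kFe, kLf, B6.S, Set.mem_ofPred_eq]; refine ⟨⟨?_, ?_⟩, ⟨?_, ?_⟩, ⟨?_, ?_⟩⟩ <;> linarith)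
      (by rw [inv_mul_cancel_right])⟩
  obtain ⟨U3, hU1U3⟩ := U1.exists_rl _ dU3 (-6, 0, 2) (by simp only [kWpp, kWpm, kWmp, kWmm, kT, kBo, kBa, kFr, kU1, kU2, kU3, kU4, kV1, kV2, kV3, kTe, kBae, kBoe, kFe, kLf, B6.S, Set.mem_ofPred_eq]; refine ⟨⟨?_, ?_⟩, ⟨?_, ?_⟩, ⟨?_, ?_⟩⟩ <;> linarith) (by simp only [kWpp, kWpm, kWmp, kWmm, kT, kBo, kBa, kFr, kU1, kU2, kU3, kU4, kV1, kV2, kV3, kTe, kBae, kBoe, kFe, kLf, B6.S, Set.mem_ofPred_eq]; refine ⟨⟨?_, ?_⟩, ⟨?_, ?_⟩, ⟨?_, ?_⟩⟩ <;> linarith)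
  have hWppU3 : Rl Wpp U3 1 :=
    (Rl.tri (-6, 2, 2) hWppU1 hU1U3 (by simp only [kWpp, kWpm, kWmp, kWmm, kT, kBo, kBa, kFr, kU1, kU2, kU3, kU4, kV1, kV2, kV3, kTe, kBae, kBoe, kFe, kLf, B6.S, Set.mem_ofPred_eq]; refine ⟨⟨?_, ?_⟩, ⟨?_, ?_⟩, ⟨?_, ?_⟩⟩ <;> linarith) (by simp only [kWpp, kWpm, kWmp, kWmm, kT, kBo, kBa, kFr, kU1, kU2, kU3, kU4, kV1, kV2, kV3, kTe, kBae, kBoe, kFe, kLf, B6.S, Set.mem_ofPred_eq]; refine ⟨⟨?_, ?_⟩, ⟨?_, ?_⟩, ⟨?_, ?_⟩⟩ <;> linarith) (by simp only [kWpp, kWpm, kWmp, kWmm, kT, kBo, kBa, kFr, kU1, kU2, kU3, kU4, kV1, kV2, kV3, kTe, kBae, kBoe, kFe, kLf, B6.S, Set.mem_ofPred_eq]; refine ⟨⟨?_, ?_⟩, ⟨?_, ?_⟩, ⟨?_, ?_⟩⟩ <;> linarith)).congr (by group)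
  have hU3Wmp : Rl U3 Wmp A :=
    (Rl.tri (-6, -2, 2) hU1U3.symm hU1Wmp (by simp only [kWpp, kWpm, kWmp, kWmm, kT, kBo, kBa, kFr, kU1, kU2, kU3, kU4, kV1, kV2, kV3, kTe, kBae, kBoe, kFe, kLf, B6.S, Set.mem_ofPred_eq]; refine ⟨⟨?_, ?_⟩, ⟨?_, ?_⟩, ⟨?_, ?_⟩⟩ <;> linarith) (by simp only [kWpp, kWpm, kWmp, kWmm, kT, kBo, kBa, kFr, kU1, kU2, kU3, kU4, kV1, kV2, kV3, kTe, kBae, kBoe, kFe, kLf, B6.S, Set.mem_ofPred_eq]; refine ⟨⟨?_, ?_⟩, ⟨?_, ?_⟩, ⟨?_, ?_⟩⟩ <;> linarith) (by simp only [kWpp, kWpm, kWmp, kWmm, kT, kBo, kBa, kFr, kU1, kU2, kU3, kU4, kV1, kV2, kV3, kTe, kBae, kBoe, kFe, kLf, B6.S, Set.mem_ofPred_eq]; refine ⟨⟨?_, ?_⟩, ⟨?_, ?_⟩, ⟨?_, ?_⟩⟩ <;> linarith)).congr (by group)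
  obtain ⟨U4, hU1U4⟩ := U1.exists_rl _ dU4 (0, 0, 2) (by simp only [kWpp, kWpm, kWmp, kWmm, kT, kBo, kBa, kFr, kU1, kU2, kU3, kU4, kV1, kV2, kV3, kTe, kBae, kBoe, kFe, kLf, B6.S, Set.mem_ofPred_eq]; refine ⟨⟨?_, ?_⟩, ⟨?_, ?_⟩, ⟨?_, ?_⟩⟩ <;> linarith) (by simp only [kWpp, kWpm, kWmp, kWmm, kT, kBo, kBa, kFr, kU1, kU2, kU3, kU4, kV1, kV2, kV3, kTe, kBae, kBoe, kFe, kLf, B6.S, Set.mem_ofPred_eq]; refine ⟨⟨?_, ?_⟩, ⟨?_, ?_⟩, ⟨?_, ?_⟩⟩ <;> linarith)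
  have hWppU4 : Rl Wpp U4 1 :=
    (Rl.tri (0, 2, 2) hWppU1 hU1U4 (by simp only [kWpp, kWpm, kWmp, kWmm, kT, kBo, kBa, kFr, kU1, kU2, kU3, kU4, kV1, kV2, kV3, kTe, kBae, kBoe, kFe, kLf, B6.S, Set.mem_ofPred_eq]; refine ⟨⟨?_, ?_⟩, ⟨?_, ?_⟩, ⟨?_, ?_⟩⟩ <;> linarith) (by simp only [kWpp, kWpm, kWmp, kWmm, kT, kBo, kBa, kFr, kU1, kU2, kU3, kU4, kV1, kV2, kV3, kTe, kBae, kBoe, kFe, kLf, B6.S, Set.mem_ofPred_eq]; refine ⟨⟨?_, ?_⟩, ⟨?_, ?_⟩, ⟨?_, ?_⟩⟩ <;> linarith) (by simp only [kWpp, kWpm, kWmp, kWmm, kT, kBo, kBa, kFr, kU1, kU2, kU3, kU4, kV1, kV2, kV3, kTe, kBae, kBoe, kFe, kLf, B6.S, Set.mem_ofPred_eq]; refine ⟨⟨?_, ?_⟩, ⟨?_, ?_⟩, ⟨?_, ?_⟩⟩ <;> linarith)).congr (by group)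
  have hU4Wmp : Rl U4 Wmp A :=
    (Rl.tri (0, -3/2, 2) hU1U4.symm hU1Wmp (by simp only [kWpp, kWpm, kWmp, kWmm, kT, kBo, kBa, kFr, kU1, kU2, kU3, kU4, kV1, kV2, kV3, kTe, kBae, kBoe, kFe, kLf, B6.S, Set.mem_ofPred_eq]; refine ⟨⟨?_, ?_⟩, ⟨?_, ?_⟩, ⟨?_, ?_⟩⟩ <;> linarith) (by simp only [kWpp, kWpm, kWmp, kWmm, kT, kBo, kBa, kFr, kU1, kU2, kU3, kU4, kV1, kV2, kV3, kTe, kBae, kBoe, kFe, kLf, B6.S, Set.mem_ofPred_eq]; refine ⟨⟨?_, ?_⟩, ⟨?_, ?_⟩, ⟨?_, ?_⟩⟩ <;> linarith) (by simp only [kWpp, kWpm, kWmp, kWmm, kT, kBo, kBa, kFr, kU1, kU2, kU3, kU4, kV1, kV2, kV3, kTe, kBae, kBoe, kFe, kLf, B6.S, Set.mem_ofPred_eq]; refine ⟨⟨?_, ?_⟩, ⟨?_, ?_⟩, ⟨?_, ?_⟩⟩ <;> linarith)).congr (by group)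
  obtain ⟨V1, hV3V1⟩ := V3'.exists_rl _ dV1 (6, 2, 0) (by simp only [kWpp, kWpm, kWmp, kWmm, kT, kBo, kBa, kFr, kU1, kU2, kU3, kU4, kV1, kV2, kV3, kTe, kBae, kBoe, kFe, kLf, B6.S, Set.mem_ofPred_eq]; refine ⟨⟨?_, ?_⟩, ⟨?_, ?_⟩, ⟨?_, ?_⟩⟩ <;> linarith) (by simp only [kWpp, kWpm, kWmp, kWmm, kT, kBo, kBa, kFr, kU1, kU2, kU3, kU4, kV1, kV2, kV3, kTe, kBae, kBoe, kFe, kLf, B6.S, Set.mem_ofPred_eq]; refine ⟨⟨?_, ?_⟩, ⟨?_, ?_⟩, ⟨?_, ?_⟩⟩ <;> linarith)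
  have hWppV1 : Rl Wpp V1 1 :=
    (Rl.tri (6, 2, 2) hWppV3 hV3V1 (by simp only [kWpp, kWpm, kWmp, kWmm, kT, kBo, kBa, kFr, kU1, kU2, kU3, kU4, kV1, kV2, kV3, kTe, kBae, kBoe, kFe, kLf, B6.S, Set.mem_ofPred_eq]; refine ⟨⟨?_, ?_⟩, ⟨?_, ?_⟩, ⟨?_, ?_⟩⟩ <;> linarith) (by simp only [kWpp, kWpm, kWmp, kWmm, kT, kBo, kBa, kFr, kU1, kU2, kU3, kU4, kV1, kV2, kV3, kTe, kBae, kBoe, kFe, kLf, B6.S, Set.mem_ofPred_eq]; refine ⟨⟨?_, ?_⟩, ⟨?_, ?_⟩, ⟨?_, ?_⟩⟩ <;> linarith) (by simp only [kWpp, kWpm, kWmp, kWmm, kT, kBo, kBa, kFr, kU1, kU2, kU3, kU4, kV1, kV2, kV3, kTe, kBae, kBoe, kFe, kLf, B6.S, Set.mem_ofPred_eq]; refine ⟨⟨?_, ?_⟩, ⟨?_, ?_⟩, ⟨?_, ?_⟩⟩ <;> linarith)).congr (by group)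
  obtain ⟨Wpm, hV3Wpm⟩ := V3'.exists_rl _ dWpm (6, 2, -2) (by simp only [kWpp, kWpm, kWmp, kWmm, kT, kBo, kBa, kFr, kU1, kU2, kU3, kU4, kV1, kV2, kV3, kTe, kBae, kBoe, kFe, kLf, B6.S, Set.mem_ofPred_eq]; refine ⟨⟨?_, ?_⟩, ⟨?_, ?_⟩, ⟨?_, ?_⟩⟩ <;> linarith) (by simp only [kWpp, kWpm, kWmp, kWmm, kT, kBo, kBa, kFr, kU1, kU2, kU3, kU4, kV1, kV2, kV3, kTe, kBae, kBoe, kFe, kLf, B6.S, Set.mem_ofPred_eq]; refine ⟨⟨?_, ?_⟩, ⟨?_, ?_⟩, ⟨?_, ?_⟩⟩ <;> linarith)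
  have hV1Wpm : Rl V1 Wpm 1 :=
    (Rl.tri (6, 2, -2) hV3V1.symm hV3Wpm (by simp only [kWpp, kWpm, kWmp, kWmm, kT, kBo, kBa, kFr, kU1, kU2, kU3, kU4, kV1, kV2, kV3, kTe, kBae, kBoe, kFe, kLf, B6.S, Set.mem_ofPred_eq]; refine ⟨⟨?_, ?_⟩, ⟨?_, ?_⟩, ⟨?_, ?_⟩⟩ <;> linarith) (by simp only [kWpp, kWpm, kWmp, kWmm, kT, kBo, kBa, kFr, kU1, kU2, kU3, kU4, kV1, kV2, kV3, kTe, kBae, kBoe, kFe, kLf, B6.S, Set.mem_ofPred_eq]; refine ⟨⟨?_, ?_⟩, ⟨?_, ?_⟩, ⟨?_, ?_⟩⟩ <;> linarith) (by simp only [kWpp, kWpm, kWmp, kWmm, kT, kBo, kBa, kFr, kU1, kU2, kU3, kU4, kV1, kV2, kV3, kTe, kBae, kBoe, kFe, kLf, B6.S, Set.mem_ofPred_eq]; refine ⟨⟨?_, ?_⟩, ⟨?_, ?_⟩, ⟨?_, ?_⟩⟩ <;> linarith)).congr (by group)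
  have hU4V1 : Rl U4 V1 1 :=
    (Rl.tri (0, 2, 2) hWppU4.symm hWppV1 (by simp only [kWpp, kWpm, kWmp, kWmm, kT, kBo, kBa, kFr, kU1, kU2, kU3, kU4, kV1, kV2, kV3, kTe, kBae, kBoe, kFe, kLf, B6.S, Set.mem_ofPred_eq]; refine ⟨⟨?_, ?_⟩, ⟨?_, ?_⟩, ⟨?_, ?_⟩⟩ <;> linarith) (by simp only [kWpp, kWpm, kWmp, kWmm, kT, kBo, kBa, kFr, kU1, kU2, kU3, kU4, kV1, kV2, kV3, kTe, kBae, kBoe, kFe, kLf, B6.S, Set.mem_ofPred_eq]; refine ⟨⟨?_, ?_⟩, ⟨?_, ?_⟩, ⟨?_, ?_⟩⟩ <;> linarith) (by simp only [kWpp, kWpm, kWmp, kWmm, kT, kBo, kBa, kFr, kU1, kU2, kU3, kU4, kV1, kV2, kV3, kTe, kBae, kBoe, kFe, kLf, B6.S, Set.mem_ofPred_eq]; refine ⟨⟨?_, ?_⟩, ⟨?_, ?_⟩, ⟨?_, ?_⟩⟩ <;> linarith)).congr (by group)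
  have hU4Wpm : Rl U4 Wpm 1 :=
    (Rl.tri (0, 2, -3/2) hU4V1 hV1Wpm (by simp only [kWpp, kWpm, kWmp, kWmm, kT, kBo, kBa, kFr, kU1, kU2, kU3, kU4, kV1, kV2, kV3, kTe, kBae, kBoe, kFe, kLf, B6.S, Set.mem_ofPred_eq]; refine ⟨⟨?_, ?_⟩, ⟨?_, ?_⟩, ⟨?_, ?_⟩⟩ <;> linarith) (by simp only [kWpp, kWpm, kWmp, kWmm, kT, kBo, kBa, kFr, kU1, kU2, kU3, kU4, kV1, kV2, kV3, kTe, kBae, kBoe, kFe, kLf, B6.S, Set.mem_ofPred_eq]; refine ⟨⟨?_, ?_⟩, ⟨?_, ?_⟩, ⟨?_, ?_⟩⟩ <;> linarith) (by simp only [kWpp, kWpm, kWmp, kWmm, kT, kBo, kBa, kFr, kU1, kU2, kU3, kU4, kV1, kV2, kV3, kTe, kBae, kBoe, kFe, kLf, B6.S, Set.mem_ofPred_eq]; refine ⟨⟨?_, ?_⟩, ⟨?_, ?_⟩, ⟨?_, ?_⟩⟩ <;> linarith)).congr (by group)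
  obtain ⟨V2, hV3V2⟩ := V3'.exists_rl _ dV2 (6, -3/2, 0) (by simp only [kWpp, kWpm, kWmp, kWmm, kT, kBo, kBa, kFr, kU1, kU2, kU3, kU4, kV1, kV2, kV3, kTe, kBae, kBoe, kFe, kLf, B6.S, Set.mem_ofPred_eq]; refine ⟨⟨?_, ?_⟩, ⟨?_, ?_⟩, ⟨?_, ?_⟩⟩ <;> linarith) (by simp only [kWpp, kWpm, kWmp, kWmm, kT, kBo, kBa, kFr, kU1, kU2, kU3, kU4, kV1, kV2, kV3, kTe, kBae, kBoe, kFe, kLf, B6.S, Set.mem_ofPred_eq]; refine ⟨⟨?_, ?_⟩, ⟨?_, ?_⟩, ⟨?_, ?_⟩⟩ <;> linarith)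
  have hV2Wmp : Rl V2 Wmp 1 :=
    (Rl.tri (6, -3/2, 2) hV3V2.symm hV3Wmp (by simp only [kWpp, kWpm, kWmp, kWmm, kT, kBo, kBa, kFr, kU1, kU2, kU3, kU4, kV1, kV2, kV3, kTe, kBae, kBoe, kFe, kLf, B6.S, Set.mem_ofPred_eq]; refine ⟨⟨?_, ?_⟩, ⟨?_, ?_⟩, ⟨?_, ?_⟩⟩ <;> linarith) (by simp only [kWpp, kWpm, kWmp, kWmm, kT, kBo, kBa, kFr, kU1, kU2, kU3, kU4, kV1, kV2, kV3, kTe, kBae, kBoe, kFe, kLf, B6.S, Set.mem_ofPred_eq]; refine ⟨⟨?_, ?_⟩, ⟨?_, ?_⟩, ⟨?_, ?_⟩⟩ <;> linarith) (by simp only [kWpp, kWpm, kWmp, kWmm, kT, kBo, kBa, kFr, kU1, kU2, kU3, kU4, kV1, kV2, kV3, kTe, kBae, kBoe, kFe, kLf, B6.S, Set.mem_ofPred_eq]; refine ⟨⟨?_, ?_⟩, ⟨?_, ?_⟩, ⟨?_, ?_⟩⟩ <;> linarith)).congr (by group)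
  obtain ⟨Wmm, hV3Wmm⟩ := V3'.exists_rl _ dWmm (6, -3/2, -2) (by simp only [kWpp, kWpm, kWmp, kWmm, kT, kBo, kBa, kFr, kU1, kU2, kU3, kU4, kV1, kV2, kV3, kTe, kBae, kBoe, kFe, kLf, B6.S, Set.mem_ofPred_eq]; refine ⟨⟨?_, ?_⟩, ⟨?_, ?_⟩, ⟨?_, ?_⟩⟩ <;> linarith) (by simp only [kWpp, kWpm, kWmp, kWmm, kT, kBo, kBa, kFr, kU1, kU2, kU3, kU4, kV1, kV2, kV3, kTe, kBae, kBoe, kFe, kLf, B6.S, Set.mem_ofPred_eq]; refine ⟨⟨?_, ?_⟩, ⟨?_, ?_⟩, ⟨?_, ?_⟩⟩ <;> linarith)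
  have hV2Wmm : Rl V2 Wmm 1 :=
    (Rl.tri (6, -3/2, -2) hV3V2.symm hV3Wmm (by simp only [kWpp, kWpm, kWmp, kWmm, kT, kBo, kBa, kFr, kU1, kU2, kU3, kU4, kV1, kV2, kV3, kTe, kBae, kBoe, kFe, kLf, B6.S, Set.mem_ofPred_eq]; refine ⟨⟨?_, ?_⟩, ⟨?_, ?_⟩, ⟨?_, ?_⟩⟩ <;> linarith) (by simp only [kWpp, kWpm, kWmp, kWmm, kT, kBo, kBa, kFr, kU1, kU2, kU3, kU4, kV1, kV2, kV3, kTe, kBae, kBoe, kFe, kLf, B6.S, Set.mem_ofPred_eq]; refine ⟨⟨?_, ?_⟩, ⟨?_, ?_⟩, ⟨?_, ?_⟩⟩ <;> linarith) (by simp only [kWpp, kWpm, kWmp, kWmm, kT, kBo, kBa, kFr, kU1, kU2, kU3, kU4, kV1, kV2, kV3, kTe, kBae, kBoe, kFe, kLf, B6.S, Set.mem_ofPred_eq]; refine ⟨⟨?_, ?_⟩, ⟨?_, ?_⟩, ⟨?_, ?_⟩⟩ <;> linarith)).congr (by group)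
  have hU4V2 : Rl U4 V2 A :=
    (Rl.tri (0, -3/2, 2) hU4Wmp hV2Wmp.symm (by simp only [kWpp, kWpm, kWmp, kWmm, kT, kBo, kBa, kFr, kU1, kU2, kU3, kU4, kV1, kV2, kV3, kTe, kBae, kBoe, kFe, kLf, B6.S, Set.mem_ofPred_eq]; refine ⟨⟨?_, ?_⟩, ⟨?_, ?_⟩, ⟨?_, ?_⟩⟩ <;> linarith) (by simp only [kWpp, kWpm, kWmp, kWmm, kT, kBo, kBa, kFr, kU1, kU2, kU3, kU4, kV1, kV2, kV3, kTe, kBae, kBoe, kFe, kLf, B6.S, Set.mem_ofPred_eq]; refine ⟨⟨?_, ?_⟩, ⟨?_, ?_⟩, ⟨?_, ?_⟩⟩ <;> linarith) (by simp only [kWpp, kWpm, kWmp, kWmm, kT, kBo, kBa, kFr, kU1, kU2, kU3, kU4, kV1, kV2, kV3, kTe, kBae, kBoe, kFe, kLf, B6.S, Set.mem_ofPred_eq]; refine ⟨⟨?_, ?_⟩, ⟨?_, ?_⟩, ⟨?_, ?_⟩⟩ <;> linarith)).congr (by group)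
  have hU4Wmm : Rl U4 Wmm A :=
    (Rl.tri (0, -3/2, -3/2) hU4V2 hV2Wmm (by simp only [kWpp, kWpm, kWmp, kWmm, kT, kBo, kBa, kFr, kU1, kU2, kU3, kU4, kV1, kV2, kV3, kTe, kBae, kBoe, kFe, kLf, B6.S, Set.mem_ofPred_eq]; refine ⟨⟨?_, ?_⟩, ⟨?_, ?_⟩, ⟨?_, ?_⟩⟩ <;> linarith) (by simp only [kWpp, kWpm, kWmp, kWmm, kT, kBo, kBa, kFr, kU1, kU2, kU3, kU4, kV1, kV2, kV3, kTe, kBae, kBoe, kFe, kLf, B6.S, Set.mem_ofPred_eq]; refine ⟨⟨?_, ?_⟩, ⟨?_, ?_⟩, ⟨?_, ?_⟩⟩ <;> linarith) (by simp only [kWpp, kWpm, kWmp, kWmm, kT, kBo, kBa, kFr, kU1, kU2, kU3, kU4, kV1, kV2, kV3, kTe, kBae, kBoe, kFe, kLf, B6.S, Set.mem_ofPred_eq]; refine ⟨⟨?_, ?_⟩, ⟨?_, ?_⟩, ⟨?_, ?_⟩⟩ <;> linarith)).congr (by group)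
  obtain ⟨U2, hU3U2⟩ := U3.exists_rl _ dU2 (-6, 0, -3/2) (by simp only [kWpp, kWpm, kWmp, kWmm, kT, kBo, kBa, kFr, kU1, kU2, kU3, kU4, kV1, kV2, kV3, kTe, kBae, kBoe, kFe, kLf, B6.S, Set.mem_ofPred_eq]; refine ⟨⟨?_, ?_⟩, ⟨?_, ?_⟩, ⟨?_, ?_⟩⟩ <;> linarith) (by simp only [kWpp, kWpm, kWmp, kWmm, kT, kBo, kBa, kFr, kU1, kU2, kU3, kU4, kV1, kV2, kV3, kTe, kBae, kBoe, kFe, kLf, B6.S, Set.mem_ofPred_eq]; refine ⟨⟨?_, ?_⟩, ⟨?_, ?_⟩, ⟨?_, ?_⟩⟩ <;> linarith)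
  -- the element B
  obtain ⟨B, hU3Wpm⟩ : ∃ B, Rl U3 Wpm B :=
    ⟨U3.ψ (-6, 2, -3/2) * (Wpm.ψ (-6, 2, -3/2))⁻¹, Rl.of_point (p := (-6, 2, -3/2)) (by simp only [kWpp, kWpm, kWmp, kWmm, kT, kBo, kBa, kFr, kU1, kU2, kU3, kU4, kV1, kV2, kV3, kTe, kBae, kBoe, kFe, kLf, B6.S, Set.mem_ofPred_eq]; refine ⟨⟨?_, ?_⟩, ⟨?_, ?_⟩, ⟨?_, ?_⟩⟩ <;> linarith)
      (by simp only [kWpp, kWpm, kWmp, kWmm, kT, kBo, kBa, kFr, kU1, kU2, kU3, kU4, kV1, kV2, kV3, kTe, kBae, kBoe, kFe, kLf, B6.S, Set.mem_ofPred_eq]; refine ⟨⟨?_, ?_⟩, ⟨?_, ?_⟩, ⟨?_, ?_⟩⟩ <;> linarith) (by rw [inv_mul_cancel_right])⟩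
  have hU2Wpm : Rl U2 Wpm B :=
    (Rl.tri (-6, 2, -3/2) hU3U2.symm hU3Wpm (by simp only [kWpp, kWpm, kWmp, kWmm, kT, kBo, kBa, kFr, kU1, kU2, kU3, kU4, kV1, kV2, kV3, kTe, kBae, kBoe, kFe, kLf, B6.S, Set.mem_ofPred_eq]; refine ⟨⟨?_, ?_⟩, ⟨?_, ?_⟩, ⟨?_, ?_⟩⟩ <;> linarith) (by simp only [kWpp, kWpm, kWmp, kWmm, kT, kBo, kBa, kFr, kU1, kU2, kU3, kU4, kV1, kV2, kV3, kTe, kBae, kBoe, kFe, kLf, B6.S, Set.mem_ofPred_eq]; refine ⟨⟨?_, ?_⟩, ⟨?_, ?_⟩, ⟨?_, ?_⟩⟩ <;> linarith) (by simp only [kWpp, kWpm, kWmp, kWmm, kT, kBo, kBa, kFr, kU1, kU2, kU3, kU4, kV1, kV2, kV3, kTe, kBae, kBoe, kFe, kLf, B6.S, Set.mem_ofPred_eq]; refine ⟨⟨?_, ?_⟩, ⟨?_, ?_⟩, ⟨?_, ?_⟩⟩ <;> linarith)).congr (by group)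
  have hU2U4 : Rl U2 U4 B :=
    (Rl.tri (0, 2, -3/2) hU2Wpm hU4Wpm.symm (by simp only [kWpp, kWpm, kWmp, kWmm, kT, kBo, kBa, kFr, kU1, kU2, kU3, kU4, kV1, kV2, kV3, kTe, kBae, kBoe, kFe, kLf, B6.S, Set.mem_ofPred_eq]; refine ⟨⟨?_, ?_⟩, ⟨?_, ?_⟩, ⟨?_, ?_⟩⟩ <;> linarith) (by simp only [kWpp, kWpm, kWmp, kWmm, kT, kBo, kBa, kFr, kU1, kU2, kU3, kU4, kV1, kV2, kV3, kTe, kBae, kBoe, kFe, kLf, B6.S, Set.mem_ofPred_eq]; refine ⟨⟨?_, ?_⟩, ⟨?_, ?_⟩, ⟨?_, ?_⟩⟩ <;> linarith) (by simp only [kWpp, kWpm, kWmp, kWmm, kT, kBo, kBa, kFr, kU1, kU2, kU3, kU4, kV1, kV2, kV3, kTe, kBae, kBoe, kFe, kLf, B6.S, Set.mem_ofPred_eq]; refine ⟨⟨?_, ?_⟩, ⟨?_, ?_⟩, ⟨?_, ?_⟩⟩ <;> linarith)).congr (by group)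
  have hU2Wmm : Rl U2 Wmm (B * A) :=
    Rl.tri (0, -3/2, -3/2) hU2U4 hU4Wmm (by simp only [kWpp, kWpm, kWmp, kWmm, kT, kBo, kBa, kFr, kU1, kU2, kU3, kU4, kV1, kV2, kV3, kTe, kBae, kBoe, kFe, kLf, B6.S, Set.mem_ofPred_eq]; refine ⟨⟨?_, ?_⟩, ⟨?_, ?_⟩, ⟨?_, ?_⟩⟩ <;> linarith) (by simp only [kWpp, kWpm, kWmp, kWmm, kT, kBo, kBa, kFr, kU1, kU2, kU3, kU4, kV1, kV2, kV3, kTe, kBae, kBoe, kFe, kLf, B6.S, Set.mem_ofPred_eq]; refine ⟨⟨?_, ?_⟩, ⟨?_, ?_⟩, ⟨?_, ?_⟩⟩ <;> linarith) (by simp only [kWpp, kWpm, kWmp, kWmm, kT, kBo, kBa, kFr, kU1, kU2, kU3, kU4, kV1, kV2, kV3, kTe, kBae, kBoe, kFe, kLf, B6.S, Set.mem_ofPred_eq]; refine ⟨⟨?_, ?_⟩, ⟨?_, ?_⟩, ⟨?_, ?_⟩⟩ <;> linarith)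
  have hU3Wmm : Rl U3 Wmm (B * A) :=
    (Rl.tri (-6, -2, -3/2) hU3U2 hU2Wmm (by simp only [kWpp, kWpm, kWmp, kWmm, kT, kBo, kBa, kFr, kU1, kU2, kU3, kU4, kV1, kV2, kV3, kTe, kBae, kBoe, kFe, kLf, B6.S, Set.mem_ofPred_eq]; refine ⟨⟨?_, ?_⟩, ⟨?_, ?_⟩, ⟨?_, ?_⟩⟩ <;> linarith) (by simp only [kWpp, kWpm, kWmp, kWmm, kT, kBo, kBa, kFr, kU1, kU2, kU3, kU4, kV1, kV2, kV3, kTe, kBae, kBoe, kFe, kLf, B6.S, Set.mem_ofPred_eq]; refine ⟨⟨?_, ?_⟩, ⟨?_, ?_⟩, ⟨?_, ?_⟩⟩ <;> linarith) (by simp only [kWpp, kWpm, kWmp, kWmm, kT, kBo, kBa, kFr, kU1, kU2, kU3, kU4, kV1, kV2, kV3, kTe, kBae, kBoe, kFe, kLf, B6.S, Set.mem_ofPred_eq]; refine ⟨⟨?_, ?_⟩, ⟨?_, ?_⟩, ⟨?_, ?_⟩⟩ <;> linarith)).congr (by group)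
  obtain ⟨Ba, hWppBa⟩ := Wpp.exists_rl _ dBa (0, 9, 2) (by simp only [kWpp, kWpm, kWmp, kWmm, kT, kBo, kBa, kFr, kU1, kU2, kU3, kU4, kV1, kV2, kV3, kTe, kBae, kBoe, kFe, kLf, B6.S, Set.mem_ofPred_eq]; refine ⟨⟨?_, ?_⟩, ⟨?_, ?_⟩, ⟨?_, ?_⟩⟩ <;> linarith) (by simp only [kWpp, kWpm, kWmp, kWmm, kT, kBo, kBa, kFr, kU1, kU2, kU3, kU4, kV1, kV2, kV3, kTe, kBae, kBoe, kFe, kLf, B6.S, Set.mem_ofPred_eq]; refine ⟨⟨?_, ?_⟩, ⟨?_, ?_⟩, ⟨?_, ?_⟩⟩ <;> linarith)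
  have hBaU3 : Rl Ba U3 1 :=
    (Rl.tri (-6, 9, 2) hWppBa.symm hWppU3 (by simp only [kWpp, kWpm, kWmp, kWmm, kT, kBo, kBa, kFr, kU1, kU2, kU3, kU4, kV1, kV2, kV3, kTe, kBae, kBoe, kFe, kLf, B6.S, Set.mem_ofPred_eq]; refine ⟨⟨?_, ?_⟩, ⟨?_, ?_⟩, ⟨?_, ?_⟩⟩ <;> linarith) (by simp only [kWpp, kWpm, kWmp, kWmm, kT, kBo, kBa, kFr, kU1, kU2, kU3, kU4, kV1, kV2, kV3, kTe, kBae, kBoe, kFe, kLf, B6.S, Set.mem_ofPred_eq]; refine ⟨⟨?_, ?_⟩, ⟨?_, ?_⟩, ⟨?_, ?_⟩⟩ <;> linarith) (by simp only [kWpp, kWpm, kWmp, kWmm, kT, kBo, kBa, kFr, kU1, kU2, kU3, kU4, kV1, kV2, kV3, kTe, kBae, kBoe, kFe, kLf, B6.S, Set.mem_ofPred_eq]; refine ⟨⟨?_, ?_⟩, ⟨?_, ?_⟩, ⟨?_, ?_⟩⟩ <;> linarith)).congr (by group)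
  have hBaWpm : Rl Ba Wpm B :=
    (Rl.tri (-6, 9, -3/2) hBaU3 hU3Wpm (by simp only [kWpp, kWpm, kWmp, kWmm, kT, kBo, kBa, kFr, kU1, kU2, kU3, kU4, kV1, kV2, kV3, kTe, kBae, kBoe, kFe, kLf, B6.S, Set.mem_ofPred_eq]; refine ⟨⟨?_, ?_⟩, ⟨?_, ?_⟩, ⟨?_, ?_⟩⟩ <;> linarith) (by simp only [kWpp, kWpm, kWmp, kWmm, kT, kBo, kBa, kFr, kU1, kU2, kU3, kU4, kV1, kV2, kV3, kTe, kBae, kBoe, kFe, kLf, B6.S, Set.mem_ofPred_eq]; refine ⟨⟨?_, ?_⟩, ⟨?_, ?_⟩, ⟨?_, ?_⟩⟩ <;> linarith) (by simp only [kWpp, kWpm, kWmp, kWmm, kT, kBo, kBa, kFr, kU1, kU2, kU3, kU4, kV1, kV2, kV3, kTe, kBae, kBoe, kFe, kLf, B6.S, Set.mem_ofPred_eq]; refine ⟨⟨?_, ?_⟩, ⟨?_, ?_⟩, ⟨?_, ?_⟩⟩ <;> linarith)).congr (by group)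
  obtain ⟨Fr, hWmpFr⟩ := Wmp.exists_rl _ dFr (0, -5, 2) (by simp only [kWpp, kWpm, kWmp, kWmm, kT, kBo, kBa, kFr, kU1, kU2, kU3, kU4, kV1, kV2, kV3, kTe, kBae, kBoe, kFe, kLf, B6.S, Set.mem_ofPred_eq]; refine ⟨⟨?_, ?_⟩, ⟨?_, ?_⟩, ⟨?_, ?_⟩⟩ <;> linarith) (by simp only [kWpp, kWpm, kWmp, kWmm, kT, kBo, kBa, kFr, kU1, kU2, kU3, kU4, kV1, kV2, kV3, kTe, kBae, kBoe, kFe, kLf, B6.S, Set.mem_ofPred_eq]; refine ⟨⟨?_, ?_⟩, ⟨?_, ?_⟩, ⟨?_, ?_⟩⟩ <;> linarith)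
  have hU3Fr : Rl U3 Fr A :=
    (Rl.tri (-6, -5, 2) hU3Wmp hWmpFr (by simp only [kWpp, kWpm, kWmp, kWmm, kT, kBo, kBa, kFr, kU1, kU2, kU3, kU4, kV1, kV2, kV3, kTe, kBae, kBoe, kFe, kLf, B6.S, Set.mem_ofPred_eq]; refine ⟨⟨?_, ?_⟩, ⟨?_, ?_⟩, ⟨?_, ?_⟩⟩ <;> linarith) (by simp only [kWpp, kWpm, kWmp, kWmm, kT, kBo, kBa, kFr, kU1, kU2, kU3, kU4, kV1, kV2, kV3, kTe, kBae, kBoe, kFe, kLf, B6.S, Set.mem_ofPred_eq]; refine ⟨⟨?_, ?_⟩, ⟨?_, ?_⟩, ⟨?_, ?_⟩⟩ <;> linarith) (by simp only [kWpp, kWpm, kWmp, kWmm, kT, kBo, kBa, kFr, kU1, kU2, kU3, kU4, kV1, kV2, kV3, kTe, kBae, kBoe, kFe, kLf, B6.S, Set.mem_ofPred_eq]; refine ⟨⟨?_, ?_⟩, ⟨?_, ?_⟩, ⟨?_, ?_⟩⟩ <;> linarith)).congr (by group)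
  have hFrWmm : Rl Fr Wmm (A⁻¹ * (B * A)) :=
    Rl.tri (-6, -5, -3/2) hU3Fr.symm hU3Wmm (by simp only [kWpp, kWpm, kWmp, kWmm, kT, kBo, kBa, kFr, kU1, kU2, kU3, kU4, kV1, kV2, kV3, kTe, kBae, kBoe, kFe, kLf, B6.S, Set.mem_ofPred_eq]; refine ⟨⟨?_, ?_⟩, ⟨?_, ?_⟩, ⟨?_, ?_⟩⟩ <;> linarith) (by simp only [kWpp, kWpm, kWmp, kWmm, kT, kBo, kBa, kFr, kU1, kU2, kU3, kU4, kV1, kV2, kV3, kTe, kBae, kBoe, kFe, kLf, B6.S, Set.mem_ofPred_eq]; refine ⟨⟨?_, ?_⟩, ⟨?_, ?_⟩, ⟨?_, ?_⟩⟩ <;> linarith) (by simp only [kWpp, kWpm, kWmp, kWmm, kT, kBo, kBa, kFr, kU1, kU2, kU3, kU4, kV1, kV2, kV3, kTe, kBae, kBoe, kFe, kLf, B6.S, Set.mem_ofPred_eq]; refine ⟨⟨?_, ?_⟩, ⟨?_, ?_⟩, ⟨?_, ?_⟩⟩ <;> linarith)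
  obtain ⟨Bo, hWpmBo⟩ := Wpm.exists_rl _ dBo (0, 2, -5) (by simp only [kWpp, kWpm, kWmp, kWmm, kT, kBo, kBa, kFr, kU1, kU2, kU3, kU4, kV1, kV2, kV3, kTe, kBae, kBoe, kFe, kLf, B6.S, Set.mem_ofPred_eq]; refine ⟨⟨?_, ?_⟩, ⟨?_, ?_⟩, ⟨?_, ?_⟩⟩ <;> linarith) (by simp only [kWpp, kWpm, kWmp, kWmm, kT, kBo, kBa, kFr, kU1, kU2, kU3, kU4, kV1, kV2, kV3, kTe, kBae, kBoe, kFe, kLf, B6.S, Set.mem_ofPred_eq]; refine ⟨⟨?_, ?_⟩, ⟨?_, ?_⟩, ⟨?_, ?_⟩⟩ <;> linarith)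
  have hV3Bo : Rl V3' Bo 1 :=
    (Rl.tri (6, 2, -5) hV3Wpm hWpmBo (by simp only [kWpp, kWpm, kWmp, kWmm, kT, kBo, kBa, kFr, kU1, kU2, kU3, kU4, kV1, kV2, kV3, kTe, kBae, kBoe, kFe, kLf, B6.S, Set.mem_ofPred_eq]; refine ⟨⟨?_, ?_⟩, ⟨?_, ?_⟩, ⟨?_, ?_⟩⟩ <;> linarith) (by simp only [kWpp, kWpm, kWmp, kWmm, kT, kBo, kBa, kFr, kU1, kU2, kU3, kU4, kV1, kV2, kV3, kTe, kBae, kBoe, kFe, kLf, B6.S, Set.mem_ofPred_eq]; refine ⟨⟨?_, ?_⟩, ⟨?_, ?_⟩, ⟨?_, ?_⟩⟩ <;> linarith) (by simp only [kWpp, kWpm, kWmp, kWmm, kT, kBo, kBa, kFr, kU1, kU2, kU3, kU4, kV1, kV2, kV3, kTe, kBae, kBoe, kFe, kLf, B6.S, Set.mem_ofPred_eq]; refine ⟨⟨?_, ?_⟩, ⟨?_, ?_⟩, ⟨?_, ?_⟩⟩ <;> linarith)).congr (by group)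
  have hBoWmm : Rl Bo Wmm 1 :=
    (Rl.tri (6, -3/2, -5) hV3Bo.symm hV3Wmm (by simp only [kWpp, kWpm, kWmp, kWmm, kT, kBo, kBa, kFr, kU1, kU2, kU3, kU4, kV1, kV2, kV3, kTe, kBae, kBoe, kFe, kLf, B6.S, Set.mem_ofPred_eq]; refine ⟨⟨?_, ?_⟩, ⟨?_, ?_⟩, ⟨?_, ?_⟩⟩ <;> linarith) (by simp only [kWpp, kWpm, kWmp, kWmm, kT, kBo, kBa, kFr, kU1, kU2, kU3, kU4, kV1, kV2, kV3, kTe, kBae, kBoe, kFe, kLf, B6.S, Set.mem_ofPred_eq]; refine ⟨⟨?_, ?_⟩, ⟨?_, ?_⟩, ⟨?_, ?_⟩⟩ <;> linarith) (by simp only [kWpp, kWpm, kWmp, kWmm, kT, kBo, kBa, kFr, kU1, kU2, kU3, kU4, kV1, kV2, kV3, kTe, kBae, kBoe, kFe, kLf, B6.S, Set.mem_ofPred_eq]; refine ⟨⟨?_, ?_⟩, ⟨?_, ?_⟩, ⟨?_, ?_⟩⟩ <;> linarith)).congr (by group)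
  -- around the waist
  have hTBa : Rl T Ba 1 :=
    (Rl.tri (0, 9, 9) hWppT.symm hWppBa (by simp only [kWpp, kWpm, kWmp, kWmm, kT, kBo, kBa, kFr, kU1, kU2, kU3, kU4, kV1, kV2, kV3, kTe, kBae, kBoe, kFe, kLf, B6.S, Set.mem_ofPred_eq]; refine ⟨⟨?_, ?_⟩, ⟨?_, ?_⟩, ⟨?_, ?_⟩⟩ <;> linarith) (by simp only [kWpp, kWpm, kWmp, kWmm, kT, kBo, kBa, kFr, kU1, kU2, kU3, kU4, kV1, kV2, kV3, kTe, kBae, kBoe, kFe, kLf, B6.S, Set.mem_ofPred_eq]; refine ⟨⟨?_, ?_⟩, ⟨?_, ?_⟩, ⟨?_, ?_⟩⟩ <;> linarith) (by simp only [kWpp, kWpm, kWmp, kWmm, kT, kBo, kBa, kFr, kU1, kU2, kU3, kU4, kV1, kV2, kV3, kTe, kBae, kBoe, kFe, kLf, B6.S, Set.mem_ofPred_eq]; refine ⟨⟨?_, ?_⟩, ⟨?_, ?_⟩, ⟨?_, ?_⟩⟩ <;> linarith)).congr (by group)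
  have hBaBo : Rl Ba Bo B :=
    (Rl.tri (0, 9, -5) hBaWpm hWpmBo (by simp only [kWpp, kWpm, kWmp, kWmm, kT, kBo, kBa, kFr, kU1, kU2, kU3, kU4, kV1, kV2, kV3, kTe, kBae, kBoe, kFe, kLf, B6.S, Set.mem_ofPred_eq]; refine ⟨⟨?_, ?_⟩, ⟨?_, ?_⟩, ⟨?_, ?_⟩⟩ <;> linarith) (by simp only [kWpp, kWpm, kWmp, kWmm, kT, kBo, kBa, kFr, kU1, kU2, kU3, kU4, kV1, kV2, kV3, kTe, kBae, kBoe, kFe, kLf, B6.S, Set.mem_ofPred_eq]; refine ⟨⟨?_, ?_⟩, ⟨?_, ?_⟩, ⟨?_, ?_⟩⟩ <;> linarith) (by simp only [kWpp, kWpm, kWmp, kWmm, kT, kBo, kBa, kFr, kU1, kU2, kU3, kU4, kV1, kV2, kV3, kTe, kBae, kBoe, kFe, kLf, B6.S, Set.mem_ofPred_eq]; refine ⟨⟨?_, ?_⟩, ⟨?_, ?_⟩, ⟨?_, ?_⟩⟩ <;> linarith)).congr (by group)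
  have hBoFr : Rl Bo Fr (A⁻¹ * (B * A))⁻¹ :=
    (Rl.tri (0, -5, -5) hBoWmm hFrWmm.symm (by simp only [kWpp, kWpm, kWmp, kWmm, kT, kBo, kBa, kFr, kU1, kU2, kU3, kU4, kV1, kV2, kV3, kTe, kBae, kBoe, kFe, kLf, B6.S, Set.mem_ofPred_eq]; refine ⟨⟨?_, ?_⟩, ⟨?_, ?_⟩, ⟨?_, ?_⟩⟩ <;> linarith) (by simp only [kWpp, kWpm, kWmp, kWmm, kT, kBo, kBa, kFr, kU1, kU2, kU3, kU4, kV1, kV2, kV3, kTe, kBae, kBoe, kFe, kLf, B6.S, Set.mem_ofPred_eq]; refine ⟨⟨?_, ?_⟩, ⟨?_, ?_⟩, ⟨?_, ?_⟩⟩ <;> linarith) (by simp only [kWpp, kWpm, kWmp, kWmm, kT, kBo, kBa, kFr, kU1, kU2, kU3, kU4, kV1, kV2, kV3, kTe, kBae, kBoe, kFe, kLf, B6.S, Set.mem_ofPred_eq]; refine ⟨⟨?_, ?_⟩, ⟨?_, ?_⟩, ⟨?_, ?_⟩⟩ <;> linarith)).congr (by group)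
  have hFrT : Rl Fr T 1 :=
    (Rl.tri (0, -5, 9) hWmpFr.symm hTWmp.symm (by simp only [kWpp, kWpm, kWmp, kWmm, kT, kBo, kBa, kFr, kU1, kU2, kU3, kU4, kV1, kV2, kV3, kTe, kBae, kBoe, kFe, kLf, B6.S, Set.mem_ofPred_eq]; refine ⟨⟨?_, ?_⟩, ⟨?_, ?_⟩, ⟨?_, ?_⟩⟩ <;> linarith) (by simp only [kWpp, kWpm, kWmp, kWmm, kT, kBo, kBa, kFr, kU1, kU2, kU3, kU4, kV1, kV2, kV3, kTe, kBae, kBoe, kFe, kLf, B6.S, Set.mem_ofPred_eq]; refine ⟨⟨?_, ?_⟩, ⟨?_, ?_⟩, ⟨?_, ?_⟩⟩ <;> linarith) (by simp only [kWpp, kWpm, kWmp, kWmm, kT, kBo, kBa, kFr, kU1, kU2, kU3, kU4, kV1, kV2, kV3, kTe, kBae, kBoe, kFe, kLf, B6.S, Set.mem_ofPred_eq]; refine ⟨⟨?_, ?_⟩, ⟨?_, ?_⟩, ⟨?_, ?_⟩⟩ <;> linarith)).congr (by group)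
  -- extended boxes
  obtain ⟨Te, hTTe⟩ := T.exists_rl _ dTe (0, 0, r + 8) (by simp only [kWpp, kWpm, kWmp, kWmm, kT, kBo, kBa, kFr, kU1, kU2, kU3, kU4, kV1, kV2, kV3, kTe, kBae, kBoe, kFe, kLf, B6.S, Set.mem_ofPred_eq]; refine ⟨⟨?_, ?_⟩, ⟨?_, ?_⟩, ⟨?_, ?_⟩⟩ <;> linarith) (by simp only [kWpp, kWpm, kWmp, kWmm, kT, kBo, kBa, kFr, kU1, kU2, kU3, kU4, kV1, kV2, kV3, kTe, kBae, kBoe, kFe, kLf, B6.S, Set.mem_ofPred_eq]; refine ⟨⟨?_, ?_⟩, ⟨?_, ?_⟩, ⟨?_, ?_⟩⟩ <;> linarith)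
  obtain ⟨Bae, hBaBae⟩ := Ba.exists_rl _ dBae (0, r + 8, 0) (by simp only [kWpp, kWpm, kWmp, kWmm, kT, kBo, kBa, kFr, kU1, kU2, kU3, kU4, kV1, kV2, kV3, kTe, kBae, kBoe, kFe, kLf, B6.S, Set.mem_ofPred_eq]; refine ⟨⟨?_, ?_⟩, ⟨?_, ?_⟩, ⟨?_, ?_⟩⟩ <;> linarith) (by simp only [kWpp, kWpm, kWmp, kWmm, kT, kBo, kBa, kFr, kU1, kU2, kU3, kU4, kV1, kV2, kV3, kTe, kBae, kBoe, kFe, kLf, B6.S, Set.mem_ofPred_eq]; refine ⟨⟨?_, ?_⟩, ⟨?_, ?_⟩, ⟨?_, ?_⟩⟩ <;> linarith)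
  obtain ⟨Boe, hBoBoe⟩ := Bo.exists_rl _ dBoe (0, 0, -(r + 8)) (by simp only [kWpp, kWpm, kWmp, kWmm, kT, kBo, kBa, kFr, kU1, kU2, kU3, kU4, kV1, kV2, kV3, kTe, kBae, kBoe, kFe, kLf, B6.S, Set.mem_ofPred_eq]; refine ⟨⟨?_, ?_⟩, ⟨?_, ?_⟩, ⟨?_, ?_⟩⟩ <;> linarith) (by simp only [kWpp, kWpm, kWmp, kWmm, kT, kBo, kBa, kFr, kU1, kU2, kU3, kU4, kV1, kV2, kV3, kTe, kBae, kBoe, kFe, kLf, B6.S, Set.mem_ofPred_eq]; refine ⟨⟨?_, ?_⟩, ⟨?_, ?_⟩, ⟨?_, ?_⟩⟩ <;> linarith)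
  obtain ⟨Fe, hFrFe⟩ := Fr.exists_rl _ dFe (0, -(r + 8), 0) (by simp only [kWpp, kWpm, kWmp, kWmm, kT, kBo, kBa, kFr, kU1, kU2, kU3, kU4, kV1, kV2, kV3, kTe, kBae, kBoe, kFe, kLf, B6.S, Set.mem_ofPred_eq]; refine ⟨⟨?_, ?_⟩, ⟨?_, ?_⟩, ⟨?_, ?_⟩⟩ <;> linarith) (by simp only [kWpp, kWpm, kWmp, kWmm, kT, kBo, kBa, kFr, kU1, kU2, kU3, kU4, kV1, kV2, kV3, kTe, kBae, kBoe, kFe, kLf, B6.S, Set.mem_ofPred_eq]; refine ⟨⟨?_, ?_⟩, ⟨?_, ?_⟩, ⟨?_, ?_⟩⟩ <;> linarith)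
  have hTeBa : Rl Te Ba 1 :=
    (Rl.tri (0, r + 8, r + 8) hTTe.symm hTBa (by simp only [kWpp, kWpm, kWmp, kWmm, kT, kBo, kBa, kFr, kU1, kU2, kU3, kU4, kV1, kV2, kV3, kTe, kBae, kBoe, kFe, kLf, B6.S, Set.mem_ofPred_eq]; refine ⟨⟨?_, ?_⟩, ⟨?_, ?_⟩, ⟨?_, ?_⟩⟩ <;> linarith) (by simp only [kWpp, kWpm, kWmp, kWmm, kT, kBo, kBa, kFr, kU1, kU2, kU3, kU4, kV1, kV2, kV3, kTe, kBae, kBoe, kFe, kLf, B6.S, Set.mem_ofPred_eq]; refine ⟨⟨?_, ?_⟩, ⟨?_, ?_⟩, ⟨?_, ?_⟩⟩ <;> linarith) (by simp only [kWpp, kWpm, kWmp, kWmm, kT, kBo, kBa, kFr, kU1, kU2, kU3, kU4, kV1, kV2, kV3, kTe, kBae, kBoe, kFe, kLf, B6.S, Set.mem_ofPred_eq]; refine ⟨⟨?_, ?_⟩, ⟨?_, ?_⟩, ⟨?_, ?_⟩⟩ <;> linarith)).congr (by group)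
  have hTeBae : Rl Te Bae 1 :=
    (Rl.tri (0, r + 8, r + 8) hTeBa hBaBae (by simp only [kWpp, kWpm, kWmp, kWmm, kT, kBo, kBa, kFr, kU1, kU2, kU3, kU4, kV1, kV2, kV3, kTe, kBae, kBoe, kFe, kLf, B6.S, Set.mem_ofPred_eq]; refine ⟨⟨?_, ?_⟩, ⟨?_, ?_⟩, ⟨?_, ?_⟩⟩ <;> linarith) (by simp only [kWpp, kWpm, kWmp, kWmm, kT, kBo, kBa, kFr, kU1, kU2, kU3, kU4, kV1, kV2, kV3, kTe, kBae, kBoe, kFe, kLf, B6.S, Set.mem_ofPred_eq]; refine ⟨⟨?_, ?_⟩, ⟨?_, ?_⟩, ⟨?_, ?_⟩⟩ <;> linarith) (by simp only [kWpp, kWpm, kWmp, kWmm, kT, kBo, kBa, kFr, kU1, kU2, kU3, kU4, kV1, kV2, kV3, kTe, kBae, kBoe, kFe, kLf, B6.S, Set.mem_ofPred_eq]; refine ⟨⟨?_, ?_⟩, ⟨?_, ?_⟩, ⟨?_, ?_⟩⟩ <;> linarith)).congr (by group)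
  have hBaeBo : Rl Bae Bo B :=
    (Rl.tri (0, r + 8, -(r + 8)) hBaBae.symm hBaBo (by simp only [kWpp, kWpm, kWmp, kWmm, kT, kBo, kBa, kFr, kU1, kU2, kU3, kU4, kV1, kV2, kV3, kTe, kBae, kBoe, kFe, kLf, B6.S, Set.mem_ofPred_eq]; refine ⟨⟨?_, ?_⟩, ⟨?_, ?_⟩, ⟨?_, ?_⟩⟩ <;> linarith) (by simp only [kWpp, kWpm, kWmp, kWmm, kT, kBo, kBa, kFr, kU1, kU2, kU3, kU4, kV1, kV2, kV3, kTe, kBae, kBoe, kFe, kLf, B6.S, Set.mem_ofPred_eq]; refine ⟨⟨?_, ?_⟩, ⟨?_, ?_⟩, ⟨?_, ?_⟩⟩ <;> linarith) (by simp only [kWpp, kWpm, kWmp, kWmm, kT, kBo, kBa, kFr, kU1, kU2, kU3, kU4, kV1, kV2, kV3, kTe, kBae, kBoe, kFe, kLf, B6.S, Set.mem_ofPred_eq]; refine ⟨⟨?_, ?_⟩, ⟨?_, ?_⟩, ⟨?_, ?_⟩⟩ <;> linarith)).congr (by group)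
  have hBaeBoe : Rl Bae Boe B :=
    (Rl.tri (0, r + 8, -(r + 8)) hBaeBo hBoBoe (by simp only [kWpp, kWpm, kWmp, kWmm, kT, kBo, kBa, kFr, kU1, kU2, kU3, kU4, kV1, kV2, kV3, kTe, kBae, kBoe, kFe, kLf, B6.S, Set.mem_ofPred_eq]; refine ⟨⟨?_, ?_⟩, ⟨?_, ?_⟩, ⟨?_, ?_⟩⟩ <;> linarith) (by simp only [kWpp, kWpm, kWmp, kWmm, kT, kBo, kBa, kFr, kU1, kU2, kU3, kU4, kV1, kV2, kV3, kTe, kBae, kBoe, kFe, kLf, B6.S, Set.mem_ofPred_eq]; refine ⟨⟨?_, ?_⟩, ⟨?_, ?_⟩, ⟨?_, ?_⟩⟩ <;> linarith) (by simp only [kWpp, kWpm, kWmp, kWmm, kT, kBo, kBa, kFr, kU1, kU2, kU3, kU4, kV1, kV2, kV3, kTe, kBae, kBoe, kFe, kLf, B6.S, Set.mem_ofPred_eq]; refine ⟨⟨?_, ?_⟩, ⟨?_, ?_⟩, ⟨?_, ?_⟩⟩ <;> linarith)).congr (by group)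
  have hBoeFr : Rl Boe Fr (A⁻¹ * (B * A))⁻¹ :=
    (Rl.tri (0, -(r + 8), -(r + 8)) hBoBoe.symm hBoFr (by simp only [kWpp, kWpm, kWmp, kWmm, kT, kBo, kBa, kFr, kU1, kU2, kU3, kU4, kV1, kV2, kV3, kTe, kBae, kBoe, kFe, kLf, B6.S, Set.mem_ofPred_eq]; refine ⟨⟨?_, ?_⟩, ⟨?_, ?_⟩, ⟨?_, ?_⟩⟩ <;> linarith) (by simp only [kWpp, kWpm, kWmp, kWmm, kT, kBo, kBa, kFr, kU1, kU2, kU3, kU4, kV1, kV2, kV3, kTe, kBae, kBoe, kFe, kLf, B6.S, Set.mem_ofPred_eq]; refine ⟨⟨?_, ?_⟩, ⟨?_, ?_⟩, ⟨?_, ?_⟩⟩ <;> linarith) (by simp only [kWpp, kWpm, kWmp, kWmm, kT, kBo, kBa, kFr, kU1, kU2, kU3, kU4, kV1, kV2, kV3, kTe, kBae, kBoe, kFe, kLf, B6.S, Set.mem_ofPred_eq]; refine ⟨⟨?_, ?_⟩, ⟨?_, ?_⟩, ⟨?_, ?_⟩⟩ <;> linarith)).congr (by group)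
  have hBoeFe : Rl Boe Fe (A⁻¹ * (B * A))⁻¹ :=
    (Rl.tri (0, -(r + 8), -(r + 8)) hBoeFr hFrFe (by simp only [kWpp, kWpm, kWmp, kWmm, kT, kBo, kBa, kFr, kU1, kU2, kU3, kU4, kV1, kV2, kV3, kTe, kBae, kBoe, kFe, kLf, B6.S, Set.mem_ofPred_eq]; refine ⟨⟨?_, ?_⟩, ⟨?_, ?_⟩, ⟨?_, ?_⟩⟩ <;> linarith) (by simp only [kWpp, kWpm, kWmp, kWmm, kT, kBo, kBa, kFr, kU1, kU2, kU3, kU4, kV1, kV2, kV3, kTe, kBae, kBoe, kFe, kLf, B6.S, Set.mem_ofPred_eq]; refine ⟨⟨?_, ?_⟩, ⟨?_, ?_⟩, ⟨?_, ?_⟩⟩ <;> linarith) (by simp only [kWpp, kWpm, kWmp, kWmm, kT, kBo, kBa, kFr, kU1, kU2, kU3, kU4, kV1, kV2, kV3, kTe, kBae, kBoe, kFe, kLf, B6.S, Set.mem_ofPred_eq]; refine ⟨⟨?_, ?_⟩, ⟨?_, ?_⟩, ⟨?_, ?_⟩⟩ <;> linarith)).congr (by group)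
  have hFeT : Rl Fe T 1 :=
    (Rl.tri (0, -(r + 8), r + 8) hFrFe.symm hFrT (by simp only [kWpp, kWpm, kWmp, kWmm, kT, kBo, kBa, kFr, kU1, kU2, kU3, kU4, kV1, kV2, kV3, kTe, kBae, kBoe, kFe, kLf, B6.S, Set.mem_ofPred_eq]; refine ⟨⟨?_, ?_⟩, ⟨?_, ?_⟩, ⟨?_, ?_⟩⟩ <;> linarith) (by simp only [kWpp, kWpm, kWmp, kWmm, kT, kBo, kBa, kFr, kU1, kU2, kU3, kU4, kV1, kV2, kV3, kTe, kBae, kBoe, kFe, kLf, B6.S, Set.mem_ofPred_eq]; refine ⟨⟨?_, ?_⟩, ⟨?_, ?_⟩, ⟨?_, ?_⟩⟩ <;> linarith) (by simp only [kWpp, kWpm, kWmp, kWmm, kT, kBo, kBa, kFr, kU1, kU2, kU3, kU4, kV1, kV2, kV3, kTe, kBae, kBoe, kFe, kLf, B6.S, Set.mem_ofPred_eq]; refine ⟨⟨?_, ?_⟩, ⟨?_, ?_⟩, ⟨?_, ?_⟩⟩ <;> linarith)).congr (by group)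
  have hFeTe : Rl Fe Te 1 :=
    (Rl.tri (0, -(r + 8), r + 8) hFeT hTTe (by simp only [kWpp, kWpm, kWmp, kWmm, kT, kBo, kBa, kFr, kU1, kU2, kU3, kU4, kV1, kV2, kV3, kTe, kBae, kBoe, kFe, kLf, B6.S, Set.mem_ofPred_eq]; refine ⟨⟨?_, ?_⟩, ⟨?_, ?_⟩, ⟨?_, ?_⟩⟩ <;> linarith) (by simp only [kWpp, kWpm, kWmp, kWmm, kT, kBo, kBa, kFr, kU1, kU2, kU3, kU4, kV1, kV2, kV3, kTe, kBae, kBoe, kFe, kLf, B6.S, Set.mem_ofPred_eq]; refine ⟨⟨?_, ?_⟩, ⟨?_, ?_⟩, ⟨?_, ?_⟩⟩ <;> linarith) (by simp only [kWpp, kWpm, kWmp, kWmm, kT, kBo, kBa, kFr, kU1, kU2, kU3, kU4, kV1, kV2, kV3, kTe, kBae, kBoe, kFe, kLf, B6.S, Set.mem_ofPred_eq]; refine ⟨⟨?_, ?_⟩, ⟨?_, ?_⟩, ⟨?_, ?_⟩⟩ <;> linarith)).congr (by group)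
  obtain ⟨Lf, hTeLf⟩ := Te.exists_rl _ dLf (-2 * r - 16, 0, r + 8) (by simp only [kWpp, kWpm, kWmp, kWmm, kT, kBo, kBa, kFr, kU1, kU2, kU3, kU4, kV1, kV2, kV3, kTe, kBae, kBoe, kFe, kLf, B6.S, Set.mem_ofPred_eq]; refine ⟨⟨?_, ?_⟩, ⟨?_, ?_⟩, ⟨?_, ?_⟩⟩ <;> linarith) (by simp only [kWpp, kWpm, kWmp, kWmm, kT, kBo, kBa, kFr, kU1, kU2, kU3, kU4, kV1, kV2, kV3, kTe, kBae, kBoe, kFe, kLf, B6.S, Set.mem_ofPred_eq]; refine ⟨⟨?_, ?_⟩, ⟨?_, ?_⟩, ⟨?_, ?_⟩⟩ <;> linarith)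
  have hLfBae : Rl Lf Bae 1 :=
    (Rl.tri (-2 * r - 16, r + 8, r + 8) hTeLf.symm hTeBae (by simp only [kWpp, kWpm, kWmp, kWmm, kT, kBo, kBa, kFr, kU1, kU2, kU3, kU4, kV1, kV2, kV3, kTe, kBae, kBoe, kFe, kLf, B6.S, Set.mem_ofPred_eq]; refine ⟨⟨?_, ?_⟩, ⟨?_, ?_⟩, ⟨?_, ?_⟩⟩ <;> linarith) (by simp only [kWpp, kWpm, kWmp, kWmm, kT, kBo, kBa, kFr, kU1, kU2, kU3, kU4, kV1, kV2, kV3, kTe, kBae, kBoe, kFe, kLf, B6.S, Set.mem_ofPred_eq]; refine ⟨⟨?_, ?_⟩, ⟨?_, ?_⟩, ⟨?_, ?_⟩⟩ <;> linarith) (by simp only [kWpp, kWpm, kWmp, kWmm, kT, kBo, kBa, kFr, kU1, kU2, kU3, kU4, kV1, kV2, kV3, kTe, kBae, kBoe, kFe, kLf, B6.S, Set.mem_ofPred_eq]; refine ⟨⟨?_, ?_⟩, ⟨?_, ?_⟩, ⟨?_, ?_⟩⟩ <;> linarith)).congr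
      (by group)
  have hLfBoe : Rl Lf Boe B :=
    (Rl.tri (-2 * r - 16, r + 8, -(r + 8)) hLfBae hBaeBoe (by simp only [kWpp, kWpm, kWmp, kWmm, kT, kBo, kBa, kFr, kU1, kU2, kU3, kU4, kV1, kV2, kV3, kTe, kBae, kBoe, kFe, kLf, B6.S, Set.mem_ofPred_eq]; refine ⟨⟨?_, ?_⟩, ⟨?_, ?_⟩, ⟨?_, ?_⟩⟩ <;> linarith) (by simp only [kWpp, kWpm, kWmp, kWmm, kT, kBo, kBa, kFr, kU1, kU2, kU3, kU4, kV1, kV2, kV3, kTe, kBae, kBoe, kFe, kLf, B6.S, Set.mem_ofPred_eq]; refine ⟨⟨?_, ?_⟩, ⟨?_, ?_⟩, ⟨?_, ?_⟩⟩ <;> linarith) (by simp only [kWpp, kWpm, kWmp, kWmm, kT, kBo, kBa, kFr, kU1, kU2, kU3, kU4, kV1, kV2, kV3, kTe, kBae, kBoe, kFe, kLf, B6.S, Set.mem_ofPred_eq]; refine ⟨⟨?_, ?_⟩, ⟨?_, ?_⟩, ⟨?_, ?_⟩⟩ <;> linarith)).congr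
      (by group)
  have hLfFe : Rl Lf Fe (B * (A⁻¹ * (B * A))⁻¹) :=
    Rl.tri (-2 * r - 16, -(r + 8), -(r + 8)) hLfBoe hBoeFe (by simp only [kWpp, kWpm, kWmp, kWmm, kT, kBo, kBa, kFr, kU1, kU2, kU3, kU4, kV1, kV2, kV3, kTe, kBae, kBoe, kFe, kLf, B6.S, Set.mem_ofPred_eq]; refine ⟨⟨?_, ?_⟩, ⟨?_, ?_⟩, ⟨?_, ?_⟩⟩ <;> linarith) (by simp only [kWpp, kWpm, kWmp, kWmm, kT, kBo, kBa, kFr, kU1, kU2, kU3, kU4, kV1, kV2, kV3, kTe, kBae, kBoe, kFe, kLf, B6.S, Set.mem_ofPred_eq]; refine ⟨⟨?_, ?_⟩, ⟨?_, ?_⟩, ⟨?_, ?_⟩⟩ <;> linarith) (by simp only [kWpp, kWpm, kWmp, kWmm, kT, kBo, kBa, kFr, kU1, kU2, kU3, kU4, kV1, kV2, kV3, kTe, kBae, kBoe, kFe, kLf, B6.S, Set.mem_ofPred_eq]; refine ⟨⟨?_, ?_⟩, ⟨?_, ?_⟩, ⟨?_, ?_⟩⟩ <;> linarith)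
  have hLfTe : Rl Lf Te (B * (A⁻¹ * (B * A))⁻¹ * 1) :=
    Rl.tri (-2 * r - 16, -(r + 8), r + 8) hLfFe hFeTe (by simp only [kWpp, kWpm, kWmp, kWmm, kT, kBo, kBa, kFr, kU1, kU2, kU3, kU4, kV1, kV2, kV3, kTe, kBae, kBoe, kFe, kLf, B6.S, Set.mem_ofPred_eq]; refine ⟨⟨?_, ?_⟩, ⟨?_, ?_⟩, ⟨?_, ?_⟩⟩ <;> linarith) (by simp only [kWpp, kWpm, kWmp, kWmm, kT, kBo, kBa, kFr, kU1, kU2, kU3, kU4, kV1, kV2, kV3, kTe, kBae, kBoe, kFe, kLf, B6.S, Set.mem_ofPred_eq]; refine ⟨⟨?_, ?_⟩, ⟨?_, ?_⟩, ⟨?_, ?_⟩⟩ <;> linarith) (by simp only [kWpp, kWpm, kWmp, kWmm, kT, kBo, kBa, kFr, kU1, kU2, kU3, kU4, kV1, kV2, kV3, kTe, kBae, kBoe, kFe, kLf, B6.S, Set.mem_ofPred_eq]; refine ⟨⟨?_, ?_⟩, ⟨?_, ?_⟩, ⟨?_, ?_⟩⟩ <;> linarith)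
  have hfin : B * (A⁻¹ * (B * A))⁻¹ * 1 = 1⁻¹ :=
    Rl.eq (-2 * r - 16, 0, r + 8) hLfTe hTeLf.symm (by simp only [kWpp, kWpm, kWmp, kWmm, kT, kBo, kBa, kFr, kU1, kU2, kU3, kU4, kV1, kV2, kV3, kTe, kBae, kBoe, kFe, kLf, B6.S, Set.mem_ofPred_eq]; refine ⟨⟨?_, ?_⟩, ⟨?_, ?_⟩, ⟨?_, ?_⟩⟩ <;> linarith) (by simp only [kWpp, kWpm, kWmp, kWmm, kT, kBo, kBa, kFr, kU1, kU2, kU3, kU4, kV1, kV2, kV3, kTe, kBae, kBoe, kFe, kLf, B6.S, Set.mem_ofPred_eq]; refine ⟨⟨?_, ?_⟩, ⟨?_, ?_⟩, ⟨?_, ?_⟩⟩ <;> linarith)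
  have hAB : A * B = B * A := by
    have h1 : B = A⁻¹ * (B * A) := by
      rw [mul_one, inv_one] at hfin
      exact mul_inv_eq_one.1 hfin
    calc A * B = A * (A⁻¹ * (B * A)) := by rw [← h1]
      _ = B * A := by group
  exact ⟨A, B, Wpp, Wpm, Wmp, T, Ba, U1, V1, hAB, hWppT, hTWmp, hWppU1, hU1Wmp, hWppBa, hBaWpm,
    hWppV1, hV1Wpm⟩

end Pool.Agent.H88.Nest
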