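import Mathlib

/-!
In `G ≀ G`, no conjugate of a nontrivial element of the first base coordinate commutes with a
nontrivial element of the top group.
-/

set_option autoImplicit false

namespace Pool.Agent.H88.Nest

/-- The embedding of `G` in the base coordinate at `1`. -/
noncomputable def inB (G : Type) [Group G] : G →* RegularWreathProduct G G := by
  classical
  exact
  { toFun := fun g => ⟨Pi.mulSingle 1 g, 1⟩
    map_one' := by ext <;> simp
    map_mul' := fun a b => by
      ext x
      · by_cases hx : x = 1
        · subst hx; simp
        · simp [Pi.mulSingle_eq_of_ne hx]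
      · simp }

/-- The embedding of `G` as the top group. -/
def inA (G : Type) [Group G] : G →* RegularWreathProduct G G := RegularWreathProduct.inl

lemma inB_left_one {G : Type} [Group G] (g : G) : (inB G g).left 1 = g := by
  simp [inB]

lemma inB_left_ne {G : Type} [Group G] (g : G) {x : G} (hx : x ≠ 1) : (inB G g).left x = 1 := by
  classical
  exact Pi.mulSingle_eq_of_ne hx _

lemma inB_right {G : Type} [Group G] (g : G) : (inB G g).right = 1 := by
  simp [inB]

lemma conj_left {G : Type} [Group G] (c : RegularWreathProduct G G) (g x : G) :
    (c * inB G g * c⁻¹).left x = c.left x * (inB G g).left (c.right⁻¹ * x) * (c.left x)⁻¹ := by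
  simp [inB_right, mul_assoc]

theorem not_commute_wreath {G : Type} [Group G] {m n : G} (hm : m ≠ 1) (hn : n ≠ 1)
    (c : RegularWreathProduct G G) : ¬ Commute (inA G m) (c * inB G n * c⁻¹) := by
  intro h
  have h1 := congrArg (fun w : RegularWreathProduct G G => w.left (m * c.right)) h.eq
  simp only [RegularWreathProduct.mul_left, Pi.mul_apply] at h1
  have e1 : (inA G m).left (m * c.right) = 1 := rfl
  have e2 : (inA G m).right = m := rfl
  have e3 : ∀ x, (inA G m).left x = 1 := fun x => rfl
  rw [e1, e2, e3, mul_one, one_mul, inv_mul_cancel_left] at h1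
  have h2 : (c * inB G n * c⁻¹).left c.right = (c * inB G n * c⁻¹).left (m * c.right) := by
    simpa [RegularWreathProduct.mul_left] using h1
  rw [conj_left, conj_left, inv_mul_cancel, inB_left_one] at h2
  have h3 : c.right⁻¹ * (m * c.right) ≠ 1 := by
    intro h4
    apply hm
    have : m = c.right * (c.right⁻¹ * (m * c.right)) * c.right⁻¹ := by group
    rw [this, h4]; group
  rw [inB_left_ne _ h3] at h2
  apply hn
  have h5 : c.left c.right * n * (c.left c.right)⁻¹ = 1 := by
    rw [h2]; group
  have : n = (c.left c.right)⁻¹ * (c.left c.right * n * (c.left c.right)⁻¹) * c.left c.right := by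
    group
  rw [this, h5]; group

end Pool.Agent.H88.Nest
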