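import Pool.Agent.H88.Nest.Cut
import Pool.Agent.H88.Nest.Rel
import Pool.Agent.H88.Nest.Wreath

/-!
The certificate: a flat structure with nontrivial holonomy along the two meridians excludes
a separating embedded sphere.
-/

set_option autoImplicit false
set_option linter.unusedSimpArgs false

namespace Pool.Agent.H88.Nest

open Topology Filter Set

/-- First coordinate of the square loop. -/
noncomputable def sqY (t : ℝ) : ℝ := max (-1) (min 1 (max (min t (4 - t)) (t - 8)))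

/-- Second coordinate of the square loop. -/
noncomputable def sqZ (t : ℝ) : ℝ := max (-1) (min 1 (min (t - 2) (6 - t)))

lemma continuous_sqY : Continuous sqY := by unfold sqY; fun_prop
lemma continuous_sqZ : Continuous sqZ := by unfold sqZ; fun_prop

lemma sqY_mem (t : ℝ) : -1 ≤ sqY t ∧ sqY t ≤ 1 :=
  ⟨le_max_left _ _, max_le (by norm_num) (min_le_left _ _)⟩

lemma sqZ_mem (t : ℝ) : -1 ≤ sqZ t ∧ sqZ t ≤ 1 :=
  ⟨le_max_left _ _, max_le (by norm_num) (min_le_left _ _)⟩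

lemma sqY_zero : sqY 0 = 0 := by
  norm_num [sqY]
lemma sqY_eight : sqY 8 = 0 := by
  norm_num [sqY]
lemma sqZ_zero : sqZ 0 = -1 := by
  norm_num [sqZ]
lemma sqZ_eight : sqZ 8 = -1 := by
  norm_num [sqZ]

lemma sqY_one {t : ℝ} (h1 : 1 ≤ t) (h3 : t ≤ 3) : sqY t = 1 := by
  have h : 1 ≤ max (min t (4 - t)) (t - 8) := le_max_of_le_left (le_min h1 (by linarith))
  rw [sqY, min_eq_left h]; norm_num

lemma sqY_neg {t : ℝ} (h1 : 5 ≤ t) (h3 : t ≤ 7) : sqY t = -1 := by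
  have h : max (min t (4 - t)) (t - 8) ≤ -1 := by
    apply max_le _ (by linarith)
    exact (min_le_right _ _).trans (by linarith)
  rw [sqY]
  apply max_eq_left
  exact (min_le_right _ _).trans h

lemma sqZ_one {t : ℝ} (h1 : 3 ≤ t) (h3 : t ≤ 5) : sqZ t = 1 := by
  have h : 1 ≤ min (t - 2) (6 - t) := le_min (by linarith) (by linarith)
  rw [sqZ, min_eq_left h]; norm_num

lemma sqZ_neg {t : ℝ} (h1 : t ≤ 1 ∨ 7 ≤ t) : sqZ t = -1 := by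
  have h : min (t - 2) (6 - t) ≤ -1 := by
    rcases h1 with h1 | h1
    · exact (min_le_left _ _).trans (by linarith)
    · exact (min_le_right _ _).trans (by linarith)
  rw [sqZ]
  apply max_eq_left
  exact (min_le_right _ _).trans h

/-- The meridian of the left handle. -/
noncomputable def alp (ρ t : ℝ) : V3 := (0, ρ * sqY t, 7 + ρ * sqZ t)

/-- The meridian of the right handle. -/
noncomputable def bet (ρ t : ℝ) : V3 := (0, 7 + ρ * sqZ t, ρ * sqY t)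

lemma continuous_alp : Continuous (fun p : ℝ × ℝ => alp p.1 p.2) := by
  unfold alp
  have := continuous_sqY
  have := continuous_sqZ
  fun_prop

lemma continuous_bet : Continuous (fun p : ℝ × ℝ => bet p.1 p.2) := by
  unfold bet
  have := continuous_sqY
  have := continuous_sqZ
  fun_prop

lemma alp_eight (ρ : ℝ) : alp ρ 8 = alp ρ 0 := by simp [alp, sqY_zero, sqY_eight, sqZ_zero, sqZ_eight]
lemma bet_eight (ρ : ℝ) : bet ρ 8 = bet ρ 0 := by simp [bet, sqY_zero, sqY_eight, sqZ_zero, sqZ_eight]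

section transport

variable {W : Type} [Group W] {L : LS W V3}

lemma LS.Par.transport {γ : ℝ → V3} {s : ℝ → W} (h : L.Par γ s) (hγ : Continuous γ) {k : B6}
    (P : PO L k) {t₁ t₂ : ℝ} (ht : t₁ ≤ t₂) (hm : ∀ t ∈ Icc t₁ t₂, γ t ∈ k.S) :
    s t₁ * (P.ψ (γ t₁))⁻¹ = s t₂ * (P.ψ (γ t₂))⁻¹ := by
  refine const_of_eventually (S := Icc t₁ t₂) isPreconnected_Icc
    (r := fun t => s t * (P.ψ (γ t))⁻¹) ?_ (left_mem_Icc.2 ht) (right_mem_Icc.2 ht)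
  intro t ht
  obtain ⟨i, hi⟩ := L.mem_dom.1 (P.dom (hm t ht))
  filter_upwards [h t i hi, hγ.continuousAt.eventually (P.par (γ t) (hm t ht) i hi)] with u hu hu'
  have e1 : s u * (P.ψ (γ u))⁻¹ = (s u * (L.φ i (γ u))⁻¹) * (P.ψ (γ u) * (L.φ i (γ u))⁻¹)⁻¹ := by
    group
  have e2 : s t * (P.ψ (γ t))⁻¹ = (s t * (L.φ i (γ t))⁻¹) * (P.ψ (γ t) * (L.φ i (γ t))⁻¹)⁻¹ := by
    group
  rw [e1, e2, hu, hu']

/-- If `s` is `c * P.ψ` at the start, it is at the end. -/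
lemma LS.Par.transport' {γ : ℝ → V3} {s : ℝ → W} (h : L.Par γ s) (hγ : Continuous γ) {k : B6}
    (P : PO L k) {t₁ t₂ : ℝ} (ht : t₁ ≤ t₂) (hm : ∀ t ∈ Icc t₁ t₂, γ t ∈ k.S) {c : W}
    (h1 : s t₁ = c * P.ψ (γ t₁)) : s t₂ = c * P.ψ (γ t₂) := by
  have := h.transport hγ P ht hm
  rw [h1, mul_inv_cancel_right] at this
  rw [this, inv_mul_cancel_right]

lemma hol_alp {r : ℝ} (hr : 8 ≤ r) {A : W} {Wpp : PO L (kWpp r)} {Wmp : PO L (kWmp r)}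
    {T : PO L (kT r)} {U1 : PO L (kU1 r)} (h1 : Rl Wpp T 1) (h2 : Rl T Wmp 1)
    (h3 : Rl Wpp U1 1) (h4 : Rl U1 Wmp A) {s : ℝ → W} (hs : L.Par (alp (3 / 2)) s) :
    ∃ c : W, s 8 * (s 0)⁻¹ = c * A⁻¹ * c⁻¹ := by
  have hγ : Continuous (alp (3 / 2)) := continuous_alp.comp (by fun_prop : Continuous (fun t : ℝ => ((3 / 2 : ℝ), t)))
  set c : W := s 0 * (U1.ψ (alp (3 / 2) 0))⁻¹ with hc
  have e0 : s 0 = c * U1.ψ (alp (3 / 2) 0) := by rw [hc, inv_mul_cancel_right]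
  have m01 : ∀ t ∈ Icc (0 : ℝ) 1, alp (3 / 2) t ∈ (kU1 r).S := by
    intro t ht
    have h := sqY_mem t
    simp only [alp, sqZ_neg (Or.inl ht.2)]
    simp only [kWpp, kWpm, kWmp, kWmm, kT, kBo, kBa, kFr, kU1, kU2, kU3, kU4, kV1, kV2, kV3, kTe,
      kBae, kBoe, kFe, kLf, B6.S, Set.mem_ofPred_eq]
    refine ⟨⟨?_, ?_⟩, ⟨?_, ?_⟩, ⟨?_, ?_⟩⟩ <;> linarith
  have e1 := hs.transport' hγ U1 zero_le_one m01 e0
  have m13 : ∀ t ∈ Icc (1 : ℝ) 3, alp (3 / 2) t ∈ (kWpp r).S := by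
    intro t ht
    have h := sqZ_mem t
    simp only [alp, sqY_one ht.1 ht.2]
    simp only [kWpp, kWpm, kWmp, kWmm, kT, kBo, kBa, kFr, kU1, kU2, kU3, kU4, kV1, kV2, kV3, kTe,
      kBae, kBoe, kFe, kLf, B6.S, Set.mem_ofPred_eq]
    refine ⟨⟨?_, ?_⟩, ⟨?_, ?_⟩, ⟨?_, ?_⟩⟩ <;> linarith
  have e1' : s 1 = c * Wpp.ψ (alp (3 / 2) 1) := by
    rw [h3 _ (m13 1 (by norm_num)) (m01 1 (by norm_num)), one_mul]; exact e1
  have e3 := hs.transport' hγ Wpp (by norm_num : (1 : ℝ) ≤ 3) m13 e1'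
  have m35 : ∀ t ∈ Icc (3 : ℝ) 5, alp (3 / 2) t ∈ (kT r).S := by
    intro t ht
    have h := sqY_mem t
    simp only [alp, sqZ_one ht.1 ht.2]
    simp only [kWpp, kWpm, kWmp, kWmm, kT, kBo, kBa, kFr, kU1, kU2, kU3, kU4, kV1, kV2, kV3, kTe,
      kBae, kBoe, kFe, kLf, B6.S, Set.mem_ofPred_eq]
    refine ⟨⟨?_, ?_⟩, ⟨?_, ?_⟩, ⟨?_, ?_⟩⟩ <;> linarith
  have e3' : s 3 = c * T.ψ (alp (3 / 2) 3) := by
    rw [e3, h1 _ (m13 3 (by norm_num)) (m35 3 (by norm_num)), one_mul]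
  have e5 := hs.transport' hγ T (by norm_num : (3 : ℝ) ≤ 5) m35 e3'
  have m57 : ∀ t ∈ Icc (5 : ℝ) 7, alp (3 / 2) t ∈ (kWmp r).S := by
    intro t ht
    have h := sqZ_mem t
    simp only [alp, sqY_neg ht.1 ht.2]
    simp only [kWpp, kWpm, kWmp, kWmm, kT, kBo, kBa, kFr, kU1, kU2, kU3, kU4, kV1, kV2, kV3, kTe,
      kBae, kBoe, kFe, kLf, B6.S, Set.mem_ofPred_eq]
    refine ⟨⟨?_, ?_⟩, ⟨?_, ?_⟩, ⟨?_, ?_⟩⟩ <;> linarith
  have e5' : s 5 = c * Wmp.ψ (alp (3 / 2) 5) := by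
    rw [e5, h2 _ (m35 5 (by norm_num)) (m57 5 (by norm_num)), one_mul]
  have e7 := hs.transport' hγ Wmp (by norm_num : (5 : ℝ) ≤ 7) m57 e5'
  have m78 : ∀ t ∈ Icc (7 : ℝ) 8, alp (3 / 2) t ∈ (kU1 r).S := by
    intro t ht
    have h := sqY_mem t
    simp only [alp, sqZ_neg (Or.inr ht.1)]
    simp only [kWpp, kWpm, kWmp, kWmm, kT, kBo, kBa, kFr, kU1, kU2, kU3, kU4, kV1, kV2, kV3, kTe,
      kBae, kBoe, kFe, kLf, B6.S, Set.mem_ofPred_eq]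
    refine ⟨⟨?_, ?_⟩, ⟨?_, ?_⟩, ⟨?_, ?_⟩⟩ <;> linarith
  have e7' : s 7 = (c * A⁻¹) * U1.ψ (alp (3 / 2) 7) := by
    rw [e7, h4 _ (m78 7 (by norm_num)) (m57 7 (by norm_num))]; group
  have e8 := hs.transport' hγ U1 (by norm_num : (7 : ℝ) ≤ 8) m78 e7'
  refine ⟨c, ?_⟩
  rw [e8, e0, alp_eight]; group

lemma hol_bet {r : ℝ} (hr : 8 ≤ r) {B : W} {Wpp : PO L (kWpp r)} {Wpm : PO L (kWpm r)}
    {Ba : PO L (kBa r)} {V1 : PO L (kV1 r)} (h1 : Rl Wpp Ba 1) (h2 : Rl Ba Wpm B)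
    (h3 : Rl Wpp V1 1) (h4 : Rl V1 Wpm 1) {s : ℝ → W} (hs : L.Par (bet (3 / 2)) s) :
    ∃ c : W, s 8 * (s 0)⁻¹ = c * B * c⁻¹ := by
  have hγ : Continuous (bet (3 / 2)) := continuous_bet.comp (by fun_prop : Continuous (fun t : ℝ => ((3 / 2 : ℝ), t)))
  set c : W := s 0 * (V1.ψ (bet (3 / 2) 0))⁻¹ with hc
  have e0 : s 0 = c * V1.ψ (bet (3 / 2) 0) := by rw [hc, inv_mul_cancel_right]
  have m01 : ∀ t ∈ Icc (0 : ℝ) 1, bet (3 / 2) t ∈ (kV1 r).S := by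
    intro t ht
    have h := sqY_mem t
    simp only [bet, sqZ_neg (Or.inl ht.2)]
    simp only [kWpp, kWpm, kWmp, kWmm, kT, kBo, kBa, kFr, kU1, kU2, kU3, kU4, kV1, kV2, kV3, kTe,
      kBae, kBoe, kFe, kLf, B6.S, Set.mem_ofPred_eq]
    refine ⟨⟨?_, ?_⟩, ⟨?_, ?_⟩, ⟨?_, ?_⟩⟩ <;> linarith
  have e1 := hs.transport' hγ V1 zero_le_one m01 e0
  have m13 : ∀ t ∈ Icc (1 : ℝ) 3, bet (3 / 2) t ∈ (kWpp r).S := by
    intro t ht
    have h := sqZ_mem t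
    simp only [bet, sqY_one ht.1 ht.2]
    simp only [kWpp, kWpm, kWmp, kWmm, kT, kBo, kBa, kFr, kU1, kU2, kU3, kU4, kV1, kV2, kV3, kTe,
      kBae, kBoe, kFe, kLf, B6.S, Set.mem_ofPred_eq]
    refine ⟨⟨?_, ?_⟩, ⟨?_, ?_⟩, ⟨?_, ?_⟩⟩ <;> linarith
  have e1' : s 1 = c * Wpp.ψ (bet (3 / 2) 1) := by
    rw [h3 _ (m13 1 (by norm_num)) (m01 1 (by norm_num)), one_mul]; exact e1
  have e3 := hs.transport' hγ Wpp (by norm_num : (1 : ℝ) ≤ 3) m13 e1'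
  have m35 : ∀ t ∈ Icc (3 : ℝ) 5, bet (3 / 2) t ∈ (kBa r).S := by
    intro t ht
    have h := sqY_mem t
    simp only [bet, sqZ_one ht.1 ht.2]
    simp only [kWpp, kWpm, kWmp, kWmm, kT, kBo, kBa, kFr, kU1, kU2, kU3, kU4, kV1, kV2, kV3, kTe,
      kBae, kBoe, kFe, kLf, B6.S, Set.mem_ofPred_eq]
    refine ⟨⟨?_, ?_⟩, ⟨?_, ?_⟩, ⟨?_, ?_⟩⟩ <;> linarith
  have e3' : s 3 = c * Ba.ψ (bet (3 / 2) 3) := by
    rw [e3, h1 _ (m13 3 (by norm_num)) (m35 3 (by norm_num)), one_mul]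
  have e5 := hs.transport' hγ Ba (by norm_num : (3 : ℝ) ≤ 5) m35 e3'
  have m57 : ∀ t ∈ Icc (5 : ℝ) 7, bet (3 / 2) t ∈ (kWpm r).S := by
    intro t ht
    have h := sqZ_mem t
    simp only [bet, sqY_neg ht.1 ht.2]
    simp only [kWpp, kWpm, kWmp, kWmm, kT, kBo, kBa, kFr, kU1, kU2, kU3, kU4, kV1, kV2, kV3, kTe,
      kBae, kBoe, kFe, kLf, B6.S, Set.mem_ofPred_eq]
    refine ⟨⟨?_, ?_⟩, ⟨?_, ?_⟩, ⟨?_, ?_⟩⟩ <;> linarith
  have e5' : s 5 = (c * B) * Wpm.ψ (bet (3 / 2) 5) := by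
    rw [e5, h2 _ (m35 5 (by norm_num)) (m57 5 (by norm_num))]
    exact (mul_assoc _ _ _).symm
  have e7 := hs.transport' hγ Wpm (by norm_num : (5 : ℝ) ≤ 7) m57 e5'
  have m78 : ∀ t ∈ Icc (7 : ℝ) 8, bet (3 / 2) t ∈ (kV1 r).S := by
    intro t ht
    have h := sqY_mem t
    simp only [bet, sqZ_neg (Or.inr ht.1)]
    simp only [kWpp, kWpm, kWmp, kWmm, kT, kBo, kBa, kFr, kU1, kU2, kU3, kU4, kV1, kV2, kV3, kTe,
      kBae, kBoe, kFe, kLf, B6.S, Set.mem_ofPred_eq]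
    refine ⟨⟨?_, ?_⟩, ⟨?_, ?_⟩, ⟨?_, ?_⟩⟩ <;> linarith
  have e7' : s 7 = (c * B) * V1.ψ (bet (3 / 2) 7) := by
    rw [e7, h4 _ (m78 7 (by norm_num)) (m57 7 (by norm_num)), one_mul]
  have e8 := hs.transport' hγ V1 (by norm_num : (7 : ℝ) ≤ 8) m78 e7'
  refine ⟨c, ?_⟩
  rw [e8, e0, bet_eight]; group

/-- Free homotopy invariance of the holonomy. -/
lemma hol_annulus (H : ℝ → ℝ → V3) (hH : Continuous (fun p : ℝ × ℝ => H p.1 p.2))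
    (hper : ∀ u, H u 8 = H u 0) {u₀ u₁ : ℝ} (hu : u₀ ≤ u₁)
    (hd : ∀ u ∈ Icc u₀ u₁, ∀ t, H u t ∈ L.dom) {s : ℝ → W} (hs : L.Par (H u₀) s) :
    ∃ (s' : ℝ → W) (c : W), L.Par (H u₁) s' ∧ s' 8 * (s' 0)⁻¹ = c * (s 8 * (s 0)⁻¹) * c⁻¹ := by
  let F : ℝ × ℝ → V3 := fun p => H (max u₀ (min u₁ p.1)) p.2
  have hF : Continuous F := by
    have h1 : Continuous (fun p : ℝ × ℝ => ((max u₀ (min u₁ p.1) : ℝ), p.2)) := by fun_prop
    exact hH.comp h1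
  have hcl : ∀ u, max u₀ (min u₁ u) ∈ Icc u₀ u₁ := fun u =>
    ⟨le_max_left _ _, max_le hu (min_le_left _ _)⟩
  have hFd : ∀ p, F p ∈ L.dom := fun p => hd _ (hcl p.1) _
  obtain ⟨σ, hσ, -⟩ := L.exists_par F hF hFd (0, 0) 1
  have hrow : ∀ u ∈ Icc u₀ u₁, L.Par (H u) (fun t => σ (u, t)) := by
    intro u hu'
    have h1 := hσ.comp (f := fun t : ℝ => (u, t)) (by fun_prop)
    have h2 : F ∘ (fun t : ℝ => (u, t)) = H u := by
      funext t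
      show H (max u₀ (min u₁ u)) t = H u t
      rw [min_eq_right hu'.2, max_eq_right hu'.1]
    rw [h2] at h1
    exact h1
  have hc0 := hσ.comp (f := fun u : ℝ => (u, (0 : ℝ))) (by fun_prop)
  have hc8 := hσ.comp (f := fun u : ℝ => (u, (8 : ℝ))) (by fun_prop)
  have h08 : F ∘ (fun u : ℝ => (u, (8 : ℝ))) = F ∘ (fun u : ℝ => (u, (0 : ℝ))) := by
    funext u
    exact hper _
  rw [h08] at hc8
  have hconst := hc8.unique hc0 (fun t => hFd _) u₀ u₁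
  have h0 := hrow u₀ (left_mem_Icc.2 hu)
  have hcmp := h0.unique hs (fun t => hd u₀ (left_mem_Icc.2 hu) t) 0 8
  refine ⟨fun t => σ (u₁, t), σ (u₀, 0) * (s 0)⁻¹, hrow u₁ (right_mem_Icc.2 hu), ?_⟩
  simp only [Function.comp] at hconst
  show σ (u₁, 8) * (σ (u₁, 0))⁻¹ = _
  rw [← hconst]
  have h8 : σ (u₀, 8) = σ (u₀, 0) * (s 0)⁻¹ * s 8 := by
    have : σ (u₀, 8) = (σ (u₀, 8) * (s 8)⁻¹) * s 8 := by group
    rw [this, ← hcmp]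
  rw [h8]; group

end transport

/-- **The certificate.** -/
theorem cert {G : Type} [Group G] (P : LS G V3) {r : ℝ} (hr : 8 ≤ r)
    (hboxes : ∀ k ∈ boxes r, k.S ⊆ P.dom) {f : Sph → V3} (hf : Continuous f)
    (hinj : Function.Injective f) (hfd : ∀ t, f t ∈ P.dom) {A B : Set V3} (hA : IsOpen A)
    (hB : IsOpen B) (hAB : Disjoint A B) (hcompl : (range f)ᶜ ⊆ A ∪ B) {ρ : ℝ} (hρ : ρ ≤ 3 / 2)
    (hα : ∀ u ∈ Icc ρ (3 / 2), ∀ t, alp u t ∈ P.dom)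
    (hβ : ∀ u ∈ Icc ρ (3 / 2), ∀ t, bet u t ∈ P.dom)
    (hαA : ∀ t, alp ρ t ∈ A) (hβB : ∀ t, bet ρ t ∈ B) {s s' : ℝ → G}
    (hs : P.Par (alp ρ) s) (hs' : P.Par (bet ρ) s') (hne : s 8 * (s 0)⁻¹ ≠ 1)
    (hne' : s' 8 * (s' 0)⁻¹ ≠ 1) : False := by
  obtain ⟨L, hPL, hLA, hLB⟩ := P.cut_paste hf hinj hfd hA hB hAB hcompl (inA G) (inB G)
  have hca : Continuous (alp ρ) :=
    continuous_alp.comp (by fun_prop : Continuous (fun t : ℝ => (ρ, t)))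
  have hcb : Continuous (bet ρ) :=
    continuous_bet.comp (by fun_prop : Continuous (fun t : ℝ => (ρ, t)))
  have hsL := hLA ℝ (alp ρ) s hca hαA (fun t => hα ρ (left_mem_Icc.2 hρ) t) hs
  have hsL' := hLB ℝ (bet ρ) s' hcb hβB (fun t => hβ ρ (left_mem_Icc.2 hρ) t) hs'
  obtain ⟨X, Y, Wpp, Wpm, Wmp, T, Ba, U1, V1, hXY, r1, r2, r3, r4, r5, r6, r7, r8⟩ :=
    torus_relation L r hr (fun k hk => (hboxes k hk).trans hPL)
  obtain ⟨a, ca, ha, ha'⟩ := hol_annulus (L := L) alp continuous_alp alp_eight hρ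
    (fun u hu t => hPL (hα u hu t)) hsL
  obtain ⟨b, cb, hb, hb'⟩ := hol_annulus (L := L) bet continuous_bet bet_eight hρ
    (fun u hu t => hPL (hβ u hu t)) hsL'
  obtain ⟨da, hda⟩ := hol_alp hr r1 r2 r3 r4 ha
  obtain ⟨db, hdb⟩ := hol_bet hr r5 r6 r7 r8 hb
  rw [ha'] at hda
  rw [hb'] at hdb
  have e1 : inA G (s 8) * (inA G (s 0))⁻¹ = inA G (s 8 * (s 0)⁻¹) := by
    rw [map_mul, map_inv]
  have e2 : inB G (s' 8) * (inB G (s' 0))⁻¹ = inB G (s' 8 * (s' 0)⁻¹) := by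
    rw [map_mul, map_inv]
  rw [e1] at hda
  rw [e2] at hdb
  set m := s 8 * (s 0)⁻¹
  set n := s' 8 * (s' 0)⁻¹
  -- `X⁻¹` and `Y` commute
  have hcomm : Commute X⁻¹ Y := (show Commute X Y from hXY).inv_left
  have hX : X⁻¹ = (da⁻¹ * ca) * inA G m * (da⁻¹ * ca)⁻¹ := by
    have : X⁻¹ = da⁻¹ * (da * X⁻¹ * da⁻¹) * da := by group
    rw [this, ← hda]; group
  have hY : Y = (db⁻¹ * cb) * inB G n * (db⁻¹ * cb)⁻¹ := by
    have : Y = db⁻¹ * (db * Y * db⁻¹) * db := by group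
    rw [this, ← hdb]; group
  set g := da⁻¹ * ca
  set h := db⁻¹ * cb
  apply not_commute_wreath hne hne' (g⁻¹ * h)
  have hc2 : Commute (g⁻¹ * X⁻¹ * g) (g⁻¹ * Y * g) := by
    show g⁻¹ * X⁻¹ * g * (g⁻¹ * Y * g) = g⁻¹ * Y * g * (g⁻¹ * X⁻¹ * g)
    have : g⁻¹ * X⁻¹ * g * (g⁻¹ * Y * g) = g⁻¹ * (X⁻¹ * Y) * g := by group
    rw [this, hcomm.eq]; group
  have e3 : g⁻¹ * X⁻¹ * g = inA G m := by rw [hX]; group
  have e4 : g⁻¹ * Y * g = g⁻¹ * h * inB G n * (g⁻¹ * h)⁻¹ := by rw [hY]; group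
  rw [e3, e4] at hc2
  exact hc2

end Pool.Agent.H88.Nest
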