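import Pool.Agent.H88.Nest.Rel

/-!
Insides of compact sets, and the nesting lemma.
-/

set_option autoImplicit false

namespace Pool.Agent.H88.Nest

open Topology Filter Set

/-- The inside of a set. -/
def Ins (S : Set V3) : Set V3 := {x | x ∉ S ∧ Bornology.IsBounded (connectedComponentIn Sᶜ x)}

lemma Ins_of_conn {S C : Set V3} (hC : IsPreconnected C) (hd : Disjoint C S) {x : V3}
    (hx : x ∈ C) (hxS : x ∈ Ins S) : C ⊆ Ins S := by
  intro y hy
  have hCS : C ⊆ Sᶜ := fun z hz hz' => hd.le_bot ⟨hz, hz'⟩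
  refine ⟨hCS hy, ?_⟩
  have h1 : C ⊆ connectedComponentIn Sᶜ x := hC.subset_connectedComponentIn hx hCS
  rw [← connectedComponentIn_eq (h1 hy)]
  exact hxS.2

lemma not_Ins_of_unbdd {S C : Set V3} (hC : IsPreconnected C) (hd : Disjoint C S)
    (hu : ¬ Bornology.IsBounded C) {x : V3} (hx : x ∈ C) : x ∉ Ins S := fun h =>
  hu (h.2.subset (hC.subset_connectedComponentIn hx (fun z hz hz' => hd.le_bot ⟨hz, hz'⟩)))

lemma isOpen_Ins {S : Set V3} (hS : IsClosed S) : IsOpen (Ins S) := by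
  rw [isOpen_iff_mem_nhds]
  rintro x ⟨hx, hb⟩
  have h1 : IsOpen (connectedComponentIn Sᶜ x) := hS.isOpen_compl.connectedComponentIn
  filter_upwards [h1.mem_nhds (mem_connectedComponentIn hx)] with y hy
  refine ⟨connectedComponentIn_subset _ _ hy, ?_⟩
  rwa [← connectedComponentIn_eq hy]

lemma isOpen_Out {S : Set V3} (hS : IsClosed S) : IsOpen (S ∪ Ins S)ᶜ := by
  rw [isOpen_iff_mem_nhds]
  intro x hx
  have hxS : x ∉ S := fun h => hx (Or.inl h)
  have h1 : IsOpen (connectedComponentIn Sᶜ x) := hS.isOpen_compl.connectedComponentIn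
  filter_upwards [h1.mem_nhds (mem_connectedComponentIn hxS)] with y hy
  rintro (h | h)
  · exact connectedComponentIn_subset _ _ hy h
  · apply hx
    right
    refine ⟨hxS, ?_⟩
    rw [connectedComponentIn_eq hy]
    exact h.2

/-- Two compact sets cannot be inside each other. -/
lemma no_mutual {S T : Set V3} (hS : IsCompact S) (hT : IsCompact T) (hSn : S.Nonempty)
    (hTn : T.Nonempty) (h1 : S ⊆ Ins T) (h2 : T ⊆ Ins S) : False := by
  have key : ∀ A B : Set V3, A ⊆ Ins B → ∀ x ∈ A, (∀ y ∈ B, ‖y‖ ≤ ‖x‖) → 0 < ‖x‖ → False := by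
    intro A B hAB x hx hmax hpos
    have hxB := hAB hx
    have hR : IsPreconnected ((fun t : ℝ => t • x) '' Ici 1) :=
      isPreconnected_Ici.image _ (by fun_prop)
    have hd : Disjoint ((fun t : ℝ => t • x) '' Ici 1) B := by
      rw [Set.disjoint_left]
      rintro _ ⟨t, ht, rfl⟩ hB
      have h3 := hmax _ hB
      have ht' : (1 : ℝ) ≤ t := ht
      simp only [norm_smul, Real.norm_eq_abs, abs_of_pos (zero_lt_one.trans_le ht')] at h3
      have h4 : t = 1 := by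
        apply le_antisymm _ ht'
        by_contra h
        have := mul_lt_mul_of_pos_right (not_le.1 h) hpos
        linarith
      rw [h4] at hB
      simp only [one_smul] at hB
      exact hxB.1 hB
    refine not_Ins_of_unbdd hR hd ?_ ⟨1, self_mem_Ici, one_smul _ _⟩ hxB
    intro hb
    obtain ⟨C, hC⟩ := hb.exists_norm_le
    have h3 := hC ((max 1 ((C + 1) / ‖x‖)) • x) ⟨_, mem_Ici.2 (le_max_left _ _), rfl⟩
    rw [norm_smul, Real.norm_eq_abs, abs_of_pos (zero_lt_one.trans_le (le_max_left _ _))] at h3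
    have h4 := mul_le_mul_of_nonneg_right (le_max_right 1 ((C + 1) / ‖x‖)) hpos.le
    rw [div_mul_cancel₀ _ hpos.ne'] at h4
    linarith
  obtain ⟨s, hs⟩ := hSn
  obtain ⟨t, ht⟩ := hTn
  obtain ⟨x, hx, hmax⟩ := (hS.union hT).exists_isMaxOn ⟨s, Or.inl hs⟩ continuous_norm.continuousOn
  have hmax' : ∀ y ∈ S ∪ T, ‖y‖ ≤ ‖x‖ := fun y hy => hmax hy
  have hpos : 0 < ‖x‖ := by
    by_contra h
    have hs0 : s = 0 := norm_le_zero_iff.1 ((hmax' s (Or.inl hs)).trans (not_lt.1 h))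
    have ht0 : t = 0 := norm_le_zero_iff.1 ((hmax' t (Or.inr ht)).trans (not_lt.1 h))
    exact (h1 hs).1 (by rw [hs0, ← ht0]; exact ht)
  rcases hx with hx | hx
  · exact key S T h1 x hx (fun y hy => hmax' y (Or.inr hy)) hpos
  · exact key T S h2 x hx (fun y hy => hmax' y (Or.inl hy)) hpos

lemma rank_V3 : 1 < Module.rank ℝ V3 := by
  have : Module.rank ℝ V3 = 1 + (1 + 1) := by simp [rank_prod']
  rw [this]
  norm_cast

/-- The outside of a cube is connected. -/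
lemma isPreconnected_cball {R : ℝ} (hR : 0 < R) : IsPreconnected (Metric.ball (0 : V3) R)ᶜ := by
  have h : (Metric.ball (0 : V3) R)ᶜ =
      (fun q : ℝ × V3 => q.1 • q.2) '' (Ici 1 ×ˢ Metric.sphere 0 R) := by
    ext p
    constructor
    · intro hp
      have hp' : R ≤ ‖p‖ := by simpa using hp
      have hpos : 0 < ‖p‖ := hR.trans_le hp'
      refine ⟨(‖p‖ / R, (R / ‖p‖) • p), ⟨?_, ?_⟩, ?_⟩
      · show 1 ≤ ‖p‖ / R
        rw [le_div_iff₀ hR]; linarith
      · rw [mem_sphere_zero_iff_norm, norm_smul, Real.norm_eq_abs, abs_of_pos (by positivity)]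
        field_simp
      · show (‖p‖ / R) • (R / ‖p‖) • p = p
        rw [smul_smul]
        have : ‖p‖ / R * (R / ‖p‖) = 1 := by field_simp
        rw [this, one_smul]
    · rintro ⟨⟨t, q⟩, ⟨ht, hq⟩, rfl⟩
      have ht' : (1 : ℝ) ≤ t := ht
      have hq' : ‖q‖ = R := by simpa using hq
      simp only [mem_compl_iff, Metric.mem_ball, dist_zero_right, not_lt, norm_smul,
        Real.norm_eq_abs, hq', abs_of_pos (zero_lt_one.trans_le ht')]
      nlinarith
  rw [h]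
  exact (isPreconnected_Ici.prod (isPreconnected_sphere rank_V3 0 R)).image _ (by fun_prop)

section nest

variable {Φ : V3 → V3}

lemma cover (hs : Function.Surjective Φ) (r : ℝ) (T : Set V3) :
    T ⊆ Φ '' Metric.closedBall 0 r ∪ Φ '' (Metric.ball 0 r)ᶜ := by
  intro x _
  obtain ⟨p, rfl⟩ := hs x
  rcases le_total ‖p‖ r with h | h
  · exact Or.inl ⟨p, by simpa using h, rfl⟩
  · exact Or.inr ⟨p, by simpa using h, rfl⟩

/-- A connected set avoiding the image of the sphere is on one side. -/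
lemma one_side (hs : Function.Surjective Φ) (hcl : IsClosedMap Φ) {r : ℝ}
    (ha : ∀ p q, ‖p‖ ≤ r → r ≤ ‖q‖ → Φ p = Φ q → ∃ w, ‖w‖ = r ∧ Φ w = Φ p)
    {T : Set V3} (hT : IsPreconnected T) (hd : Disjoint T (Φ '' Metric.sphere 0 r)) :
    Disjoint (Φ '' Metric.closedBall 0 r) T ∨ Disjoint (Φ '' (Metric.ball 0 r)ᶜ) T := by
  by_contra h
  rw [not_or, Set.not_disjoint_iff_nonempty_inter, Set.not_disjoint_iff_nonempty_inter] at h
  obtain ⟨h1, h2⟩ := h
  rw [inter_comm] at h1 h2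
  obtain ⟨x, hx, ⟨p, hp, hpx⟩, ⟨q, hq, hqx⟩⟩ := isPreconnected_closed_iff.1 hT _ _
    (hcl _ Metric.isClosed_closedBall) (hcl _ Metric.isOpen_ball.isClosed_compl)
    (cover hs r T) h1 h2
  obtain ⟨w, hw, hw'⟩ := ha p q (by simpa using hp) (by simpa using hq) (hpx.trans hqx.symm)
  exact Set.disjoint_left.1 hd hx ⟨w, by simpa using hw, hw'.trans hpx⟩

theorem nest (hc : Continuous Φ) (hs : Function.Surjective Φ) (hcl : IsClosedMap Φ) {r R : ℝ}
    (hr : 0 < r) (hrR : r < R) (hunb : ¬ Bornology.IsBounded (Φ '' (Metric.ball 0 R)ᶜ))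
    (ha : ∀ p q, ‖p‖ ≤ r → r ≤ ‖q‖ → Φ p = Φ q → ∃ w, ‖w‖ = r ∧ Φ w = Φ p)
    (ha' : ∀ p q, ‖p‖ ≤ R → R ≤ ‖q‖ → Φ p = Φ q → ∃ w, ‖w‖ = R ∧ Φ w = Φ p)
    {T : Set V3} (hT : IsCompact T) (hTc : IsPreconnected T) (hTn : T.Nonempty)
    (h1 : T ⊆ Ins (Φ '' Metric.sphere 0 R)) (h2 : Φ '' Metric.sphere 0 r ⊆ Ins T) :
    Φ '' Metric.closedBall 0 r ⊆ Ins T ∧ Φ '' (Metric.ball 0 R)ᶜ ⊆ (T ∪ Ins T)ᶜ := by
  have hR : 0 < R := hr.trans hrR
  -- a point of the small sphere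
  have hsp : ∀ ρ : ℝ, 0 < ρ → ∃ w : V3, ‖w‖ = ρ := fun ρ hρ => ⟨(ρ, 0, 0), by
    simp [Prod.norm_def, abs_of_pos hρ, hρ.le]⟩
  obtain ⟨w, hw⟩ := hsp r hr
  obtain ⟨W, hW⟩ := hsp R hR
  have hcK : ∀ ρ : ℝ, IsPreconnected (Φ '' Metric.closedBall 0 ρ) := fun ρ =>
    (convex_closedBall (0 : V3) ρ).isPreconnected.image _ hc.continuousOn
  have hcC : ∀ ρ : ℝ, 0 < ρ → IsPreconnected (Φ '' (Metric.ball 0 ρ)ᶜ) := fun ρ hρ =>
    (isPreconnected_cball hρ).image _ hc.continuousOn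
  have hd1 : Disjoint T (Φ '' Metric.sphere 0 r) :=
    Set.disjoint_left.2 fun x hx hx' => (h2 hx').1 hx
  have hd2 : Disjoint T (Φ '' Metric.sphere 0 R) :=
    Set.disjoint_left.2 fun x hx hx' => (h1 hx).1 hx'
  have hwT : Φ w ∈ Ins T := h2 ⟨w, by simpa using hw, rfl⟩
  constructor
  · rcases one_side hs hcl ha hTc hd1 with h | h
    · exact Ins_of_conn (hcK r) h ⟨w, by simp [hw], rfl⟩ hwT
    · exfalso
      refine not_Ins_of_unbdd (hcC r hr) h (fun hb => hunb (hb.subset ?_))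
        ⟨w, by simp [hw], rfl⟩ hwT
      apply image_mono
      exact compl_subset_compl.2 (Metric.ball_subset_ball hrR.le)
  · rcases one_side hs hcl ha' hTc hd2 with h | h
    · exfalso
      have h3 : Φ '' Metric.closedBall 0 R ⊆ Ins T :=
        Ins_of_conn (hcK R) h ⟨w, by simp [hw, hrR.le], rfl⟩ hwT
      have h4 : Φ '' Metric.sphere 0 R ⊆ Ins T :=
        (image_mono Metric.sphere_subset_closedBall).trans h3
      exact no_mutual hT ((isCompact_sphere (0 : V3) R).image hc) hTn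
        ⟨Φ W, W, by simpa using hW, rfl⟩ h1 h4
    · rintro _ ⟨p, hp, rfl⟩ (h3 | h3)
      · exact Set.disjoint_left.1 h ⟨p, hp, rfl⟩ h3
      · exact not_Ins_of_unbdd (hcC R hR) h hunb ⟨p, hp, rfl⟩ h3

theorem nested (hc : Continuous Φ) (hs : Function.Surjective Φ) (hcl : IsClosedMap Φ) {r R : ℝ}
    (ha' : ∀ p q, ‖p‖ ≤ R → R ≤ ‖q‖ → Φ p = Φ q → ∃ w, ‖w‖ = R ∧ Φ w = Φ p)
    (hb : ∀ p q, ‖p‖ = r → R ≤ ‖q‖ → Φ p ≠ Φ q) :
    Φ '' Metric.sphere 0 r ⊆ Ins (Φ '' Metric.sphere 0 R) := by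
  rintro _ ⟨p, hp, rfl⟩
  have hp' : ‖p‖ = r := by simpa using hp
  have hpS : Φ p ∉ Φ '' Metric.sphere 0 R := by
    rintro ⟨q, hq, hq'⟩
    have hq2 : ‖q‖ = R := by simpa using hq
    exact hb p q hp' hq2.ge hq'.symm
  have hpC : Φ p ∉ Φ '' (Metric.ball 0 R)ᶜ := by
    rintro ⟨q, hq, hq'⟩
    have hq2 : R ≤ ‖q‖ := by simpa using hq
    exact hb p q hp' hq2 hq'.symm
  refine ⟨hpS, ?_⟩
  have hcomp : IsPreconnected (connectedComponentIn (Φ '' Metric.sphere 0 R)ᶜ (Φ p)) :=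
    isPreconnected_connectedComponentIn
  have hself : Φ p ∈ connectedComponentIn (Φ '' Metric.sphere 0 R)ᶜ (Φ p) :=
    mem_connectedComponentIn hpS
  have hdd : Disjoint (connectedComponentIn (Φ '' Metric.sphere 0 R)ᶜ (Φ p))
      (Φ '' Metric.sphere 0 R) :=
    Set.disjoint_left.2 fun x hx hx' => connectedComponentIn_subset _ _ hx hx'
  rcases one_side hs hcl ha' hcomp hdd with h | h
  · exfalso
    rcases cover hs R {Φ p} (mem_singleton _) with h3 | h3
    · exact Set.disjoint_left.1 h h3 hself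
    · exact hpC h3
  · have hsub : connectedComponentIn (Φ '' Metric.sphere 0 R)ᶜ (Φ p) ⊆
        Φ '' Metric.closedBall 0 R := by
      intro x hx
      rcases cover hs R {x} (mem_singleton _) with h3 | h3
      · exact h3
      · exact (Set.disjoint_left.1 h h3 hx).elim
    exact (((isCompact_closedBall (0 : V3) R).image hc).isBounded).subset hsub

end nest

end Pool.Agent.H88.Nest
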