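import Pool.Agent.H88.Nest.Shell
import Pool.Agent.H88.Nest.Ins

/-!
The global configuration: two double horns.
-/

set_option autoImplicit false

namespace Pool.Agent.H88.Nest

open Topology Filter Set

/-- Coordinates of the outer box. -/
def uH : V3 ≃ₜ V3 where
  toFun p := (p.1 - 34, p.2)
  invFun p := (p.1 + 34, p.2)
  left_inv p := by simp
  right_inv p := by simp
  continuous_toFun := by fun_prop
  continuous_invFun := by fun_prop

/-- Coordinates of the inner box. -/
def vH : V3 ≃ₜ V3 where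
  toFun p := (-p.1 - 18, p.2)
  invFun p := (-p.1 - 18, p.2)
  left_inv p := by simp
  right_inv p := by simp
  continuous_toFun := by fun_prop
  continuous_invFun := by fun_prop

lemma uH_apply (p : V3) : uH p = (p.1 - 34, p.2) := rfl
lemma vH_apply (p : V3) : vH p = (-p.1 - 18, p.2) := rfl
lemma uH_symm (p : V3) : uH.symm p = (p.1 + 34, p.2) := rfl
lemma vH_symm (p : V3) : vH.symm p = (-p.1 - 18, p.2) := rfl

lemma uQ {p : V3} (h : uH p ∈ Qs) :
    24 ≤ p.1 ∧ p.1 ≤ 44 ∧ |p.2.1| ≤ 8 ∧ |p.2.2| ≤ 8 := by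
  obtain ⟨h1, h2, h3⟩ := h
  simp only [uH_apply] at h1 h2 h3
  rw [abs_le] at h1
  exact ⟨by linarith, by linarith, h2, h3⟩

lemma vQ {p : V3} (h : vH p ∈ Qs) :
    -28 ≤ p.1 ∧ p.1 ≤ -8 ∧ |p.2.1| ≤ 8 ∧ |p.2.2| ≤ 8 := by
  obtain ⟨h1, h2, h3⟩ := h
  simp only [vH_apply] at h1 h2 h3
  rw [abs_le] at h1
  exact ⟨by linarith, by linarith, h2, h3⟩

lemma uv_disj {p : V3} (h : uH p ∈ Qs) : vH p ∉ Qs := fun h' => by
  have h1 := (uQ h).1
  have h2 := (vQ h').2.1
  linarith

/-- The global map. -/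
noncomputable def Phi (p : V3) : V3 := uH.symm (Fm (uH (vH.symm (Fm (vH p)))))

lemma continuous_Phi : Continuous Phi :=
  uH.symm.continuous.comp (continuous_Fm.comp (uH.continuous.comp (vH.symm.continuous.comp
    (continuous_Fm.comp vH.continuous))))

lemma Phi_surjective : Function.Surjective Phi :=
  uH.symm.surjective.comp (Fm_surjective.comp (uH.surjective.comp (vH.symm.surjective.comp
    (Fm_surjective.comp vH.surjective))))

lemma Phi_isClosedMap : IsClosedMap Phi :=
  uH.symm.isClosedMap.comp (Fm_isClosedMap.comp (uH.isClosedMap.comp (vH.symm.isClosedMap.comp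
    (Fm_isClosedMap.comp vH.isClosedMap))))

lemma Phi_u {p : V3} (h : uH p ∈ Qs) : uH (Phi p) = Fm (uH p) := by
  unfold Phi
  rw [Fm_id (uv_disj h), vH.symm_apply_apply, uH.apply_symm_apply]

lemma Phi_v {p : V3} (h : vH p ∈ Qs) : vH (Phi p) = Fm (vH p) := by
  unfold Phi
  have h1 : vH (vH.symm (Fm (vH p))) ∈ Qs := by
    rw [vH.apply_symm_apply]; exact Fm_mem h
  have h2 : uH (vH.symm (Fm (vH p))) ∉ Qs := fun h' => uv_disj h' h1
  rw [Fm_id h2, uH.symm_apply_apply, vH.apply_symm_apply]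

lemma Phi_id {p : V3} (h : uH p ∉ Qs) (h' : vH p ∉ Qs) : Phi p = p := by
  unfold Phi
  rw [Fm_id h', vH.symm_apply_apply, Fm_id h, uH.symm_apply_apply]

lemma Phi_u_iff {p : V3} : uH (Phi p) ∈ Qs ↔ uH p ∈ Qs := by
  constructor
  · intro h
    by_contra h'
    by_cases h2 : vH p ∈ Qs
    · have h3 : vH (Phi p) ∈ Qs := by rw [Phi_v h2]; exact Fm_mem h2
      exact uv_disj h h3
    · rw [Phi_id h' h2] at h
      exact h' h
  · intro h
    rw [Phi_u h]; exact Fm_mem h

lemma Phi_v_iff {p : V3} : vH (Phi p) ∈ Qs ↔ vH p ∈ Qs := by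
  constructor
  · intro h
    by_contra h'
    by_cases h2 : uH p ∈ Qs
    · have h3 : uH (Phi p) ∈ Qs := by rw [Phi_u h2]; exact Fm_mem h2
      exact uv_disj h3 h
    · rw [Phi_id h2 h'] at h
      exact h' h
  · intro h
    rw [Phi_v h]; exact Fm_mem h

/-- The general principle. -/
lemma Phi_eq {p q : V3} (h : Phi p = Phi q)
    (hu : uH p ∈ Qs → uH q ∈ Qs → Fm (uH p) = Fm (uH q) → uH p = uH q)
    (hv : vH p ∈ Qs → vH q ∈ Qs → Fm (vH p) = Fm (vH q) → vH p = vH q) : p = q := by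
  by_cases h1 : uH p ∈ Qs
  · have h2 : uH q ∈ Qs := by rw [← Phi_u_iff, ← h, Phi_u_iff]; exact h1
    apply uH.injective
    apply hu h1 h2
    rw [← Phi_u h1, ← Phi_u h2, h]
  by_cases h1' : vH p ∈ Qs
  · have h2 : vH q ∈ Qs := by rw [← Phi_v_iff, ← h, Phi_v_iff]; exact h1'
    apply vH.injective
    apply hv h1' h2
    rw [← Phi_v h1', ← Phi_v h2, h]
  have h2 : uH q ∉ Qs := by rw [← Phi_u_iff, ← h, Phi_u_iff]; exact h1
  have h2' : vH q ∉ Qs := by rw [← Phi_v_iff, ← h, Phi_v_iff]; exact h1'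
  rwa [Phi_id h1 h1', Phi_id h2 h2'] at h

lemma norm_V3 (p : V3) : ‖p‖ = max |p.1| (max |p.2.1| |p.2.2|) := rfl

lemma norm_box {p : V3} {R : ℝ} (hR : 8 < R) (h2 : |p.2.1| ≤ 8) (h3 : |p.2.2| ≤ 8) :
    (‖p‖ ≤ R ↔ |p.1| ≤ R) ∧ (R ≤ ‖p‖ ↔ R ≤ |p.1|) := by
  have h4 : max |p.2.1| |p.2.2| ≤ 8 := max_le h2 h3
  rw [norm_V3]
  constructor
  · rw [max_le_iff]
    exact ⟨fun h => h.1, fun h => ⟨h, by linarith⟩⟩
  · rw [le_max_iff]
    constructor
    · rintro (h | h)
      · exact h
      · linarith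
    · exact Or.inl

/-- The three radii. -/
def Rad (R : ℝ) : Prop := R = 10 ∨ R = 26 ∨ R = 42

lemma Rad.gt {R : ℝ} (h : Rad R) : 8 < R := by
  rcases h with h | h | h <;> rw [h] <;> norm_num

lemma sep {R : ℝ} (hR : Rad R) : ∀ p q : V3, ‖p‖ ≤ R → R ≤ ‖q‖ → Phi p = Phi q →
    ∃ w, ‖w‖ = R ∧ Phi w = Phi p := by
  intro p q hp hq h
  by_contra hno
  have hp' : ‖p‖ ≠ R := fun h' => hno ⟨p, h', rfl⟩
  have hq' : ‖q‖ ≠ R := fun h' => hno ⟨q, h', h.symm⟩
  have hp2 : ‖p‖ < R := lt_of_le_of_ne hp hp'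
  have hq2 : R < ‖q‖ := lt_of_le_of_ne hq (Ne.symm hq')
  have hpq : p = q := by
    apply Phi_eq h
    · intro h1 h2 h3
      obtain ⟨a1, a2, a3, a4⟩ := uQ h1
      obtain ⟨b1, b2, b3, b4⟩ := uQ h2
      have n1 : |p.1| < R := by
        by_contra h'
        exact absurd ((norm_box hR.gt a3 a4).2.2 (not_lt.1 h')) (not_le.2 hp2)
      have n2 : R < |q.1| := by
        by_contra h'
        exact absurd ((norm_box hR.gt b3 b4).1.2 (not_lt.1 h')) (not_le.2 hq2)
      rw [abs_of_pos (by linarith)] at n1 n2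
      rcases hR with hR | hR | hR
      · linarith
      · have h8 : 8 < |(uH p).1| := by
          rw [uH_apply, lt_abs]; right; simp only; linarith
        exact (Fm_escape h8 h3.symm).symm
      · have h8 : 8 < |(uH q).1| := by
          rw [uH_apply, lt_abs]; left; simp only; linarith
        exact Fm_escape h8 h3
    · intro h1 h2 h3
      obtain ⟨a1, a2, a3, a4⟩ := vQ h1
      obtain ⟨b1, b2, b3, b4⟩ := vQ h2
      have n1 : |p.1| < R := by
        by_contra h'
        exact absurd ((norm_box hR.gt a3 a4).2.2 (not_lt.1 h')) (not_le.2 hp2)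
      have n2 : R < |q.1| := by
        by_contra h'
        exact absurd ((norm_box hR.gt b3 b4).1.2 (not_lt.1 h')) (not_le.2 hq2)
      rw [abs_of_neg (by linarith)] at n1 n2
      rcases hR with hR | hR | hR
      · have h8 : 8 < |(vH p).1| := by
          rw [vH_apply, lt_abs]; right; simp only; linarith
        exact (Fm_escape h8 h3.symm).symm
      · have h8 : 8 < |(vH q).1| := by
          rw [vH_apply, lt_abs]; left; simp only; linarith
        exact Fm_escape h8 h3
      · linarith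
  rw [hpq] at hp2
  linarith

lemma u8 {p : V3} (hn : p.1 ≤ 26 ∨ 42 ≤ p.1) : 8 ≤ |(uH p).1| := by
  rw [uH_apply, le_abs]
  rcases hn with h | h
  · right; simp only; linarith
  · left; simp only; linarith

lemma v8 {p : V3} (hn : -10 ≤ p.1 ∨ p.1 ≤ -26) : 8 ≤ |(vH p).1| := by
  rw [vH_apply, le_abs]
  rcases hn with h | h
  · right; simp only; linarith
  · left; simp only; linarith

lemma Phi_inj_sphere {R : ℝ} (hR : Rad R) {p q : V3} (hp : ‖p‖ = R) (hq : ‖q‖ = R)
    (h : Phi p = Phi q) : p = q := by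
  have hu : ∀ p : V3, ‖p‖ = R → uH p ∈ Qs → 8 ≤ |(uH p).1| := by
    intro p hp h1
    obtain ⟨a1, a2, a3, a4⟩ := uQ h1
    have n1 : |p.1| = R := le_antisymm ((norm_box hR.gt a3 a4).1.1 hp.le)
      ((norm_box hR.gt a3 a4).2.1 hp.ge)
    rw [abs_of_pos (by linarith)] at n1
    apply u8
    rcases hR with h | h | h
    · left; linarith
    · left; linarith
    · right; linarith
  have hv : ∀ p : V3, ‖p‖ = R → vH p ∈ Qs → 8 ≤ |(vH p).1| := by
    intro p hp h1
    obtain ⟨a1, a2, a3, a4⟩ := vQ h1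
    have n1 : |p.1| = R := le_antisymm ((norm_box hR.gt a3 a4).1.1 hp.le)
      ((norm_box hR.gt a3 a4).2.1 hp.ge)
    rw [abs_of_neg (by linarith)] at n1
    apply v8
    rcases hR with h | h | h
    · left; linarith
    · right; linarith
    · right; linarith
  exact Phi_eq h (fun h1 h2 h3 => Fm_inj (hu q hq h2) (hu p hp h1) h3)
    (fun h1 h2 h3 => Fm_inj (hv q hq h2) (hv p hp h1) h3)

lemma Phi_sep1 {p q : V3} (hp : ‖p‖ = 26) (hq : 42 ≤ ‖q‖) : Phi p ≠ Phi q := by
  intro h
  have : p = q := by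
    apply Phi_eq h
    · intro h1 h2 h3
      obtain ⟨a1, a2, a3, a4⟩ := uQ h1
      obtain ⟨b1, b2, b3, b4⟩ := uQ h2
      have n1 := (norm_box (by norm_num) a3 a4).1.1 hp.le
      have n2 := (norm_box (by norm_num) b3 b4).2.1 hq
      rw [abs_of_pos (by linarith)] at n1 n2
      exact Fm_inj (u8 (Or.inr n2)) (u8 (Or.inl n1)) h3
    · intro h1 h2 h3
      obtain ⟨b1, b2, b3, b4⟩ := vQ h2
      have n2 := (norm_box (by norm_num) b3 b4).2.1 hq
      rw [abs_of_neg (by linarith)] at n2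
      linarith
  rw [this] at hp
  linarith

lemma Phi_sep2 {p q : V3} (hp : ‖p‖ = 10) (hq : 26 ≤ ‖q‖) : Phi p ≠ Phi q := by
  intro h
  have : p = q := by
    apply Phi_eq h
    · intro h1 h2 h3
      obtain ⟨a1, a2, a3, a4⟩ := uQ h1
      have n1 := (norm_box (by norm_num) a3 a4).1.1 hp.le
      rw [abs_of_pos (by linarith)] at n1
      linarith
    · intro h1 h2 h3
      obtain ⟨a1, a2, a3, a4⟩ := vQ h1
      obtain ⟨b1, b2, b3, b4⟩ := vQ h2
      have n1 := (norm_box (by norm_num) a3 a4).1.1 hp.le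
      have n2 := (norm_box (by norm_num) b3 b4).2.1 hq
      rw [abs_of_neg (by linarith)] at n1 n2
      exact Fm_inj (v8 (Or.inr (by linarith))) (v8 (Or.inl (by linarith))) h3
  rw [this] at hp
  linarith

lemma Phi_unbdd {R : ℝ} (hR : R ≤ 42) :
    ¬ Bornology.IsBounded (Phi '' (Metric.ball 0 R)ᶜ) := by
  intro hb
  obtain ⟨C, hC⟩ := hb.exists_norm_le
  set m : ℝ := max 50 (C + 1) with hm
  have h1 : (50 : ℝ) ≤ m := le_max_left _ _
  have h2 : C + 1 ≤ m := le_max_right _ _
  have hn : ‖((m, 0, 0) : V3)‖ = m := by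
    rw [norm_V3]
    simp only [abs_zero, max_self]
    rw [abs_of_pos (by linarith), max_eq_left (by linarith)]
  have hid : Phi (m, 0, 0) = (m, 0, 0) := by
    apply Phi_id
    · intro h
      have := (uQ h).2.1
      simp only at this
      linarith
    · intro h
      have := (vQ h).2.1
      simp only at this
      linarith
  have h3 := hC _ ⟨(m, 0, 0), by
    rw [mem_compl_iff, mem_ball_zero_iff, hn]; linarith, rfl⟩
  rw [hid, hn] at h3
  linarith

lemma alp_Qs (t : ℝ) : alp (2 / 3) t ∈ Qs := by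
  have hy := sqY_mem t
  have hz := sqZ_mem t
  refine ⟨by simp [alp], ?_, ?_⟩
  · simp only [alp]; rw [abs_le]; constructor <;> linarith
  · simp only [alp]; rw [abs_le]; constructor <;> linarith

lemma bet_Qs (t : ℝ) : bet (2 / 3) t ∈ Qs := by
  have hy := sqY_mem t
  have hz := sqZ_mem t
  refine ⟨by simp [bet], ?_, ?_⟩
  · simp only [bet]; rw [abs_le]; constructor <;> linarith
  · simp only [bet]; rw [abs_le]; constructor <;> linarith

/-- No sphere between two consecutive ones. -/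
theorem no_between {w : V3 ≃ₜ V3} (hw : ∀ q, q ∈ Qs → Phi (w.symm q) = w.symm (Fm q)) {r R : ℝ}
    (hr : 0 < r) (hrR : r < R) (hRr : Rad r) (hRR : Rad R)
    (h8 : ∀ q, q ∈ Qs → q.1 ≤ -8 → ‖w.symm q‖ ≤ r)
    (h8' : ∀ q, q ∈ Qs → 8 ≤ q.1 → R ≤ ‖w.symm q‖)
    {f : Sph → V3} (hf : Continuous f) (hinj : Function.Injective f)
    (h1 : range f ⊆ Ins (Phi '' Metric.sphere 0 R))
    (h2 : Phi '' Metric.sphere 0 r ⊆ Ins (range f)) : False := by
  have hR42 : R ≤ 42 := by rcases hRR with h | h | h <;> linarith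
  have hTc : IsPreconnected (range f) := by
    have : IsPreconnected (univ : Set Sph) := by
      have := isPreconnected_sphere (E := EuclideanSpace ℝ (Fin 3)) (by
        rw [← Module.finrank_eq_rank]; simp) 0 1
      refine (Topology.IsInducing.subtypeVal.isPreconnected_image).1 ?_
      rwa [image_univ, Subtype.range_coe]
    rw [← image_univ]
    exact this.image _ hf.continuousOn
  have hcomp : IsCompact (range f) := isCompact_range hf
  have hne : (range f).Nonempty := by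
    have : Nonempty Sph := ⟨⟨EuclideanSpace.single 0 1, by simp⟩⟩
    exact range_nonempty f
  obtain ⟨h3, h4⟩ := nest continuous_Phi Phi_surjective Phi_isClosedMap hr hrR (Phi_unbdd hR42)
    (sep hRr) (sep hRR) hcomp hTc hne h1 h2
  have hin : ∀ q, q ∈ Qs → q.1 ≤ -8 → w.symm (Fm q) ∈ Ins (range f) := by
    intro q hq hq8
    rw [← hw q hq]
    exact h3 ⟨_, by simpa using h8 q hq hq8, rfl⟩
  have hout : ∀ q, q ∈ Qs → 8 ≤ q.1 → w.symm (Fm q) ∈ (range f ∪ Ins (range f))ᶜ := by
    intro q hq hq8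
    rw [← hw q hq]
    exact h4 ⟨_, by simpa using h8' q hq hq8, rfl⟩
  refine shell (f := w ∘ f) (w.continuous.comp hf) (w.injective.comp hinj) ?_
    (A := w.symm ⁻¹' Ins (range f)) (B := w.symm ⁻¹' (range f ∪ Ins (range f))ᶜ)
    ((isOpen_Ins hcomp.isClosed).preimage w.symm.continuous)
    ((isOpen_Out hcomp.isClosed).preimage w.symm.continuous) ?_ ?_ ?_ ?_
  · rintro t ht ⟨q, hq, hqt⟩
    have hqQ : q ∈ Qs := by rw [← Fm_mem_iff, hqt]; exact ht
    have hft : w.symm (Fm q) = f t := by rw [hqt]; exact w.symm_apply_apply _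
    rcases le_abs.1 (show 8 ≤ |q.1| from hq) with h | h
    · have := hout q hqQ h
      rw [hft] at this
      exact this (Or.inl ⟨t, rfl⟩)
    · have := hin q hqQ (by linarith)
      rw [hft] at this
      exact this.1 ⟨t, rfl⟩
  · rw [Set.disjoint_left]
    intro x hx hx'
    exact hx' (Or.inr hx)
  · intro x hx
    by_cases h : w.symm x ∈ Ins (range f)
    · exact Or.inl h
    · refine Or.inr ?_
      rintro (h' | h')
      · obtain ⟨t, ht⟩ := h'
        exact hx ⟨t, by show w (f t) = x; rw [ht, w.apply_symm_apply]⟩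
      · exact h h'
  · intro t
    obtain ⟨p, hp, hpt⟩ := alp_left t
    have hpQ : p ∈ Qs := by rw [← Fm_mem_iff, hpt]; exact alp_Qs t
    rw [mem_preimage, ← hpt]
    exact hin p hpQ hp
  · intro t
    obtain ⟨p, hp, hpt⟩ := bet_right t
    have hpQ : p ∈ Qs := by rw [← Fm_mem_iff, hpt]; exact bet_Qs t
    rw [mem_preimage, ← hpt]
    exact hout p hpQ hp

theorem no_between_out {f : Sph → V3} (hf : Continuous f) (hinj : Function.Injective f)
    (h1 : range f ⊆ Ins (Phi '' Metric.sphere 0 42))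
    (h2 : Phi '' Metric.sphere 0 26 ⊆ Ins (range f)) : False := by
  refine no_between (w := uH) ?_ (by norm_num) (by norm_num) (Or.inr (Or.inl rfl))
    (Or.inr (Or.inr rfl)) ?_ ?_ hf hinj h1 h2
  · intro q hq
    have h : uH (uH.symm q) ∈ Qs := by rw [uH.apply_symm_apply]; exact hq
    apply uH.injective
    rw [Phi_u h, uH.apply_symm_apply, uH.apply_symm_apply]
  · intro q hq h8
    obtain ⟨q1, q2, q3⟩ := hq
    rw [abs_le] at q1
    rw [uH_symm]
    apply (norm_box (p := (q.1 + 34, q.2)) (by norm_num) q2 q3).1.2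
    rw [abs_le]; simp only; constructor <;> linarith
  · intro q hq h8
    obtain ⟨q1, q2, q3⟩ := hq
    rw [uH_symm]
    apply (norm_box (p := (q.1 + 34, q.2)) (by norm_num) q2 q3).2.2
    rw [le_abs]; left; simp only; linarith

theorem no_between_in {f : Sph → V3} (hf : Continuous f) (hinj : Function.Injective f)
    (h1 : range f ⊆ Ins (Phi '' Metric.sphere 0 26))
    (h2 : Phi '' Metric.sphere 0 10 ⊆ Ins (range f)) : False := by
  refine no_between (w := vH) ?_ (by norm_num) (by norm_num) (Or.inl rfl)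
    (Or.inr (Or.inl rfl)) ?_ ?_ hf hinj h1 h2
  · intro q hq
    have h : vH (vH.symm q) ∈ Qs := by rw [vH.apply_symm_apply]; exact hq
    apply vH.injective
    rw [Phi_v h, vH.apply_symm_apply, vH.apply_symm_apply]
  · intro q hq h8
    obtain ⟨q1, q2, q3⟩ := hq
    rw [abs_le] at q1
    rw [vH_symm]
    apply (norm_box (p := (-q.1 - 18, q.2)) (by norm_num) q2 q3).1.2
    rw [abs_le]; simp only; constructor <;> linarith
  · intro q hq h8
    obtain ⟨q1, q2, q3⟩ := hq
    rw [vH_symm]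
    apply (norm_box (p := (-q.1 - 18, q.2)) (by norm_num) q2 q3).2.2
    rw [le_abs]; right; simp only; linarith

theorem nested_out : Phi '' Metric.sphere 0 26 ⊆ Ins (Phi '' Metric.sphere 0 42) :=
  nested continuous_Phi Phi_surjective Phi_isClosedMap (sep (Or.inr (Or.inr rfl)))
    (fun _ _ hp hq => Phi_sep1 hp hq)

theorem nested_in : Phi '' Metric.sphere 0 10 ⊆ Ins (Phi '' Metric.sphere 0 26) :=
  nested continuous_Phi Phi_surjective Phi_isClosedMap (sep (Or.inr (Or.inl rfl)))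
    (fun _ _ hp hq => Phi_sep2 hp hq)

end Pool.Agent.H88.Nest
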