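import Pool.Agent.H88.Nest.Stage

/-!
Holonomies of the finite-stage structures, and the labels (3-cycles in `S₅`).
-/

set_option autoImplicit false

namespace Pool.Agent.H88.Nest

open Topology Filter Set

variable {G : Type} [Group G]

lemma LS.Par.of_local {P : LS G V3} {γ : ℝ → V3} (hγ : Continuous γ) {s : ℝ → G}
    (h : ∀ t, ∃ (S : Set V3) (ψ : V3 → G), P.ParOn S ψ ∧ γ t ∈ S ∧ ∀ᶠ u in 𝓝 t, s u = ψ (γ u)) :
    P.Par γ s := by
  intro t i hi
  obtain ⟨S, ψ, h1, h2, h3⟩ := h t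
  have h4 := h3.self_of_nhds
  filter_upwards [h3, hγ.continuousAt.eventually (h1 (γ t) h2 i hi)] with u hu hu'
  rw [hu, h4, hu']

lemma sqY_sign_pos {t : ℝ} (h : 0 < max (min t (4 - t)) (t - 8)) : 0 < sqY t := by
  rw [sqY]
  exact lt_max_of_lt_right (lt_min one_pos h)

lemma sqY_sign_neg {t : ℝ} (h : max (min t (4 - t)) (t - 8) < 0) : sqY t < 0 := by
  rw [sqY]
  exact max_lt (by norm_num) (min_lt_of_right_lt h)

lemma sqY_pos1 {t : ℝ} (h0 : 0 < t) (h4 : t < 4) : 0 < sqY t :=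
  sqY_sign_pos (lt_max_of_lt_left (lt_min h0 (by linarith)))
lemma sqY_pos2 {t : ℝ} (h8 : 8 < t) : 0 < sqY t :=
  sqY_sign_pos (lt_max_of_lt_right (by linarith))
lemma sqY_neg1 {t : ℝ} (h0 : t < 0) : sqY t < 0 :=
  sqY_sign_neg (max_lt (min_lt_of_left_lt h0) (by linarith))
lemma sqY_neg2 {t : ℝ} (h4 : 4 < t) (h8 : t < 8) : sqY t < 0 :=
  sqY_sign_neg (max_lt (min_lt_of_right_lt (by linarith)) (by linarith))

section

variable {ρ : ℝ} (h1 : 1 / 2 < ρ) (h2 : ρ ≤ 3 / 2)

include h1 h2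

lemma alp_bounds (t : ℝ) : |(alp ρ t).2.1| ≤ 3 / 2 ∧ 11 / 2 ≤ (alp ρ t).2.2 ∧
    (alp ρ t).2.2 ≤ 17 / 2 := by
  have hy := sqY_mem t
  have hz := sqZ_mem t
  simp only [alp]
  rw [abs_le]
  refine ⟨⟨by nlinarith, by nlinarith⟩, by nlinarith, by nlinarith⟩

lemma alp_Amb (t : ℝ) : alp ρ t ∈ Amb := by
  obtain ⟨b1, b2, b3⟩ := alp_bounds h1 h2 t
  rw [abs_le] at b1
  refine ⟨⟨?_, ?_, ?_⟩, ?_, ?_⟩
  · simp [alp]
  · rw [abs_lt]; constructor <;> linarith
  · rw [abs_lt]; constructor <;> linarith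
  · intro h
    have := h.1
    simp only [zo1] at this
    rw [abs_le] at this
    linarith
  · intro h
    have := h.2.1
    simp only [zo2, alp] at this
    norm_num at this

lemma bet_bounds (t : ℝ) : |(bet ρ t).2.2| ≤ 3 / 2 ∧ 11 / 2 ≤ (bet ρ t).2.1 ∧
    (bet ρ t).2.1 ≤ 17 / 2 := by
  have hy := sqY_mem t
  have hz := sqZ_mem t
  simp only [bet]
  rw [abs_le]
  refine ⟨⟨by nlinarith, by nlinarith⟩, by nlinarith, by nlinarith⟩

lemma bet_Amb (t : ℝ) : bet ρ t ∈ Amb := by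
  obtain ⟨b1, b2, b3⟩ := bet_bounds h1 h2 t
  rw [abs_le] at b1
  refine ⟨⟨?_, ?_, ?_⟩, ?_, ?_⟩
  · simp [bet]
  · rw [abs_lt]; constructor <;> linarith
  · rw [abs_lt]; constructor <;> linarith
  · intro h
    have := h.1
    simp only [zo1] at this
    rw [abs_le] at this
    linarith
  · intro h
    have := h.1
    simp only [zo2] at this
    rw [abs_le] at this
    linarith

theorem hol_P_alp {P : LS G V3} {a b : G} (hP : ∀ i, P.ParOn (Sch i ∩ Amb) (fch a b i)) :
    ∃ s : ℝ → G, P.Par (alp ρ) s ∧ s 8 * (s 0)⁻¹ = a⁻¹ := by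
  classical
  have hρ : 0 < ρ := by linarith
  have hcont : Continuous (alp ρ) :=
    continuous_alp.comp (by fun_prop : Continuous (fun t : ℝ => (ρ, t)))
  refine ⟨fun t => if t < 0 then a else if t < 8 then 1 else a⁻¹, ?_, ?_⟩
  swap
  · norm_num
  have hz : ∀ t, (alp ρ t).2.2 ≠ 0 := fun t => by
    have := (alp_bounds h1 h2 t).2.1
    intro h; rw [h] at this; norm_num at this
  have hz' : ∀ t, ¬ (alp ρ t).2.2 < 0 := fun t => by
    have := (alp_bounds h1 h2 t).2.1
    intro h; linarith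
  have hS0 : ∀ t, sqY t ≠ 0 → alp ρ t ∈ Sch .s0 ∩ Amb := fun t ht =>
    ⟨⟨hz t, Or.inl (mul_ne_zero hρ.ne' ht)⟩, alp_Amb h1 h2 t⟩
  have hS3 : ∀ t, sqZ t = -1 → alp ρ t ∈ Sch .s3 ∩ Amb := fun t ht => by
    refine ⟨⟨⟨?_, ?_⟩, Or.inl (hz t)⟩, alp_Amb h1 h2 t⟩
    · simp only [alp]; norm_num
    · simp only [alp, ht]
      rw [abs_lt]; constructor <;> linarith
  apply LS.Par.of_local hcont
  intro t
  rcases lt_trichotomy t 0 with ht | ht | ht
  · refine ⟨_, _, (hP .s0).mul a, hS0 t (sqY_neg1 ht).ne, ?_⟩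
    filter_upwards [eventually_lt_nhds ht] with u hu
    simp [fch, hu]
  · subst ht
    refine ⟨_, _, hP .s3, hS3 0 sqZ_zero, ?_⟩
    filter_upwards [eventually_gt_nhds (show (-1 : ℝ) < 0 by norm_num),
      eventually_lt_nhds (show (0 : ℝ) < 1 by norm_num)] with u hu hu'
    by_cases h0 : u < 0
    · have : (alp ρ u).2.1 < 0 := mul_neg_of_pos_of_neg hρ (sqY_neg1 h0)
      simp only [fch, h0, this, hz' u, if_true, if_false]
    · have : ¬ (alp ρ u).2.1 < 0 := by
        rw [not_lt]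
        apply mul_nonneg hρ.le
        rcases eq_or_lt_of_le (not_lt.1 h0) with h | h
        · rw [← h, sqY_zero]
        · exact (sqY_pos1 h (by linarith)).le
      have h8 : u < 8 := by linarith
      simp only [fch, h0, this, h8, if_true, if_false]
  rcases lt_trichotomy t 8 with ht8 | ht8 | ht8
  · have hmem : alp ρ t ∈ Sch .s0 ∩ Amb := by
      rcases lt_trichotomy t 4 with h4 | h4 | h4
      · exact hS0 t (sqY_pos1 ht h4).ne'
      · refine ⟨⟨hz t, Or.inr (Or.inl ?_)⟩, alp_Amb h1 h2 t⟩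
        subst h4
        have : sqZ 4 = 1 := sqZ_one (by norm_num) (by norm_num)
        simp only [alp, this]
        rw [lt_abs]; left; linarith
      · exact hS0 t (sqY_neg2 h4 ht8).ne
    refine ⟨_, _, hP .s0, hmem, ?_⟩
    filter_upwards [eventually_gt_nhds ht, eventually_lt_nhds ht8] with u hu hu'
    simp [fch, hu.le, hu']
  · subst ht8
    refine ⟨_, _, (hP .s3).mul a⁻¹, hS3 8 sqZ_eight, ?_⟩
    filter_upwards [eventually_gt_nhds (show (7 : ℝ) < 8 by norm_num)] with u hu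
    have h0 : ¬ u < 0 := by intro h; linarith
    by_cases h8 : u < 8
    · have : (alp ρ u).2.1 < 0 := mul_neg_of_pos_of_neg hρ (sqY_neg2 (by linarith) h8)
      simp only [fch, h0, this, hz' u, if_true, if_false, h8, inv_mul_cancel]
    · have : ¬ (alp ρ u).2.1 < 0 := by
        rw [not_lt]
        apply mul_nonneg hρ.le
        rcases eq_or_lt_of_le (not_lt.1 h8) with h | h
        · rw [← h, sqY_eight]
        · exact (sqY_pos2 h).le
      simp only [fch, h0, this, h8, if_false, mul_one]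
  · refine ⟨_, _, (hP .s0).mul a⁻¹, hS0 t (sqY_pos2 ht8).ne', ?_⟩
    filter_upwards [eventually_gt_nhds ht8] with u hu
    have h0 : ¬ u < 0 := by intro h; linarith
    have h8 : ¬ u < 8 := by intro h; linarith
    simp only [fch, h0, h8, if_false, mul_one]

theorem hol_P_bet {P : LS G V3} {a b : G} (hP : ∀ i, P.ParOn (Sch i ∩ Amb) (fch a b i)) :
    ∃ s : ℝ → G, P.Par (bet ρ) s ∧ s 8 * (s 0)⁻¹ = b := by
  classical
  have hρ : 0 < ρ := by linarith
  have hcont : Continuous (bet ρ) :=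
    continuous_bet.comp (by fun_prop : Continuous (fun t : ℝ => (ρ, t)))
  refine ⟨fun t => if t < 0 then b⁻¹ else if t < 8 then 1 else b, ?_, ?_⟩
  swap
  · norm_num
  have hy : ∀ t, (bet ρ t).2.1 ≠ 0 := fun t => by
    have := (bet_bounds h1 h2 t).2.1
    intro h; rw [h] at this; norm_num at this
  have hy' : ∀ t, ¬ (bet ρ t).2.1 < 0 := fun t => by
    have := (bet_bounds h1 h2 t).2.1
    intro h; linarith
  have hS0 : ∀ t, sqY t ≠ 0 → bet ρ t ∈ Sch .s0 ∩ Amb := fun t ht =>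
    ⟨⟨mul_ne_zero hρ.ne' ht, Or.inl (hy t)⟩, bet_Amb h1 h2 t⟩
  have hS1 : ∀ t, sqZ t = -1 → bet ρ t ∈ Sch .s1 ∩ Amb := fun t ht => by
    refine ⟨⟨⟨?_, ?_⟩, Or.inl (hy t)⟩, bet_Amb h1 h2 t⟩
    · simp only [bet]; norm_num
    · simp only [bet, ht]
      rw [abs_lt]; constructor <;> linarith
  apply LS.Par.of_local hcont
  intro t
  rcases lt_trichotomy t 0 with ht | ht | ht
  · refine ⟨_, _, (hP .s0).mul b⁻¹, hS0 t (sqY_neg1 ht).ne, ?_⟩
    filter_upwards [eventually_lt_nhds ht] with u hu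
    simp [fch, hu]
  · subst ht
    refine ⟨_, _, hP .s1, hS1 0 sqZ_zero, ?_⟩
    filter_upwards [eventually_gt_nhds (show (-1 : ℝ) < 0 by norm_num),
      eventually_lt_nhds (show (0 : ℝ) < 1 by norm_num)] with u hu hu'
    by_cases h0 : u < 0
    · have : (bet ρ u).2.2 < 0 := mul_neg_of_pos_of_neg hρ (sqY_neg1 h0)
      simp only [fch, h0, this, if_true]
    · have : ¬ (bet ρ u).2.2 < 0 := by
        rw [not_lt]
        apply mul_nonneg hρ.le
        rcases eq_or_lt_of_le (not_lt.1 h0) with h | h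
        · rw [← h, sqY_zero]
        · exact (sqY_pos1 h (by linarith)).le
      have h8 : u < 8 := by linarith
      simp only [fch, h0, this, h8, if_true, if_false]
  rcases lt_trichotomy t 8 with ht8 | ht8 | ht8
  · rcases lt_trichotomy t 4 with h4 | h4 | h4
    · refine ⟨_, _, hP .s0, hS0 t (sqY_pos1 ht h4).ne', ?_⟩
      filter_upwards [eventually_gt_nhds ht, eventually_lt_nhds ht8] with u hu hu'
      simp [fch, hu.le, hu']
    · have hmem : bet ρ t ∈ Sch .s5 ∩ Amb := by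
        refine ⟨⟨Or.inl ?_, hy t⟩, bet_Amb h1 h2 t⟩
        subst h4
        have : sqZ 4 = 1 := sqZ_one (by norm_num) (by norm_num)
        simp only [bet, this]
        rw [lt_abs]; left; linarith
      refine ⟨_, _, hP .s5, hmem, ?_⟩
      filter_upwards [eventually_gt_nhds ht, eventually_lt_nhds ht8] with u hu hu'
      have := hy' u
      have h0 : ¬ u < 0 := not_lt.2 hu.le
      simp only [fch, h0, hu', this, if_true, if_false]
    · refine ⟨_, _, hP .s0, hS0 t (sqY_neg2 h4 ht8).ne, ?_⟩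
      filter_upwards [eventually_gt_nhds ht, eventually_lt_nhds ht8] with u hu hu'
      simp [fch, hu.le, hu']
  · subst ht8
    refine ⟨_, _, (hP .s1).mul b, hS1 8 sqZ_eight, ?_⟩
    filter_upwards [eventually_gt_nhds (show (7 : ℝ) < 8 by norm_num)] with u hu
    have h0 : ¬ u < 0 := by intro h; linarith
    by_cases h8 : u < 8
    · have : (bet ρ u).2.2 < 0 := mul_neg_of_pos_of_neg hρ (sqY_neg2 (by linarith) h8)
      simp only [fch, h0, this, if_true, if_false, h8, mul_inv_cancel]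
    · have : ¬ (bet ρ u).2.2 < 0 := by
        rw [not_lt]
        apply mul_nonneg hρ.le
        rcases eq_or_lt_of_le (not_lt.1 h8) with h | h
        · rw [← h, sqY_eight]
        · exact (sqY_pos2 h).le
      simp only [fch, h0, this, h8, if_false, mul_one]
  · refine ⟨_, _, (hP .s0).mul b, hS0 t (sqY_pos2 ht8).ne', ?_⟩
    filter_upwards [eventually_gt_nhds ht8] with u hu
    have h0 : ¬ u < 0 := by intro h; linarith
    have h8 : ¬ u < 8 := by intro h; linarith
    simp only [fch, h0, h8, if_false, mul_one]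

end

/-! ### Labels -/

open Equiv.Perm in
lemma label_comm (c : Equiv.Perm (Fin 5)) (hc : c.IsThreeCycle) :
    ∃ a : Equiv.Perm (Fin 5), a.IsThreeCycle ∧ ∃ b : Equiv.Perm (Fin 5), b.IsThreeCycle ∧
      lab a b = c := by
  -- a fixed identity
  let a₀ : Equiv.Perm (Fin 5) := c[0, 1, 2]
  let b₀ : Equiv.Perm (Fin 5) := c[0, 3, 4]
  have ha : a₀.IsThreeCycle := card_support_eq_three_iff.1 (by decide)
  have hb : b₀.IsThreeCycle := card_support_eq_three_iff.1 (by decide)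
  have hl : (lab a₀ b₀).IsThreeCycle := card_support_eq_three_iff.1 (by decide)
  have hconj : IsConj (lab a₀ b₀) c := by
    rw [isConj_iff_cycleType_eq, hl.cycleType, hc.cycleType]
  obtain ⟨g, hg⟩ := isConj_iff.1 hconj
  refine ⟨g * a₀ * g⁻¹, ?_, g * b₀ * g⁻¹, ?_, ?_⟩
  · show (g * a₀ * g⁻¹).cycleType = {3}
    rw [cycleType_conj]; exact ha
  · show (g * b₀ * g⁻¹).cycleType = {3}
    rw [cycleType_conj]; exact hb
  · rw [← hg]; simp only [lab]; group

theorem exists_stage (n : ℕ) : ∃ (P : LS (Equiv.Perm (Fin 5)) V3) (a : Equiv.Perm (Fin 5)),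
    a ≠ 1 ∧ P.dom = Yn (n + 1) ∪ Oe ∧ ∀ i, P.ParOn (Sch i ∩ Amb) (fch a a i) := by
  let S : Set (Equiv.Perm (Fin 5)) := {σ | σ.IsThreeCycle}
  have hc : ∀ c ∈ S, ∃ a ∈ S, ∃ b ∈ S, lab a b = c := fun c hc => label_comm c hc
  have hi : ∀ c ∈ S, c⁻¹ ∈ S := fun c hc => Equiv.Perm.IsThreeCycle.inv hc
  have ha : (c[0, 1, 2] : Equiv.Perm (Fin 5)) ∈ S := by
    exact card_support_eq_three_iff.1 (by decide)
  obtain ⟨P, h1, h2⟩ := exists_P hc hi ha n
  refine ⟨P, _, ?_, h1, h2⟩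
  decide

end Pool.Agent.H88.Nest
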