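import Pool.Agent.H88.Nest.FMap
import Pool.Agent.H88.Nest.Hol

/-!
The image of the solid part contains the cores.
-/

set_option autoImplicit false

namespace Pool.Agent.H88.Nest

open Topology Filter Set

/-- The flat left ring, away from the gap, is in the image of the left side. -/
lemma ring_left {q : V3} (hy : q.2.1 = 0) (h1 : q.1 ≤ 7 / 2) (h2 : |q.2.2 - 2| ≤ 11 / 2)
    (h3 : 5 / 2 ≤ q.1 ∨ 9 / 2 ≤ |q.2.2 - 2|) (h4 : 8 / 100 ≤ |q.2.2 - 2|) :
    ∃ p : V3, p.1 ≤ -8 ∧ gg p = q := by
  obtain ⟨x, y, z⟩ := q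
  simp only at hy h1 h2 h3 h4
  subst hy
  obtain ⟨d0, d1⟩ := dd_mem x 0
  obtain ⟨t, ht⟩ := ZZ_surj (x := x) d0 d1 (z - 2)
  have t1 : |t| ≤ 11 / 2 := by
    by_contra h
    have h5 : ZZ (dd x 0) x t = t := ZZ_id (not_le.1 h).le
    rw [ht] at h5
    rw [h5] at h2
    exact h h2
  have t2 : |z - 2| ≤ |t| := by
    rw [← ht]; exact ZZ_abs_le d0 d1
  have hb : (x + 8) / 12 ≤ bb 0 (t + 2) := by
    rcases le_total (9 / 2) |t| with h5 | h5
    · have h6 : rho 0 (t + 2) ≤ 1 / 2 := by
        unfold rho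
        apply max_le (by simp)
        rw [add_sub_cancel_right, abs_le]
        constructor <;> linarith
      have h7 : bb 0 (t + 2) = 1 := by
        unfold bb
        rw [min_eq_left (by linarith), max_eq_right zero_le_one]
      rw [h7]; linarith
    · by_cases h5' : |t| < 9 / 2
      · have h6 : 5 / 2 ≤ x := h3.resolve_right (by intro h; linarith)
        have hd : dd x 0 = 1 := by
          have : max |x - 3| |(0 : ℝ)| ≤ 1 / 2 := by
            apply max_le _ (by simp)
            rw [abs_le]; constructor <;> linarith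
          unfold dd
          generalize max |x - 3| |(0 : ℝ)| = m at this ⊢
          rw [min_eq_left (by linarith), max_eq_right zero_le_one]
        rw [hd] at ht
        have he : ee x = 4 + (x + 8) / 24 := rfl
        have hx : |x - 3| ≤ 1 := by rw [abs_le]; constructor <;> linarith
        have h8 : ee x ≤ |t| := by
          by_contra h'
          have := (ZZ_abs_lt_iff (d := 1) (x := x) zero_le_one le_rfl
            (by rw [he]; linarith : 0 ≤ ee x)).2 (not_le.1 h')
          rw [ZZ_ee hx, ht] at this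
          linarith
        have h9 := bb_eq (y := 0) (z := t + 2) (by rw [abs_zero]; norm_num)
          (by rw [add_sub_cancel_right]; rw [he] at h8; linarith)
          (by rw [add_sub_cancel_right]; exact h5)
        rw [h9, add_sub_cancel_right]
        rw [he] at h8
        linarith
      · have h5'' : |t| = 9 / 2 := le_antisymm h5 (not_lt.1 h5')
        have h9 := bb_eq (y := 0) (z := t + 2) (by rw [abs_zero]; norm_num)
          (by rw [add_sub_cancel_right]; linarith) (by rw [add_sub_cancel_right]; exact h5)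
        rw [h9, add_sub_cancel_right, h5'']
        linarith
  obtain ⟨b0, b1⟩ := bb_mem 0 (t + 2)
  obtain ⟨x', hx'⟩ := X_surj b0 b1 x
  have hx8 : x' ≤ -8 := (X_le_iff b0 b1).1 (by rw [hx']; linarith)
  refine ⟨(x', 0, t + 2), hx8, ?_⟩
  have e1 : s1 (x', 0, t + 2) = (x, 0, t + 2) := by simp only [s1]; rw [hx']
  have e2 : gL (x', 0, t + 2) = (x, 0, z) := by
    show s2 (s1 _) = _
    rw [e1, s2_eq]
    simp only [add_sub_cancel_right, ht]
    congr 2; ring
  show gR (gL (x', 0, t + 2)) = _
  rw [e2]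
  apply gR_id
  rintro ⟨k1, ⟨k2, k3⟩, k4, k5⟩
  simp only [sg] at k1 k2 k3 k4 k5
  rw [abs_le] at k1
  rcases k5 with k5 | k5
  · norm_num at k5
  · have : |z - 2| ≤ 3 := by rw [abs_le]; constructor <;> linarith
    rcases h3 with h | h <;> linarith

lemma ring_right {q : V3} (hz : q.2.2 = 0) (h1 : -7 / 2 ≤ q.1) (h2 : |q.2.1 - 2| ≤ 11 / 2)
    (h3 : q.1 ≤ -5 / 2 ∨ 9 / 2 ≤ |q.2.1 - 2|) (h4 : 8 / 100 ≤ |q.2.1 - 2|) :
    ∃ p : V3, 8 ≤ p.1 ∧ gg p = q := by
  obtain ⟨p, k1, k2⟩ := ring_left (q := sg q) hz (by simp only [sg]; linarith) h2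
    (by simp only [sg]; rcases h3 with h | h; exact Or.inl (by linarith); exact Or.inr h) h4
  refine ⟨sg p, by simp only [sg]; linarith, ?_⟩
  rw [gg_sg, k2, sg_sg]

/-- The cross section of the left horn. -/
lemma horn_left {q : V3} (hx : q.1 = 0) (h1 : |q.2.1| ≤ 2 / 3) (h2 : |q.2.2 - 7| ≤ 2 / 3) :
    ∃ p : V3, p.1 ≤ -8 ∧ gg p = q := by
  obtain ⟨x, y, z⟩ := q
  simp only at hx h1 h2
  subst hx
  have h2' := h2
  rw [abs_le] at h2'
  have hr : rho y z ≤ 2 / 3 := by
    unfold rho
    apply max_le h1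
    rw [abs_of_nonneg (by linarith : 0 ≤ z - 2)]
    rw [show z - 2 - 5 = z - 7 by ring]; exact h2
  have hb : 2 / 3 ≤ bb y z := by
    unfold bb
    apply le_max_of_le_right
    apply le_min <;> linarith
  obtain ⟨b0, b1⟩ := bb_mem y z
  obtain ⟨x', hx'⟩ := X_surj b0 b1 0
  have hx8 : x' ≤ -8 := (X_le_iff b0 b1).1 (by rw [hx']; linarith)
  refine ⟨(x', y, z), hx8, ?_⟩
  have e1 : s1 (x', y, z) = (0, y, z) := by simp only [s1]; rw [hx']
  have hd : dd 0 y = 0 := by
    unfold dd
    apply max_eq_left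
    refine (min_le_right _ _).trans ?_
    have h3 : (3 : ℝ) ≤ |0 - 3| := by norm_num
    have h4 := le_max_left |(0 : ℝ) - 3| |y|
    linarith
  have e2 : gL (x', y, z) = (0, y, z) := by
    show s2 (s1 _) = _
    rw [e1]
    simp only [s2, hd, zero_mul, sub_zero]
  show gR (gL (x', y, z)) = _
  rw [e2]
  apply gR_id
  rintro ⟨k1, -⟩
  simp only [sg] at k1
  rw [abs_le] at k1
  linarith

lemma alp_left (t : ℝ) : ∃ p : V3, p.1 ≤ -8 ∧ Fm p = alp (2 / 3) t := by
  have hy := sqY_mem t
  have hz := sqZ_mem t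
  obtain ⟨p, h1, h2⟩ := horn_left (q := alp (2 / 3) t) rfl
    (by simp only [alp]; rw [abs_le]; constructor <;> linarith)
    (by simp only [alp]; rw [abs_le]; constructor <;> linarith)
  refine ⟨p, h1, ?_⟩
  rw [Fm_out, h2]
  rw [h2]
  intro i h
  cases i
  · have := (zo1_Qs h).1
    simp only [sg, alp] at this
    norm_num at this
  · have := (zo1_Qs h).1
    simp only [alp] at this
    norm_num at this

lemma bet_right (t : ℝ) : ∃ p : V3, 8 ≤ p.1 ∧ Fm p = bet (2 / 3) t := by
  have hy := sqY_mem t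
  have hz := sqZ_mem t
  obtain ⟨p, h1, h2⟩ := horn_left (q := alp (2 / 3) t) rfl
    (by simp only [alp]; rw [abs_le]; constructor <;> linarith)
    (by simp only [alp]; rw [abs_le]; constructor <;> linarith)
  have h3 : gg (sg p) = bet (2 / 3) t := by
    rw [gg_sg, h2]
    simp only [sg, alp, bet, neg_zero]
  refine ⟨sg p, by simp only [sg]; linarith, ?_⟩
  rw [Fm_out, h3]
  rw [h3]
  intro i h
  cases i
  · have := (zo1_Qs h).1
    simp only [sg, bet] at this
    norm_num at this
  · have := (zo1_Qs h).1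
    simp only [bet] at this
    norm_num at this

/-- The gap boxes of level `n`. -/
def Gam : ℕ → Set V3
  | 0 => Qc
  | n + 1 => zo true ⁻¹' Gam n ∪ zo false ⁻¹' Gam n

lemma Qc_sub {p : V3} (h : p ∈ Qc) : p ∈ Qs := ⟨h.1.trans (by norm_num), h.2.1, h.2.2⟩

lemma zo_not_image {i : Bool} {x : V3} (hx : x ∉ Fm '' DD) (h : zo i x ∈ Om) :
    zo i x ∉ Fm '' DD := by
  intro h'
  by_cases hQ : zo i x ∈ Qs
  · apply hx
    have := th_image (i := i) h' hQ
    rwa [th_zo] at this
  · obtain ⟨p', hp', h2⟩ := h'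
    have h3 : p' ∉ Qs := by
      rw [← Fm_mem_iff, h2]; exact hQ
    rw [Fm_id h3] at h2
    rw [h2] at hp'
    have h4 : 8 ≤ |(zo i x).1| := hp'
    have := h.1
    linarith

lemma zo_not_Qs {i : Bool} {x : V3} (hx : x ∉ Fm '' DD) (h : zo i x ∉ Om) : zo i x ∉ Qs := by
  intro hQ
  apply hx
  have h1 : zo i x ∈ DD := by
    show 8 ≤ |(zo i x).1|
    by_contra h2
    exact h ⟨not_le.1 h2, hQ.2.1.trans_lt (by norm_num), hQ.2.2.trans_lt (by norm_num)⟩
  have := th_image (i := i) (DD_sub h1) hQ
  rwa [th_zo] at this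

theorem mem_Yn (n : ℕ) : ∀ x, x ∈ Om → x ∉ Fm '' DD → x ∉ Gam n → x ∈ Yn n := by
  induction n with
  | zero => exact fun x h1 _ h3 => mem_Col_of h1 h3
  | succ n ih =>
    intro x hO hx hG
    have hG1 : zo true x ∉ Gam n := fun h => hG (Or.inl h)
    have hG2 : zo false x ∉ Gam n := fun h => hG (Or.inr h)
    by_cases h1 : zo true x ∈ Om
    · exact Or.inr (Or.inl (ih _ h1 (zo_not_image hx h1) hG1))
    by_cases h2 : zo false x ∈ Om
    · refine Or.inr (Or.inr ?_)
      show zo2 x ∈ Yn n
      rw [zo2_eq]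
      exact ih _ h2 (zo_not_image hx h2) hG2
    have hQ1 := zo_not_Qs hx h1
    have hQ2 := zo_not_Qs hx h2
    have hA : x ∈ Amb := by
      refine ⟨hO, fun h => hQ1 (Qc_sub h), fun h => hQ2 (Qc_sub ?_)⟩
      have h' : zo2 x ∈ Qc := h
      rw [zo2_eq] at h'
      exact h'
    left
    refine ⟨?_, hA⟩
    by_contra hS
    apply hx
    have hfin : ∀ p : V3, 8 ≤ |p.1| → gg p = x → x ∈ Fm '' DD := by
      intro p hp hg
      refine ⟨p, hp, ?_⟩
      rw [Fm_out, hg]
      intro i
      rw [hg]
      cases i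
      · exact hQ2
      · exact hQ1
    have hS' : ∀ i, x ∉ Sch i := fun i h => hS (mem_iUnion.2 ⟨i, h⟩)
    have n0 := hS' .s0
    have n1 := hS' .s1
    have n2 := hS' .s2
    have n3 := hS' .s3
    have n5 := hS' .s5
    obtain ⟨a, b, c⟩ := x
    simp only [Sch, inL, inR, outL, outR, mem_ofPred_eq, not_and, not_or, not_lt, ne_eq] at n0 n1 n2 n3 n5
    have usel : b = 0 → a ≤ 7 / 2 → |c - 2| ≤ 11 / 2 → (5 / 2 ≤ a ∨ 9 / 2 ≤ |c - 2|) →
        (a, b, c) ∈ Fm '' DD := by
      intro e1 e2 e3 e4
      by_cases e5 : 8 / 100 ≤ |c - 2|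
      · obtain ⟨p, k1, k2⟩ := ring_left (q := (a, b, c)) e1 e2 e3 e4 e5
        exact hfin p (le_abs.2 (Or.inr (by linarith))) k2
      · exfalso
        have e6 := not_le.1 e5
        have e7 : 5 / 2 ≤ a := e4.resolve_right (by intro h; linarith)
        apply h1
        rw [abs_lt] at e6
        refine ⟨?_, ?_, ?_⟩
        · show |100 * (c - 2)| < 8
          rw [abs_lt]; constructor <;> linarith
        · show |100 * (a - 3)| < 75
          rw [abs_lt]; constructor <;> linarith
        · show |100 * b| < 75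
          rw [e1]; norm_num
    have user : c = 0 → -7 / 2 ≤ a → |b - 2| ≤ 11 / 2 → (a ≤ -5 / 2 ∨ 9 / 2 ≤ |b - 2|) →
        (a, b, c) ∈ Fm '' DD := by
      intro e1 e2 e3 e4
      by_cases e5 : 8 / 100 ≤ |b - 2|
      · obtain ⟨p, k1, k2⟩ := ring_right (q := (a, b, c)) e1 e2 e3 e4 e5
        exact hfin p (le_abs.2 (Or.inl (by linarith))) k2
      · exfalso
        have e6 := not_le.1 e5
        have e7 : a ≤ -5 / 2 := e4.resolve_right (by intro h; linarith)
        apply h2
        rw [abs_lt] at e6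
        refine ⟨?_, ?_, ?_⟩
        · show |100 * (b - 2)| < 8
          rw [abs_lt]; constructor <;> linarith
        · show |100 * (-a - 3)| < 75
          rw [abs_lt]; constructor <;> linarith
        · show |100 * c| < 75
          rw [e1]; norm_num
    by_cases hc : c = 0
    · by_cases hb : b = 0
      · subst hc; subst hb
        have q1 : |(0 : ℝ) - 2| = 2 := by norm_num
        rw [q1] at n1 n2 n3 usel user
        rcases le_or_gt a 0 with ha | ha
        · apply user rfl
          · by_contra h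
            have := (n3 ⟨by linarith, by norm_num⟩).2
            linarith
          · norm_num
          · left
            by_contra h
            have := n2 ⟨by linarith, by norm_num⟩ (by linarith)
            linarith
        · apply usel rfl
          · by_contra h
            have := (n1 ⟨by linarith, by norm_num⟩).2
            linarith
          · norm_num
          · left
            by_contra h
            have := n2 ⟨by linarith, by norm_num⟩ (by linarith)
            linarith
      · have m5 : ¬ (11 / 2 < |b - 2| ∨ a < -7 / 2) := fun h => hb (by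
          by_contra hb'
          exact absurd (n5 h) (by simpa using hb'))
        rw [not_or, not_lt, not_lt] at m5
        apply user hc m5.2 m5.1
        by_contra h
        rw [not_or, not_le, not_le] at h
        exact hb (by
          have := (n1 ⟨h.1, h.2⟩).1
          simpa using this)
    · have m0 := n0 hc
      have hb : b = 0 := by simpa using m0.1
      have m0' := m0.2
      apply usel hb m0'.2 m0'.1
      by_contra h
      rw [not_or, not_le, not_le] at h
      have := (n3 ⟨h.1, h.2⟩).1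
      exact hc (by simpa using this)

lemma Gam_close (n : ℕ) : ∀ x ∈ Gam n, ∃ y ∈ Fm '' DD, y ∈ Qs ∧ dist x y ≤ 16 / 100 ^ n := by
  induction n with
  | zero =>
    intro x hx
    obtain ⟨h1, h2, h3⟩ := hx
    refine ⟨(8, x.2.1, x.2.2), DD_sub (show (8 : ℝ) ≤ |8| by norm_num), ⟨by norm_num, h2, h3⟩, ?_⟩
    rw [dist_V3]
    rw [abs_le] at h1
    simp only [sub_self, abs_zero, max_self, pow_zero, div_one]
    apply max_le _ (by norm_num)
    rw [abs_le]; constructor <;> linarith
  | succ n ih =>
    intro x hx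
    have key : ∀ i, zo i x ∈ Gam n → ∃ y ∈ Fm '' DD, y ∈ Qs ∧ dist x y ≤ 16 / 100 ^ (n + 1) := by
      intro i hi
      obtain ⟨y, h1, h2, h3⟩ := ih _ hi
      refine ⟨th i y, th_image h1 h2, zo_sub (i := i) (by rw [zo_th]; exact h2), ?_⟩
      have h4 : dist x (th i y) = dist (zo i x) y / 100 := by
        conv_lhs => rw [← th_zo i x]
        rw [dist_th]
      rw [h4, pow_succ, ← div_div]
      gcongr
    rcases hx with hx | hx
    · exact key _ hx
    · exact key _ hx

end Pool.Agent.H88.Nest
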