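import Pool.Agent.H88.Nest.Sphere

/-!
A flat structure is trivial near an embedded 2-sphere; cutting and pasting along it.
-/

set_option autoImplicit false

namespace Pool.Agent.H88.Nest

open Topology Filter Set

variable {G : Type} [Group G] {V : Type} [NormedAddCommGroup V] [NormedSpace ℝ V]

/-- A flat structure is trivial near an embedded sphere. -/
theorem LS.exists_nbhd (L : LS G V) {f : Sph → V} (hf : Continuous f)
    (hinj : Function.Injective f) (hd : ∀ t, f t ∈ L.dom) :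
    ∃ (N : Set V) (ψ : V → G), IsOpen N ∧ range f ⊆ N ∧ N ⊆ L.dom ∧ L.ParOn N ψ := by
  classical
  obtain ⟨s, hs⟩ := L.exists_par_sphere f hf hd
  have hemb := (hf.isClosedEmbedding hinj)
  set ψ₀ : V → G := Function.extend f s 1 with hψ₀
  have hψ : ∀ t, ψ₀ (f t) = s t := fun t => hinj.extend_apply s 1 t
  have step1 : ∀ t : Sph, ∃ (O : Set V) (i : L.ι), IsOpen O ∧ f t ∈ O ∧ O ⊆ L.U i ∧
      ∀ u, f u ∈ O → s u * (L.φ i (f u))⁻¹ = s t * (L.φ i (f t))⁻¹ := by
    intro t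
    obtain ⟨i, hi⟩ := L.mem_dom.1 (hd t)
    have h1 := hs t i hi
    rw [hemb.isInducing.nhds_eq_comap, eventually_comap] at h1
    obtain ⟨O, hO, hOo, htO⟩ := eventually_nhds_iff.1 (h1.and ((L.isOpen_U i).mem_nhds hi))
    exact ⟨O, i, hOo, htO, fun y hy => (hO y hy).2, fun u hu => (hO _ hu).1 u rfl⟩
  choose O i hOo htO hOU hO using step1
  obtain ⟨δ, hδ, hleb⟩ := lebesgue_number_lemma_of_metric (s := range f)
    (isCompact_range hf) hOo (by rintro _ ⟨t, rfl⟩; exact mem_iUnion.2 ⟨t, htO t⟩)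
  have step2 : ∀ t : Sph, ∃ Ψ : V → G, Metric.ball (f t) δ ⊆ L.dom ∧
      L.ParOn (Metric.ball (f t) δ) Ψ ∧ ∀ u, f u ∈ Metric.ball (f t) δ → Ψ (f u) = s u := by
    intro t
    obtain ⟨t', ht'⟩ := hleb (f t) ⟨t, rfl⟩
    refine ⟨fun y => (s t' * (L.φ (i t') (f t'))⁻¹) * L.φ (i t') y, ?_, ?_, ?_⟩
    · exact ht'.trans ((hOU t').trans (fun y hy => L.mem_dom.2 ⟨_, hy⟩))
    · exact ((L.parOn_chart (i t')).mono (ht'.trans (hOU t'))).mul _
    · intro u hu
      have := hO t' u (ht' hu)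
      show (s t' * (L.φ (i t') (f t'))⁻¹) * L.φ (i t') (f u) = s u
      rw [← this]; group
  choose Ψ hΨd hΨ hΨs using step2
  have hδ2 : 0 < δ / 2 := by positivity
  have agree : ∀ t t' y, y ∈ Metric.ball (f t) (δ / 2) → y ∈ Metric.ball (f t') (δ / 2) →
      Ψ t y = Ψ t' y := by
    intro t t' y hy hy'
    have hC : IsPreconnected (Metric.ball (f t) δ ∩ Metric.ball (f t') δ) :=
      ((convex_ball _ _).inter (convex_ball _ _)).isPreconnected
    have hyC : y ∈ Metric.ball (f t) δ ∩ Metric.ball (f t') δ :=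
      ⟨Metric.ball_subset_ball (by linarith) hy, Metric.ball_subset_ball (by linarith) hy'⟩
    have htC : f t' ∈ Metric.ball (f t) δ ∩ Metric.ball (f t') δ := by
      constructor
      · rw [Metric.mem_ball]
        rw [Metric.mem_ball] at hy hy'
        have := dist_triangle_left (f t') (f t) y
        linarith
      · exact Metric.mem_ball_self hδ
    have h1 := LS.ParOn.unique hC ((hΨ t).mono inter_subset_left)
      ((hΨ t').mono inter_subset_right) (fun z hz => hΨd t hz.1) hyC htC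
    rw [hΨs t t' htC.1, hΨs t' t' htC.2] at h1
    exact mul_inv_eq_one.1 (by rw [h1]; simp)
  set N : Set V := ⋃ t, Metric.ball (f t) (δ / 2) with hN
  let ψ : V → G := fun y => if h : ∃ t, y ∈ Metric.ball (f t) (δ / 2) then Ψ h.choose y else 1
  have hψΨ : ∀ t y, y ∈ Metric.ball (f t) (δ / 2) → ψ y = Ψ t y := by
    intro t y hy
    have h : ∃ t, y ∈ Metric.ball (f t) (δ / 2) := ⟨t, hy⟩
    show (if h : ∃ t, y ∈ Metric.ball (f t) (δ / 2) then Ψ h.choose y else 1) = Ψ t y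
    rw [dif_pos h]
    exact agree _ _ _ h.choose_spec hy
  refine ⟨N, ψ, isOpen_iUnion fun t => Metric.isOpen_ball, ?_, ?_, ?_⟩
  · rintro _ ⟨t, rfl⟩
    exact mem_iUnion.2 ⟨t, Metric.mem_ball_self hδ2⟩
  · intro y hy
    obtain ⟨t, ht⟩ := mem_iUnion.1 hy
    exact hΨd t (Metric.ball_subset_ball (by linarith) ht)
  · intro y hy i hi
    obtain ⟨t, ht⟩ := mem_iUnion.1 hy
    filter_upwards [hΨ t y (Metric.ball_subset_ball (by linarith) ht) i hi,
      Metric.isOpen_ball.mem_nhds ht] with u hu hut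
    rw [hψΨ t u hut, hψΨ t y ht, hu]

/-- Cutting and pasting a flat structure along an embedded sphere. -/
theorem LS.cut_paste (L : LS G V) {f : Sph → V} (hf : Continuous f)
    (hinj : Function.Injective f) (hd : ∀ t, f t ∈ L.dom) {A B : Set V} (hA : IsOpen A)
    (hB : IsOpen B) (hAB : Disjoint A B) (hcompl : (range f)ᶜ ⊆ A ∪ B)
    {W : Type} [Group W] (iA iB : G →* W) :
    ∃ L' : LS W V, L.dom ⊆ L'.dom ∧
      (∀ (T : Type) [TopologicalSpace T] (γ : T → V) (s : T → G), Continuous γ →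
        (∀ t, γ t ∈ A) → (∀ t, γ t ∈ L.dom) → L.Par γ s → L'.Par γ (fun t => iA (s t))) ∧
      (∀ (T : Type) [TopologicalSpace T] (γ : T → V) (s : T → G), Continuous γ →
        (∀ t, γ t ∈ B) → (∀ t, γ t ∈ L.dom) → L.Par γ s → L'.Par γ (fun t => iB (s t))) := by
  classical
  obtain ⟨N, ψ, hNo, hfN, hNd, hψ⟩ := L.exists_nbhd hf hinj hd
  let χ : V → W := fun y => if y ∈ A then iA (ψ y) else if y ∈ B then iB (ψ y) else 1
  have hχA : ∀ y ∈ A, χ y = iA (ψ y) := fun y hy => if_pos hy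
  have hχB : ∀ y ∈ B, χ y = iB (ψ y) := fun y hy => by
    have : y ∉ A := fun h => hAB.le_bot ⟨h, hy⟩
    show (if y ∈ A then iA (ψ y) else if y ∈ B then iB (ψ y) else 1) = iB (ψ y)
    rw [if_neg this, if_pos hy]
  have compatAN : ∀ i x, x ∈ L.U i ∩ A → x ∈ N →
      ∀ᶠ y in 𝓝 x, iA (L.φ i y) * (χ y)⁻¹ = iA (L.φ i x) * (χ x)⁻¹ := by
    intro i x hx hxN
    filter_upwards [hψ x hxN i hx.1, hA.mem_nhds hx.2] with y hy hyA
    rw [hχA y hyA, hχA x hx.2, ← map_inv, ← map_inv, ← map_mul, ← map_mul]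
    congr 1
    have := congrArg (·⁻¹) hy
    simpa using this
  have compatBN : ∀ i x, x ∈ L.U i ∩ B → x ∈ N →
      ∀ᶠ y in 𝓝 x, iB (L.φ i y) * (χ y)⁻¹ = iB (L.φ i x) * (χ x)⁻¹ := by
    intro i x hx hxN
    filter_upwards [hψ x hxN i hx.1, hB.mem_nhds hx.2] with y hy hyB
    rw [hχB y hyB, hχB x hx.2, ← map_inv, ← map_inv, ← map_mul, ← map_mul]
    congr 1
    have := congrArg (·⁻¹) hy
    simpa using this
  have inv_ev : ∀ (p q : V → W) (x : V), (∀ᶠ y in 𝓝 x, p y * (q y)⁻¹ = p x * (q x)⁻¹) →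
      ∀ᶠ y in 𝓝 x, q y * (p y)⁻¹ = q x * (p x)⁻¹ := by
    intro p q x h
    filter_upwards [h] with y hy
    have := congrArg (·⁻¹) hy
    simpa using this
  have compatAA : ∀ i j x, x ∈ L.U i ∩ A → x ∈ L.U j ∩ A →
      ∀ᶠ y in 𝓝 x, iA (L.φ i y) * (iA (L.φ j y))⁻¹ = iA (L.φ i x) * (iA (L.φ j x))⁻¹ := by
    intro i j x hx hx'
    filter_upwards [L.compat i j x hx.1 hx'.1] with y hy
    rw [← map_inv, ← map_inv, ← map_mul, ← map_mul, hy]
  have compatBB : ∀ i j x, x ∈ L.U i ∩ B → x ∈ L.U j ∩ B →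
      ∀ᶠ y in 𝓝 x, iB (L.φ i y) * (iB (L.φ j y))⁻¹ = iB (L.φ i x) * (iB (L.φ j x))⁻¹ := by
    intro i j x hx hx'
    filter_upwards [L.compat i j x hx.1 hx'.1] with y hy
    rw [← map_inv, ← map_inv, ← map_mul, ← map_mul, hy]
  let L' : LS W V :=
    { ι := L.ι ⊕ (L.ι ⊕ Unit)
      U := fun k => match k with
        | .inl i => L.U i ∩ A
        | .inr (.inl i) => L.U i ∩ B
        | .inr (.inr _) => N
      φ := fun k => match k with
        | .inl i => fun y => iA (L.φ i y)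
        | .inr (.inl i) => fun y => iB (L.φ i y)
        | .inr (.inr _) => χ
      isOpen_U := by
        rintro (i | i | _)
        · exact (L.isOpen_U i).inter hA
        · exact (L.isOpen_U i).inter hB
        · exact hNo
      compat := by
        rintro (i | i | _) (j | j | _) x hx hx'
        · exact compatAA i j x hx hx'
        · exact (hAB.le_bot ⟨hx.2, hx'.2⟩).elim
        · exact compatAN i x hx hx'
        · exact (hAB.le_bot ⟨hx'.2, hx.2⟩).elim
        · exact compatBB i j x hx hx'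
        · exact compatBN i x hx hx'
        · exact inv_ev _ _ _ (compatAN j x hx' hx)
        · exact inv_ev _ _ _ (compatBN j x hx' hx)
        · exact Eventually.of_forall fun y => by
            show χ y * (χ y)⁻¹ = χ x * (χ x)⁻¹
            simp }
  refine ⟨L', ?_, ?_, ?_⟩
  · intro x hx
    obtain ⟨i, hi⟩ := L.mem_dom.1 hx
    by_cases hxf : x ∈ range f
    · exact L'.mem_dom.2 ⟨.inr (.inr ()), hfN hxf⟩
    · rcases hcompl hxf with h | h
      · exact L'.mem_dom.2 ⟨.inl i, hi, h⟩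
      · exact L'.mem_dom.2 ⟨.inr (.inl i), hi, h⟩
  · intro T _ γ s hγ hγA hγd hs t k hk
    rcases k with i | i | _
    · filter_upwards [hs t i hk.1] with u hu
      show iA (s u) * (iA (L.φ i (γ u)))⁻¹ = iA (s t) * (iA (L.φ i (γ t)))⁻¹
      rw [← map_inv, ← map_inv, ← map_mul, ← map_mul, hu]
    · exact (hAB.le_bot ⟨hγA t, hk.2⟩).elim
    · have h1 := (LS.ParOn.par hψ (γ := fun u : {u // γ u ∈ N} => γ u) (by fun_prop) (fun u => u.2))
      obtain ⟨i, hi⟩ := L.mem_dom.1 (hγd t)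
      have h2 := hγ.continuousAt.eventually (hψ (γ t) hk i hi)
      filter_upwards [hs t i hi, h2] with u hu hu2
      show iA (s u) * (χ (γ u))⁻¹ = iA (s t) * (χ (γ t))⁻¹
      rw [hχA _ (hγA u), hχA _ (hγA t), ← map_inv, ← map_inv, ← map_mul, ← map_mul]
      congr 1
      have e1 : s u * (ψ (γ u))⁻¹ = (s u * (L.φ i (γ u))⁻¹) * (ψ (γ u) * (L.φ i (γ u))⁻¹)⁻¹ := by
        group
      have e2 : s t * (ψ (γ t))⁻¹ = (s t * (L.φ i (γ t))⁻¹) * (ψ (γ t) * (L.φ i (γ t))⁻¹)⁻¹ := by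
        group
      rw [e1, e2, hu, hu2]
  · intro T _ γ s hγ hγB hγd hs t k hk
    rcases k with i | i | _
    · exact (hAB.le_bot ⟨hk.2, hγB t⟩).elim
    · filter_upwards [hs t i hk.1] with u hu
      show iB (s u) * (iB (L.φ i (γ u)))⁻¹ = iB (s t) * (iB (L.φ i (γ t)))⁻¹
      rw [← map_inv, ← map_inv, ← map_mul, ← map_mul, hu]
    · obtain ⟨i, hi⟩ := L.mem_dom.1 (hγd t)
      have h2 := hγ.continuousAt.eventually (hψ (γ t) hk i hi)
      filter_upwards [hs t i hi, h2] with u hu hu2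
      show iB (s u) * (χ (γ u))⁻¹ = iB (s t) * (χ (γ t))⁻¹
      rw [hχB _ (hγB u), hχB _ (hγB t), ← map_inv, ← map_inv, ← map_mul, ← map_mul]
      congr 1
      have e1 : s u * (ψ (γ u))⁻¹ = (s u * (L.φ i (γ u))⁻¹) * (ψ (γ u) * (L.φ i (γ u))⁻¹)⁻¹ := by
        group
      have e2 : s t * (ψ (γ t))⁻¹ = (s t * (L.φ i (γ t))⁻¹) * (ψ (γ t) * (L.φ i (γ t))⁻¹)⁻¹ := by
        group
      rw [e1, e2, hu, hu2]

end Pool.Agent.H88.Nest
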