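import Pool.Agent.H88.Nest.Geo2

/-!
The limit map.
-/

set_option autoImplicit false

namespace Pool.Agent.H88.Nest

open Topology Filter Set

/-- The two contractions. -/
noncomputable def th1 (p : V3) : V3 := (3 + p.2.1 / 100, p.2.2 / 100, 2 + p.1 / 100)

lemma zo1_th1 (p : V3) : zo1 (th1 p) = p := by
  obtain ⟨x, y, z⟩ := p
  simp only [zo1, th1, Prod.mk.injEq]
  refine ⟨by ring, by ring, by ring⟩

lemma th1_zo1 (p : V3) : th1 (zo1 p) = p := by
  obtain ⟨x, y, z⟩ := p
  simp only [zo1, th1, Prod.mk.injEq]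
  refine ⟨by ring, by ring, by ring⟩

lemma zo2_eq (p : V3) : zo2 p = zo1 (sg p) := by
  obtain ⟨x, y, z⟩ := p
  simp only [zo1, zo2, sg, Prod.mk.injEq]
  refine ⟨trivial, by ring, trivial⟩

lemma dist_sg (p q : V3) : dist (sg p) (sg q) = dist p q := by
  rw [dist_V3, dist_V3]
  simp only [sg]
  rw [max_comm |p.2.2 - q.2.2|]
  congr 1
  rw [← abs_neg]; congr 1; ring

lemma dist_th1 (p q : V3) : dist (th1 p) (th1 q) = dist p q / 100 := by
  rw [dist_V3, dist_V3]
  simp only [th1]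
  have e : ∀ a b c : ℝ, |(c + a / 100) - (c + b / 100)| = |a - b| / 100 := by
    intro a b c
    rw [show (c + a / 100) - (c + b / 100) = (a - b) / 100 by ring, abs_div,
      abs_of_pos (by norm_num : (0 : ℝ) < 100)]
  have e' : ∀ a b : ℝ, |a / 100 - b / 100| = |a - b| / 100 := by
    intro a b
    rw [show a / 100 - b / 100 = (a - b) / 100 by ring, abs_div,
      abs_of_pos (by norm_num : (0 : ℝ) < 100)]
  rw [e, e, e']
  have h : ∀ a b : ℝ, max (a / 100) (b / 100) = max a b / 100 := fun a b =>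
    (max_div_div_right (by norm_num : (0 : ℝ) ≤ 100) a b)
  rw [h, h]
  congr 1
  rw [← max_assoc, max_comm]

/-- The zooms, indexed. -/
def zo (i : Bool) (p : V3) : V3 := if i then zo1 p else zo1 (sg p)

noncomputable def th (i : Bool) (p : V3) : V3 := if i then th1 p else sg (th1 p)

lemma zo_true (p : V3) : zo true p = zo1 p := rfl
lemma zo_false (p : V3) : zo false p = zo1 (sg p) := rfl

lemma zo_th (i : Bool) (p : V3) : zo i (th i p) = p := by
  cases i
  · show zo1 (sg (sg (th1 p))) = p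
    rw [sg_sg, zo1_th1]
  · exact zo1_th1 p

lemma th_zo (i : Bool) (p : V3) : th i (zo i p) = p := by
  cases i
  · show sg (th1 (zo1 (sg p))) = p
    rw [th1_zo1, sg_sg]
  · exact th1_zo1 p

lemma dist_th (i : Bool) (p q : V3) : dist (th i p) (th i q) = dist p q / 100 := by
  cases i
  · show dist (sg _) (sg _) = _
    rw [dist_sg, dist_th1]
  · exact dist_th1 p q

lemma continuous_zo (i : Bool) : Continuous (zo i) := by
  cases i
  · exact continuous_zo1.comp continuous_sg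
  · exact continuous_zo1

lemma continuous_th (i : Bool) : Continuous (th i) := by
  have h : Continuous th1 := by unfold th1; fun_prop
  cases i
  · exact continuous_sg.comp h
  · exact h

lemma zo1_Qs {p : V3} (h : zo1 p ∈ Qs) :
    |p.1 - 3| ≤ 8 / 100 ∧ |p.2.1| ≤ 8 / 100 ∧ |p.2.2 - 2| ≤ 10 / 100 := by
  obtain ⟨h1, h2, h3⟩ := h
  simp only [zo1] at h1 h2 h3
  rw [abs_le] at h1 h2 h3
  refine ⟨abs_le.2 ⟨?_, ?_⟩, abs_le.2 ⟨?_, ?_⟩, abs_le.2 ⟨?_, ?_⟩⟩ <;> linarith

lemma zo_lt {i : Bool} {p : V3} (h : zo i p ∈ Qs) : |p.1| < 8 := by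
  cases i
  · have := (zo1_Qs h).1
    simp only [sg] at this
    rw [abs_le] at this
    rw [abs_lt]; constructor <;> linarith
  · have := (zo1_Qs h).1
    rw [abs_le] at this
    rw [abs_lt]; constructor <;> linarith

lemma zo_sub {i : Bool} {p : V3} (h : zo i p ∈ Qs) : p ∈ Qs := by
  cases i
  · obtain ⟨h1, h2, h3⟩ := zo1_Qs h
    simp only [sg] at h1 h2 h3
    rw [abs_le] at h1 h2 h3
    refine ⟨abs_le.2 ⟨?_, ?_⟩, abs_le.2 ⟨?_, ?_⟩, abs_le.2 ⟨?_, ?_⟩⟩ <;> linarith
  · obtain ⟨h1, h2, h3⟩ := zo1_Qs h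
    rw [abs_le] at h1 h2 h3
    refine ⟨abs_le.2 ⟨?_, ?_⟩, abs_le.2 ⟨?_, ?_⟩, abs_le.2 ⟨?_, ?_⟩⟩ <;> linarith

lemma zo_disj {i : Bool} {p : V3} (h : zo i p ∈ Qs) : zo (!i) p ∉ Qs := by
  intro h'
  cases i
  · have h1 := (zo1_Qs h).1
    have h2 := (zo1_Qs h').1
    simp only [sg] at h1
    rw [abs_le] at h1 h2
    linarith
  · have h1 := (zo1_Qs h).1
    have h2 := (zo1_Qs h').1
    simp only [sg] at h2
    rw [abs_le] at h1 h2
    linarith

lemma zo_false_gg (p : V3) : zo false (gg p) = zo1 (gg (sg p)) := by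
  rw [gg_sg]; rfl

lemma sg_fst (p : V3) : (sg p).1 = -p.1 := rfl

/-- (A), (B) for both gaps. -/
lemma zgap_iff {i : Bool} {p : V3} (h : zo i (gg p) ∈ Qs) :
    (8 ≤ |p.1| ↔ 8 ≤ |(zo i (gg p)).1|) ∧ (8 < |p.1| ↔ 8 < |(zo i (gg p)).1|) ∧
      (8 ≤ |p.1| → if i then p.1 ≤ -8 else 8 ≤ p.1) := by
  cases i
  · rw [zo_false_gg] at h ⊢
    obtain ⟨h1, h2, h3⟩ := gap_iff h
    rw [sg_fst, abs_neg] at h1 h2 h3
    refine ⟨h1, h2, fun h => ?_⟩
    have := h3 h
    simp only [Bool.false_eq_true, if_false]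
    linarith
  · exact gap_iff h

lemma zgap_depth {i : Bool} {p : V3} (h : zo i (gg p) ∈ Qs) (hD : 8 ≤ |p.1|) :
    |p.1| - 8 ≤ 1 / 2 * (|(zo i (gg p)).1| - 8) := by
  cases i
  · rw [zo_false_gg] at h ⊢
    have := gap_depth h (by rw [sg_fst, abs_neg]; exact hD)
    rwa [sg_fst, abs_neg] at this
  · exact gap_depth h hD

lemma zgap_contr {i : Bool} {p q : V3} (hp : zo i (gg p) ∈ Qs) (hq : zo i (gg q) ∈ Qs)
    (hDp : 8 ≤ |p.1|) (hDq : 8 ≤ |q.1|) (hs : 0 ≤ (zo i (gg p)).1 * (zo i (gg q)).1) :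
    dist p q ≤ 1 / 2 * dist (zo i (gg p)) (zo i (gg q)) := by
  cases i
  · rw [zo_false_gg] at hp hq hs ⊢
    rw [zo_false_gg] at hs ⊢
    rw [← dist_sg]
    exact gap_contr hp hq (by rw [sg_fst, abs_neg]; exact hDp)
      (by rw [sg_fst, abs_neg]; exact hDq) hs
  · exact gap_contr hp hq hDp hDq hs

/-! ### the approximations -/

noncomputable def FF : ℕ → V3 → V3
  | 0 => id
  | n + 1 => fun p => th true (FF n (zo true (th false (FF n (zo false (gg p))))))

lemma continuous_FF (n : ℕ) : Continuous (FF n) := by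
  induction n with
  | zero => exact continuous_id
  | succ n ih =>
    exact (continuous_th true).comp (ih.comp ((continuous_zo true).comp
      ((continuous_th false).comp (ih.comp ((continuous_zo false).comp continuous_gg)))))

lemma FF_id (n : ℕ) : ∀ p, p ∉ Qs → FF n p = p := by
  induction n with
  | zero => exact fun p _ => rfl
  | succ n ih =>
    intro p hp
    show th true (FF n (zo true (th false (FF n (zo false (gg p)))))) = p
    rw [gg_id hp, ih _ (fun h => hp (zo_sub h)), th_zo, ih _ (fun h => hp (zo_sub h)), th_zo]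

lemma FF_mem (n : ℕ) : ∀ p, p ∈ Qs → FF n p ∈ Qs := by
  induction n with
  | zero => exact fun p h => h
  | succ n ih =>
    have key : ∀ i p, p ∈ Qs → th i (FF n (zo i p)) ∈ Qs := by
      intro i p hp
      by_cases h : zo i p ∈ Qs
      · have h1 := ih _ h
        apply zo_sub (i := i)
        rw [zo_th]; exact h1
      · rw [FF_id n _ h, th_zo]; exact hp
    intro p hp
    exact key true _ (key false _ (gg_mem_Qs.2 hp))

lemma FF_zo (n : ℕ) {i : Bool} {p : V3} (h : zo i (gg p) ∈ Qs) :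
    FF (n + 1) p = th i (FF n (zo i (gg p))) := by
  show th true (FF n (zo true (th false (FF n (zo false (gg p)))))) = _
  cases i
  · have h1 : zo false (th false (FF n (zo false (gg p)))) ∈ Qs := by
      rw [zo_th]; exact FF_mem n _ h
    have h2 : zo true (th false (FF n (zo false (gg p)))) ∉ Qs := zo_disj h1
    rw [FF_id n _ h2, th_zo]
  · rw [FF_id n (zo false (gg p)) (zo_disj h), th_zo]

lemma FF_out (n : ℕ) {p : V3} (h : ∀ i, zo i (gg p) ∉ Qs) : FF (n + 1) p = gg p := by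
  show th true (FF n (zo true (th false (FF n (zo false (gg p)))))) = _
  rw [FF_id n _ (h false), th_zo, FF_id n _ (h true), th_zo]

lemma dist_Qs {p q : V3} (hp : p ∈ Qs) (hq : q ∈ Qs) : dist p q ≤ 20 := by
  obtain ⟨h1, h2, h3⟩ := hp
  obtain ⟨k1, k2, k3⟩ := hq
  rw [abs_le] at h1 h2 h3 k1 k2 k3
  rw [dist_V3]
  refine max_le (abs_le.2 ⟨?_, ?_⟩) (max_le (abs_le.2 ⟨?_, ?_⟩) (abs_le.2 ⟨?_, ?_⟩)) <;> linarith

lemma FF_dist (n : ℕ) : ∀ p, dist (FF n p) (FF (n + 1) p) ≤ 20 * (1 / 100) ^ n := by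
  induction n with
  | zero =>
    intro p
    rw [pow_zero, mul_one]
    by_cases hp : p ∈ Qs
    · exact dist_Qs (FF_mem 0 _ hp) (FF_mem 1 _ hp)
    · rw [FF_id 0 p hp, FF_id 1 p hp, dist_self]; norm_num
  | succ n ih =>
    intro p
    by_cases h : ∃ i, zo i (gg p) ∈ Qs
    · obtain ⟨i, hi⟩ := h
      rw [FF_zo n hi, FF_zo (n + 1) hi, dist_th, pow_succ]
      have := ih (zo i (gg p))
      linarith
    · push Not at h
      rw [FF_out n h, FF_out (n + 1) h, dist_self]
      positivity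

lemma FF_cauchy (p : V3) : CauchySeq (fun n => FF n p) :=
  cauchySeq_of_le_geometric (1 / 100) 20 (by norm_num) (fun n => FF_dist n p)

/-- The limit map. -/
noncomputable def Fm (p : V3) : V3 := (cauchySeq_tendsto_of_complete (FF_cauchy p)).choose

lemma Fm_spec (p : V3) : Tendsto (fun n => FF n p) atTop (𝓝 (Fm p)) :=
  (cauchySeq_tendsto_of_complete (FF_cauchy p)).choose_spec

lemma Fm_dist (n : ℕ) (p : V3) : dist (FF n p) (Fm p) ≤ 20 * (1 / 100) ^ n / (1 - 1 / 100) :=
  dist_le_of_le_geometric_of_tendsto (1 / 100) 20 (by norm_num) (fun n => FF_dist n p)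
    (Fm_spec p) n

lemma tendsto_bound : Tendsto (fun n : ℕ => (20 : ℝ) * (1 / 100) ^ n / (1 - 1 / 100)) atTop (𝓝 0) := by
  have h : Tendsto (fun n : ℕ => ((1 : ℝ) / 100) ^ n) atTop (𝓝 0) :=
    tendsto_pow_atTop_nhds_zero_of_lt_one (by norm_num) (by norm_num)
  have := (h.const_mul 20).div_const (1 - 1 / 100)
  simpa using this

lemma continuous_Fm : Continuous Fm := by
  have hu : TendstoUniformly FF Fm atTop := by
    rw [Metric.tendstoUniformly_iff]
    intro ε hε
    filter_upwards [tendsto_bound.eventually (gt_mem_nhds hε)] with n hn p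
    rw [dist_comm]
    exact (Fm_dist n p).trans_lt hn
  exact hu.continuous (Frequently.of_forall continuous_FF)

lemma Fm_id {p : V3} (h : p ∉ Qs) : Fm p = p := by
  have h1 := Fm_spec p
  have h2 : (fun n => FF n p) = fun _ => p := funext fun n => FF_id n p h
  rw [h2] at h1
  exact tendsto_nhds_unique h1 tendsto_const_nhds

lemma Fm_mem {p : V3} (h : p ∈ Qs) : Fm p ∈ Qs :=
  isClosed_Qs.mem_of_tendsto (Fm_spec p) (Eventually.of_forall fun n => FF_mem n p h)

lemma Fm_mem_iff {p : V3} : Fm p ∈ Qs ↔ p ∈ Qs := by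
  constructor
  · intro h
    by_contra h'
    rw [Fm_id h'] at h
    exact h' h
  · exact Fm_mem

lemma Fm_zo {i : Bool} {p : V3} (h : zo i (gg p) ∈ Qs) : Fm p = th i (Fm (zo i (gg p))) := by
  have h1 := (Fm_spec p).comp (tendsto_add_atTop_nat 1)
  have h2 : Tendsto (fun n => th i (FF n (zo i (gg p)))) atTop (𝓝 (th i (Fm (zo i (gg p))))) :=
    ((continuous_th i).tendsto _).comp (Fm_spec _)
  have h3 : (fun n => FF n p) ∘ (fun n => n + 1) = fun n => th i (FF n (zo i (gg p))) :=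
    funext fun n => FF_zo n h
  rw [h3] at h1
  exact tendsto_nhds_unique h1 h2

lemma Fm_out {p : V3} (h : ∀ i, zo i (gg p) ∉ Qs) : Fm p = gg p := by
  have h1 := (Fm_spec p).comp (tendsto_add_atTop_nat 1)
  have h3 : (fun n => FF n p) ∘ (fun n => n + 1) = fun _ => gg p := funext fun n => FF_out n h
  rw [h3] at h1
  exact tendsto_nhds_unique h1 tendsto_const_nhds

/-- The gap of the image. -/
lemma Fm_gap {i : Bool} {p : V3} : zo i (Fm p) ∈ Qs ↔ zo i (gg p) ∈ Qs := by
  constructor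
  · intro h
    by_contra h'
    by_cases h2 : zo (!i) (gg p) ∈ Qs
    · rw [Fm_zo h2] at h
      have h3 : zo (!i) (th (!i) (Fm (zo (!i) (gg p)))) ∈ Qs := by
        rw [zo_th]; exact Fm_mem h2
      have := zo_disj h3
      rw [Bool.not_not] at this
      exact this h
    · have h4 : ∀ j, zo j (gg p) ∉ Qs := by
        intro j
        cases i <;> cases j <;> first | exact h' | exact h2
      rw [Fm_out h4] at h
      exact h' h
  · intro h
    rw [Fm_zo h, zo_th]
    exact Fm_mem h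

lemma FF_surjective (n : ℕ) : Function.Surjective (FF n) := by
  induction n with
  | zero => exact Function.surjective_id
  | succ n ih =>
    have ht : ∀ i, Function.Surjective (th i) := fun i p => ⟨zo i p, th_zo i p⟩
    have hz : ∀ i, Function.Surjective (zo i) := fun i p => ⟨th i p, zo_th i p⟩
    exact (ht true).comp (ih.comp ((hz true).comp ((ht false).comp (ih.comp
      ((hz false).comp gg_surjective)))))

lemma isCompact_Qs : IsCompact Qs := by
  apply Metric.isCompact_of_isClosed_isBounded isClosed_Qs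
  rw [Metric.isBounded_iff]
  exact ⟨20, fun p hp q hq => dist_Qs hp hq⟩

lemma Fm_surjective : Function.Surjective Fm := by
  intro y
  by_cases hy : y ∈ Qs
  · have hcl : IsClosed (Fm '' Qs) := (isCompact_Qs.image continuous_Fm).isClosed
    have hx : ∀ n, ∃ x ∈ Qs, FF n x = y := by
      intro n
      obtain ⟨x, hx⟩ := FF_surjective n y
      refine ⟨x, ?_, hx⟩
      by_contra h
      rw [FF_id n x h] at hx
      exact h (hx ▸ hy)
    choose x hxQ hx using hx
    have h1 : Tendsto (fun n => Fm (x n)) atTop (𝓝 y) := by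
      rw [tendsto_iff_dist_tendsto_zero]
      refine squeeze_zero (fun _ => dist_nonneg) (fun n => ?_) tendsto_bound
      have := Fm_dist n (x n)
      rw [hx n, dist_comm] at this
      exact this
    obtain ⟨p, -, hp⟩ := hcl.mem_of_tendsto h1 (Eventually.of_forall fun n => ⟨x n, hxQ n, rfl⟩)
    exact ⟨p, hp⟩
  · exact ⟨y, Fm_id hy⟩

lemma Fm_isClosedMap : IsClosedMap Fm := by
  intro C hC
  have h1 : Fm '' C = Fm '' (C ∩ Qs) ∪ (C ∩ closure Qsᶜ) := by
    have hid : ∀ p ∈ closure Qsᶜ, Fm p = p := by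
      intro p hp
      have hcl : IsClosed {p | Fm p = p} := isClosed_eq continuous_Fm continuous_id
      exact closure_minimal (fun q hq => Fm_id hq) hcl hp
    ext y
    constructor
    · rintro ⟨p, hp, rfl⟩
      by_cases h : p ∈ Qs
      · exact Or.inl ⟨p, ⟨hp, h⟩, rfl⟩
      · right
        rw [Fm_id h]
        exact ⟨hp, subset_closure h⟩
    · rintro (⟨p, hp, rfl⟩ | ⟨h1, h2⟩)
      · exact ⟨p, hp.1, rfl⟩
      · exact ⟨y, h1, hid y h2⟩
  rw [h1]
  exact ((isCompact_Qs.inter_left hC).image continuous_Fm).isClosed.union (hC.inter isClosed_closure)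

/-! ### injectivity -/

/-- Two points with the same image descend. -/
lemma Fm_descend {p q : V3} (h : Fm q = Fm p) (hne : q ≠ p) :
    p ∈ Qs ∧ q ∈ Qs ∧ ∃ i, zo i (gg p) ∈ Qs ∧ zo i (gg q) ∈ Qs ∧
      Fm (zo i (gg q)) = Fm (zo i (gg p)) ∧ zo i (gg q) ≠ zo i (gg p) := by
  have hp : p ∈ Qs := by
    by_contra hp
    rw [Fm_id hp] at h
    have hq : q ∉ Qs := fun hq => hp (h ▸ Fm_mem hq)
    rw [Fm_id hq] at h
    exact hne h
  have hq : q ∈ Qs := by
    rw [← Fm_mem_iff, h]; exact Fm_mem hp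
  refine ⟨hp, hq, ?_⟩
  by_cases h1 : ∃ i, zo i (gg p) ∈ Qs
  · obtain ⟨i, hi⟩ := h1
    have hi' : zo i (gg q) ∈ Qs := by
      rw [← Fm_gap, h, Fm_gap]; exact hi
    refine ⟨i, hi, hi', ?_, ?_⟩
    · have := h
      rw [Fm_zo hi, Fm_zo hi'] at this
      have h2 := congrArg (zo i) this
      rwa [zo_th, zo_th] at h2
    · intro h2
      have h3 := congrArg (th i) h2
      rw [th_zo, th_zo] at h3
      exact hne (gg_injective h3)
  · exfalso
    push Not at h1
    have h2 : ∀ i, zo i (gg q) ∉ Qs := by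
      intro i
      rw [← Fm_gap, h, Fm_gap]; exact h1 i
    rw [Fm_out h1, Fm_out h2] at h
    exact hne (gg_injective h)

/-- (E) -/
theorem Fm_escape {p q : V3} (hp : 8 < |p.1|) (h : Fm q = Fm p) : q = p := by
  have key : ∀ n : ℕ, ∀ p q : V3, 8 < |p.1| → Fm q = Fm p → q ≠ p →
      |p.1| - 8 ≤ 2 * (1 / 2) ^ n := by
    intro n
    induction n with
    | zero =>
      intro p q hp h hne
      have := (Fm_descend h hne).1.1
      rw [pow_zero]; linarith
    | succ n ih =>
      intro p q hp h hne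
      obtain ⟨-, -, i, hi, hi', h1, h2⟩ := Fm_descend h hne
      have h3 := (zgap_iff hi).2.1.1 hp
      have h4 := ih _ _ h3 h1 h2
      have h5 := zgap_depth hi hp.le
      rw [pow_succ]; linarith
  by_contra hne
  have h1 : Tendsto (fun n : ℕ => (2 : ℝ) * (1 / 2) ^ n) atTop (𝓝 0) := by
    have h : Tendsto (fun n : ℕ => ((1 : ℝ) / 2) ^ n) atTop (𝓝 0) :=
      tendsto_pow_atTop_nhds_zero_of_lt_one (by norm_num) (by norm_num)
    simpa using h.const_mul 2
  have h2 : |p.1| - 8 ≤ 0 := ge_of_tendsto' h1 (fun n => key n p q hp h hne)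
  linarith

lemma Fm_side {p q : V3} (hp : 8 ≤ |p.1|) (hq : 8 ≤ |q.1|) (h : Fm q = Fm p) :
    0 ≤ p.1 * q.1 := by
  by_cases hne : q = p
  · rw [hne]; exact mul_self_nonneg _
  · obtain ⟨-, -, i, hi, hi', -, -⟩ := Fm_descend h hne
    have h1 := (zgap_iff hi).2.2 hp
    have h2 := (zgap_iff hi').2.2 hq
    cases i
    · simp only [Bool.false_eq_true, if_false] at h1 h2
      exact mul_nonneg (by linarith) (by linarith)
    · simp only [if_true] at h1 h2
      exact mul_nonneg_of_nonpos_of_nonpos (by linarith) (by linarith)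

/-- Injectivity on the closed complement of the gap. -/
theorem Fm_inj {p q : V3} (hp : 8 ≤ |p.1|) (hq : 8 ≤ |q.1|) (h : Fm q = Fm p) : q = p := by
  have key : ∀ n : ℕ, ∀ p q : V3, 8 ≤ |p.1| → 8 ≤ |q.1| → Fm q = Fm p → q ≠ p →
      dist q p ≤ 20 * (1 / 2) ^ n := by
    intro n
    induction n with
    | zero =>
      intro p q _ _ h hne
      obtain ⟨h1, h2, -⟩ := Fm_descend h hne
      rw [pow_zero, mul_one]; exact dist_Qs h2 h1
    | succ n ih =>
      intro p q hp hq h hne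
      obtain ⟨-, -, i, hi, hi', h1, h2⟩ := Fm_descend h hne
      have h3 := (zgap_iff hi).1.1 hp
      have h3' := (zgap_iff hi').1.1 hq
      have h4 := ih _ _ h3 h3' h1 h2
      have h5 := zgap_contr hi' hi hq hp (by
        have := Fm_side h3 h3' h1
        rwa [mul_comm] at this)
      rw [pow_succ]; linarith
  by_contra hne
  have h1 : Tendsto (fun n : ℕ => (20 : ℝ) * (1 / 2) ^ n) atTop (𝓝 0) := by
    have h : Tendsto (fun n : ℕ => ((1 : ℝ) / 2) ^ n) atTop (𝓝 0) :=
      tendsto_pow_atTop_nhds_zero_of_lt_one (by norm_num) (by norm_num)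
    simpa using h.const_mul 20
  have h2 : dist q p ≤ 0 := ge_of_tendsto' h1 (fun n => key n p q hp hq h hne)
  exact hne (dist_le_zero.1 h2)

/-! ### the image of the solid part -/

/-- The solid part. -/
def DD : Set V3 := {p | 8 ≤ |p.1|}

lemma Fm_right {q : V3} (hq : 8 ≤ q.1) : ∃ p : V3, 8 ≤ p.1 ∧ Fm p = q := by
  obtain ⟨p, h1, h2⟩ := gg_right hq
  refine ⟨p, h1, ?_⟩
  rw [Fm_out, h2]
  intro i h
  rw [h2] at h
  have := zo_lt h
  rw [abs_lt] at this
  linarith

lemma Fm_left {q : V3} (hq : q.1 ≤ -8) : ∃ p : V3, p.1 ≤ -8 ∧ Fm p = q := by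
  obtain ⟨p, h1, h2⟩ := gg_left hq
  refine ⟨p, h1, ?_⟩
  rw [Fm_out, h2]
  intro i h
  rw [h2] at h
  have := zo_lt h
  rw [abs_lt] at this
  linarith

lemma DD_sub {q : V3} (h : q ∈ DD) : q ∈ Fm '' DD := by
  have h' : 8 ≤ |q.1| := h
  rcases le_abs.1 h' with h | h
  · obtain ⟨p, h1, h2⟩ := Fm_right h
    exact ⟨p, le_abs.2 (Or.inl h1), h2⟩
  · obtain ⟨p, h1, h2⟩ := Fm_left (q := q) (by linarith)
    exact ⟨p, (le_abs.2 (Or.inr (by linarith)) : 8 ≤ |p.1|), h2⟩

/-- Self-similarity of the image. -/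
lemma th_image {i : Bool} {q : V3} (h : q ∈ Fm '' DD) (hq : q ∈ Qs) : th i q ∈ Fm '' DD := by
  obtain ⟨p', hp', rfl⟩ := h
  have hp'Q : p' ∈ Qs := Fm_mem_iff.1 hq
  obtain ⟨p, hp⟩ := gg_surjective (th i p')
  have h1 : zo i (gg p) = p' := by rw [hp, zo_th]
  have h2 : zo i (gg p) ∈ Qs := by rw [h1]; exact hp'Q
  refine ⟨p, ?_, ?_⟩
  · exact (zgap_iff h2).1.2 (by rw [h1]; exact hp')
  · rw [Fm_zo h2, h1]

end Pool.Agent.H88.Nest
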