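import Pool.Agent.H88.Nest.Cfg

/-!
The transfer to Euclidean space.
-/

set_option autoImplicit false

namespace Pool.Agent.H88.Nest

open Topology Filter Set

/-- Euclidean space. -/
abbrev E3 : Type := EuclideanSpace ℝ (Fin 3)

/-- A linear chart. -/
noncomputable def hL : E3 ≃L[ℝ] V3 := ContinuousLinearEquiv.ofFinrankEq (by
  rw [finrank_euclideanSpace_fin]
  simp)

lemma hL_bdd {B : Set E3} : Bornology.IsBounded (hL '' B) ↔ Bornology.IsBounded B := by
  constructor
  · intro h
    have h1 := hL.symm.lipschitz.isBounded_image h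
    rwa [image_image, image_congr (g := id) (fun x _ => hL.symm_apply_apply x), image_id] at h1
  · intro h
    exact hL.lipschitz.isBounded_image h

lemma ins_iff (S : Set E3) (x : E3) :
    (x ∉ S ∧ Bornology.IsBounded (connectedComponentIn Sᶜ x)) ↔ hL x ∈ Ins (hL '' S) := by
  have hmem : hL x ∈ hL '' S ↔ x ∈ S := hL.injective.mem_set_image
  show _ ↔ (hL x ∉ hL '' S ∧ Bornology.IsBounded (connectedComponentIn (hL '' S)ᶜ (hL x)))
  rw [hmem]
  refine and_congr_right fun hx => ?_
  have h1 : hL '' connectedComponentIn Sᶜ x = connectedComponentIn (hL '' S)ᶜ (hL x) := by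
    have := hL.toHomeomorph.image_connectedComponentIn (s := Sᶜ) (x := x) hx
    rw [image_compl_eq hL.toHomeomorph.bijective] at this
    exact this
  rw [← h1, hL_bdd]

/-- The standard parametrisation of the cube. -/
noncomputable def io (R : ℝ) (x : Sph) : V3 := (R / ‖hL x‖) • hL x

lemma Sph_ne (x : Sph) : (x : E3) ≠ 0 := by
  intro h
  have := x.2
  rw [h] at this
  simp at this

lemma hL_pos (x : Sph) : 0 < ‖hL x‖ := by
  rw [norm_pos_iff]
  intro h
  exact Sph_ne x (hL.injective (by rw [h, map_zero]))

lemma norm_io {R : ℝ} (hR : 0 < R) (x : Sph) : ‖io R x‖ = R := by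
  have := hL_pos x
  rw [io, norm_smul, Real.norm_eq_abs, abs_of_pos (by positivity)]
  field_simp

lemma continuous_io (R : ℝ) : Continuous (io R) := by
  have h : Continuous (fun x : Sph => hL x) := hL.continuous.comp continuous_subtype_val
  exact (continuous_const.div h.norm (fun x => (hL_pos x).ne')).smul h

lemma io_injective {R : ℝ} (hR : 0 < R) : Function.Injective (io R) := by
  intro x y h
  have hx := hL_pos x
  have hy := hL_pos y
  simp only [io] at h
  rw [← map_smul, ← map_smul] at h
  have h1 : (R / ‖hL x‖) • (x : E3) = (R / ‖hL y‖) • (y : E3) := hL.injective h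
  have h2 := congrArg norm h1
  rw [norm_smul, norm_smul, Real.norm_eq_abs, Real.norm_eq_abs, abs_of_pos (by positivity),
    abs_of_pos (by positivity), mem_sphere_zero_iff_norm.1 x.2, mem_sphere_zero_iff_norm.1 y.2,
    mul_one, mul_one] at h2
  rw [h2] at h1
  exact Subtype.ext (smul_right_injective E3 (by positivity : R / ‖hL y‖ ≠ 0) h1)

lemma range_io {R : ℝ} (hR : 0 < R) : range (io R) = Metric.sphere 0 R := by
  apply subset_antisymm
  · rintro _ ⟨x, rfl⟩
    rw [mem_sphere_zero_iff_norm]; exact norm_io hR x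
  · intro q hq
    rw [mem_sphere_zero_iff_norm] at hq
    have hq0 : q ≠ 0 := by
      intro h; rw [h, norm_zero] at hq; linarith
    have hp : 0 < ‖hL.symm q‖ := by
      rw [norm_pos_iff]
      intro h
      exact hq0 (hL.symm.injective (by rw [h, map_zero]))
    refine ⟨⟨(‖hL.symm q‖)⁻¹ • hL.symm q, ?_⟩, ?_⟩
    · rw [mem_sphere_zero_iff_norm, norm_smul, norm_inv, norm_norm, inv_mul_cancel₀ hp.ne']
    · show (R / ‖hL ((‖hL.symm q‖)⁻¹ • hL.symm q)‖) • hL ((‖hL.symm q‖)⁻¹ • hL.symm q) = q
      rw [map_smul, hL.apply_symm_apply, norm_smul, norm_inv, norm_norm, hq, smul_smul]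
      have : R / (‖hL.symm q‖⁻¹ * R) * ‖hL.symm q‖⁻¹ = 1 := by field_simp
      rw [this, one_smul]

/-- The wild spheres. -/
noncomputable def WS (R : ℝ) (x : Sph) : E3 := hL.symm (Phi (io R x))

lemma continuous_WS (R : ℝ) : Continuous (WS R) :=
  hL.symm.continuous.comp (continuous_Phi.comp (continuous_io R))

lemma WS_injective {R : ℝ} (hR : Rad R) : Function.Injective (WS R) := by
  have hR0 : 0 < R := by linarith [hR.gt]
  intro x y h
  exact io_injective hR0 (Phi_inj_sphere hR (norm_io hR0 x) (norm_io hR0 y)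
    (hL.symm.injective h))

lemma hL_range {R : ℝ} (hR : 0 < R) : hL '' range (WS R) = Phi '' Metric.sphere 0 R := by
  rw [← range_comp, ← range_io hR, ← range_comp]
  congr 1
  funext x
  exact hL.apply_symm_apply _

theorem main : ¬ (∀ f₁ f₂ f₃ : Sph → E3,
        Continuous f₁ → Function.Injective f₁ →
        Continuous f₂ → Function.Injective f₂ →
        Continuous f₃ → Function.Injective f₃ →
        range f₃ ⊆ {x | x ∉ range f₂ ∧ Bornology.IsBounded (connectedComponentIn (range f₂)ᶜ x)} →
        range f₂ ⊆ {x | x ∉ range f₁ ∧ Bornology.IsBounded (connectedComponentIn (range f₁)ᶜ x)} →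
        ∃ f₄ : Sph → E3, Continuous f₄ ∧ Function.Injective f₄ ∧
          ((range f₄ ⊆
              {x | x ∉ range f₁ ∧ Bornology.IsBounded (connectedComponentIn (range f₁)ᶜ x)} ∧
            range f₂ ⊆
              {x | x ∉ range f₄ ∧ Bornology.IsBounded (connectedComponentIn (range f₄)ᶜ x)}) ∨
           (range f₄ ⊆
              {x | x ∉ range f₂ ∧ Bornology.IsBounded (connectedComponentIn (range f₂)ᶜ x)} ∧
            range f₃ ⊆
              {x | x ∉ range f₄ ∧ Bornology.IsBounded (connectedComponentIn (range f₄)ᶜ x)}))) := by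
  intro H
  have tr : ∀ f g : Sph → E3,
      range f ⊆ {x | x ∉ range g ∧ Bornology.IsBounded (connectedComponentIn (range g)ᶜ x)} ↔
        hL '' range f ⊆ Ins (hL '' range g) := by
    intro f g
    rw [image_subset_iff]
    constructor
    · intro h x hx
      exact (ins_iff _ _).1 (h hx)
    · intro h x hx
      exact (ins_iff _ _).2 (h hx)
  obtain ⟨f, hf, hinj, hcase⟩ := H (WS 42) (WS 26) (WS 10) (continuous_WS _)
    (WS_injective (Or.inr (Or.inr rfl))) (continuous_WS _) (WS_injective (Or.inr (Or.inl rfl)))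
    (continuous_WS _) (WS_injective (Or.inl rfl))
    (by rw [tr, hL_range (by norm_num), hL_range (by norm_num)]; exact nested_in)
    (by rw [tr, hL_range (by norm_num), hL_range (by norm_num)]; exact nested_out)
  have hc : Continuous (hL ∘ f) := hL.continuous.comp hf
  have hi : Function.Injective (hL ∘ f) := hL.injective.comp hinj
  rcases hcase with ⟨h1, h2⟩ | ⟨h1, h2⟩
  · rw [tr, hL_range (by norm_num), ← range_comp] at h1 h2
    exact no_between_out hc hi h1 h2
  · rw [tr, hL_range (by norm_num), ← range_comp] at h1 h2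
    exact no_between_in hc hi h1 h2

end Pool.Agent.H88.Nest
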