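import Pool.Agent.H88.Nest.Rel

/-!
The elementary move: two hooked pairs of horns.
-/

set_option autoImplicit false

namespace Pool.Agent.H88.Nest

open Topology Filter Set

noncomputable section

/-- The radius about the two horns. -/
def rho (y z : ℝ) : ℝ := max |y| |(|z - 2| - 5)|
def bb (y z : ℝ) : ℝ := max 0 (min 1 (2 - 2 * rho y z))
def cc (x : ℝ) : ℝ := max 0 (min (6 * (x + 10)) (6 / 7 * (6 - x)))
def s1 (p : V3) : V3 := (p.1 + bb p.2.1 p.2.2 * cc p.1, p.2.1, p.2.2)

def dd (x y : ℝ) : ℝ := max 0 (min 1 (2 - 2 * max |x - 3| |y|))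
def ee (x : ℝ) : ℝ := 4 + (x + 8) / 24
def AA (x t : ℝ) : ℝ := max 0 (min (ee x - 8 / 100) (9 * (11 / 2 - t)))
def kk (x t : ℝ) : ℝ := max (-AA x (-t)) (min (99 / 100 * t) (AA x t))
def s2 (p : V3) : V3 := (p.1, p.2.1, p.2.2 - dd p.1 p.2.1 * kk p.1 (p.2.2 - 2))

def gL (p : V3) : V3 := s2 (s1 p)

def sg (p : V3) : V3 := (-p.1, p.2.2, p.2.1)

def gR (p : V3) : V3 := sg (gL (sg p))

/-- The elementary move. -/
def gg (p : V3) : V3 := gR (gL p)

lemma sg_sg (p : V3) : sg (sg p) = p := by simp [sg]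

lemma continuous_sg : Continuous sg := by unfold sg; fun_prop
lemma continuous_s1 : Continuous s1 := by unfold s1 bb cc rho; fun_prop
lemma continuous_s2 : Continuous s2 := by unfold s2 dd kk AA ee; fun_prop
lemma continuous_gL : Continuous gL := continuous_s2.comp continuous_s1
lemma continuous_gR : Continuous gR := continuous_sg.comp (continuous_gL.comp continuous_sg)
lemma continuous_gg : Continuous gg := continuous_gR.comp continuous_gL

/-! ### one-dimensional facts -/

lemma bb_mem (y z : ℝ) : 0 ≤ bb y z ∧ bb y z ≤ 1 :=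
  ⟨le_max_left _ _, max_le zero_le_one (min_le_left _ _)⟩

lemma dd_mem (x y : ℝ) : 0 ≤ dd x y ∧ dd x y ≤ 1 :=
  ⟨le_max_left _ _, max_le zero_le_one (min_le_left _ _)⟩

lemma cc_nonneg (x : ℝ) : 0 ≤ cc x := le_max_left _ _

lemma cc_le (x : ℝ) : cc x ≤ 12 := by
  unfold cc
  apply max_le (by norm_num)
  rcases le_total x (-8) with h | h
  · exact (min_le_left _ _).trans (by linarith)
  · exact (min_le_right _ _).trans (by linarith)

/-- slope bound for `cc`. -/
lemma cc_slope {x x' : ℝ} (h : x ≤ x') : cc x - 6 / 7 * (x' - x) ≤ cc x' := by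
  unfold cc
  rcases le_total (min (6 * (x + 10)) (6 / 7 * (6 - x))) 0 with h1 | h1
  · rw [max_eq_left h1]
    exact (by linarith : (0 : ℝ) - 6 / 7 * (x' - x) ≤ 0).trans (le_max_left _ _)
  · rw [max_eq_right h1]
    apply le_max_of_le_right
    apply le_min
    · have := min_le_left (6 * (x + 10)) (6 / 7 * (6 - x)); linarith
    · have := min_le_right (6 * (x + 10)) (6 / 7 * (6 - x)); linarith

lemma cc_left {x : ℝ} (h1 : -10 ≤ x) (h2 : x ≤ -8) : cc x = 6 * (x + 10) := by
  unfold cc
  rw [min_eq_left (by linarith), max_eq_right (by linarith)]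

lemma cc_zero {x : ℝ} (h : x ≤ -10 ∨ 6 ≤ x) : cc x = 0 := by
  unfold cc
  rcases h with h | h
  · exact max_eq_left ((min_le_left _ _).trans (by linarith))
  · exact max_eq_left ((min_le_right _ _).trans (by linarith))

/-- strict monotonicity in the first variable. -/
lemma X_strict {b x x' : ℝ} (hb0 : 0 ≤ b) (hb : b ≤ 1) (h : x < x') :
    x + b * cc x < x' + b * cc x' := by
  have h1 := cc_slope h.le
  nlinarith

lemma X_surj {b : ℝ} (hb0 : 0 ≤ b) (hb : b ≤ 1) (y : ℝ) : ∃ x, x + b * cc x = y := by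
  have hc : Continuous (fun x => x + b * cc x) := by unfold cc; fun_prop
  have h1 : Tendsto (fun x => x + b * cc x) atTop atTop := by
    apply tendsto_atTop_mono (f := fun x => x) _ tendsto_id
    intro x
    have := cc_nonneg x
    nlinarith
  have h2 : Tendsto (fun x => x + b * cc x) atBot atBot := by
    have h3 : Tendsto (fun x : ℝ => x + 12) atBot atBot :=
      tendsto_atBot_add_const_right _ _ tendsto_id
    refine tendsto_atBot_mono (fun x => ?_) h3
    have := cc_nonneg x
    have := cc_le x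
    nlinarith
  exact hc.surjective h1 h2 y

lemma AA_nonneg (x t : ℝ) : 0 ≤ AA x t := le_max_left _ _

lemma AA_anti (x : ℝ) {t t' : ℝ} (h : t ≤ t') : AA x t' ≤ AA x t := by
  unfold AA
  exact max_le_max le_rfl (min_le_min le_rfl (by linarith))

/-- slope bound for `kk`. -/
lemma kk_slope (x : ℝ) {t t' : ℝ} (h : t ≤ t') : kk x t' ≤ kk x t + 99 / 100 * (t' - t) := by
  unfold kk
  apply max_le
  · have h1 := AA_anti x (neg_le_neg h)
    have h2 := le_max_left (-AA x (-t)) (min (99 / 100 * t) (AA x t))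
    linarith
  · rcases le_total (99 / 100 * t) (AA x t) with h1 | h1
    · have h2 := le_max_right (-AA x (-t)) (min (99 / 100 * t) (AA x t))
      rw [min_eq_left h1] at h2
      rw [min_eq_left h1]
      have h3 := min_le_left (99 / 100 * t') (AA x t')
      linarith
    · have h2 := le_max_right (-AA x (-t)) (min (99 / 100 * t) (AA x t))
      rw [min_eq_right h1] at h2
      rw [min_eq_right h1]
      have h3 := min_le_right (99 / 100 * t') (AA x t')
      have h4 := AA_anti x h
      linarith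

lemma kk_neg (x t : ℝ) : kk x (-t) = -kk x t := by
  unfold kk
  rw [neg_neg]
  have hA := AA_nonneg x t
  have hA' := AA_nonneg x (-t)
  rcases le_total 0 t with h | h
  · have e1 : min (99 / 100 * -t) (AA x (-t)) = 99 / 100 * -t := min_eq_left (by linarith)
    have e2 : max (-AA x (-t)) (min (99 / 100 * t) (AA x t)) = min (99 / 100 * t) (AA x t) :=
      max_eq_right ((neg_nonpos.2 hA').trans (le_min (by linarith) hA))
    rw [e1, e2]
    rw [show (99 / 100 * -t : ℝ) = -(99 / 100 * t) by ring, max_neg_neg, min_comm]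
  · have e1 : min (99 / 100 * t) (AA x t) = 99 / 100 * t := min_eq_left (by linarith)
    have e2 : max (-AA x t) (min (99 / 100 * -t) (AA x (-t))) = min (99 / 100 * -t) (AA x (-t)) :=
      max_eq_right ((neg_nonpos.2 hA).trans (le_min (by linarith) hA'))
    rw [e1, e2]
    rw [show (99 / 100 * t : ℝ) = -(99 / 100 * -t) by ring, max_neg_neg, neg_neg, min_comm]

lemma kk_nonneg {x t : ℝ} (h : 0 ≤ t) : 0 ≤ kk x t := by
  unfold kk
  exact le_max_of_le_right (le_min (by linarith) (AA_nonneg _ _))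

lemma kk_le {x t : ℝ} (h : 0 ≤ t) : kk x t ≤ 99 / 100 * t ∧ kk x t ≤ AA x t := by
  unfold kk
  have hA := AA_nonneg x t
  have hA' := AA_nonneg x (-t)
  constructor
  · exact max_le (by linarith) (min_le_left _ _)
  · exact max_le (by linarith) (min_le_right _ _)

lemma kk_eq {x t : ℝ} (h : 0 ≤ t) : kk x t = min (99 / 100 * t) (AA x t) := by
  unfold kk
  have hA := AA_nonneg x t
  have hA' := AA_nonneg x (-t)
  exact max_eq_right ((neg_nonpos.2 hA').trans (le_min (by linarith) hA))

/-- the move in the third variable -/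
def ZZ (d x t : ℝ) : ℝ := t - d * kk x t

lemma ZZ_strict {d x t t' : ℝ} (hd0 : 0 ≤ d) (hd : d ≤ 1) (h : t < t') : ZZ d x t < ZZ d x t' := by
  unfold ZZ
  have h1 := kk_slope x h.le
  nlinarith

lemma ZZ_neg (d x t : ℝ) : ZZ d x (-t) = -ZZ d x t := by
  unfold ZZ; rw [kk_neg]; ring

lemma ZZ_surj {d x : ℝ} (hd0 : 0 ≤ d) (hd : d ≤ 1) (y : ℝ) : ∃ t, ZZ d x t = y := by
  have hc : Continuous (fun t => ZZ d x t) := by unfold ZZ kk AA ee; fun_prop
  have hb : ∀ t, |kk x t| ≤ |ee x - 8 / 100| := by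
    intro t
    have key : ∀ t, 0 ≤ t → |kk x t| ≤ |ee x - 8 / 100| := by
      intro t ht
      rw [abs_of_nonneg (kk_nonneg ht)]
      refine (kk_le ht).2.trans ?_
      unfold AA
      apply max_le (abs_nonneg _)
      exact (min_le_left _ _).trans (le_abs_self _)
    rcases le_total 0 t with h | h
    · exact key t h
    · have := key (-t) (by linarith)
      rwa [kk_neg, abs_neg] at this
  have h1 : Tendsto (fun t => ZZ d x t) atTop atTop := by
    apply tendsto_atTop_mono (f := fun t => t + -|ee x - 8 / 100|) _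
      (tendsto_atTop_add_const_right _ _ tendsto_id)
    intro t
    have h2 := (abs_le.1 (hb t)).2
    have h3 := abs_nonneg (ee x - 8 / 100)
    unfold ZZ
    nlinarith
  have h2 : Tendsto (fun t => ZZ d x t) atBot atBot := by
    have h4 : Tendsto (fun t : ℝ => t + |ee x - 8 / 100|) atBot atBot :=
      tendsto_atBot_add_const_right _ _ tendsto_id
    refine tendsto_atBot_mono (fun t => ?_) h4
    have h2 := (abs_le.1 (hb t)).1
    have h3 := abs_nonneg (ee x - 8 / 100)
    unfold ZZ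
    nlinarith
  exact hc.surjective h1 h2 y

lemma ZZ_id {d x t : ℝ} (h : 11 / 2 ≤ |t|) : ZZ d x t = t := by
  have key : ∀ t, 11 / 2 ≤ t → ZZ d x t = t := by
    intro t ht
    have : kk x t = 0 := by
      apply le_antisymm _ (kk_nonneg (by linarith))
      refine (kk_le (by linarith)).2.trans ?_
      unfold AA
      exact max_le le_rfl ((min_le_right _ _).trans (by linarith))
    unfold ZZ; rw [this]; ring
  rcases le_abs.1 h with h | h
  · exact key t h
  · have := key (-t) h
    rw [ZZ_neg] at this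
    linarith

lemma ZZ_nonneg {d x t : ℝ} (hd0 : 0 ≤ d) (hd : d ≤ 1) (h : 0 ≤ t) : 0 ≤ ZZ d x t := by
  unfold ZZ
  have := (kk_le (x := x) h).1
  have := kk_nonneg (x := x) h
  nlinarith

lemma ZZ_abs {d x t : ℝ} (hd0 : 0 ≤ d) (hd : d ≤ 1) : |ZZ d x t| = ZZ d x |t| := by
  rcases le_total 0 t with h | h
  · rw [abs_of_nonneg h, abs_of_nonneg (ZZ_nonneg hd0 hd h)]
  · rw [abs_of_nonpos h, ZZ_neg]
    have := ZZ_nonneg (d := d) (x := x) hd0 hd (neg_nonneg.2 h)
    rw [ZZ_neg] at this
    rw [abs_of_nonpos (by linarith)]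

lemma ZZ_abs_le {d x t : ℝ} (hd0 : 0 ≤ d) (hd : d ≤ 1) : |ZZ d x t| ≤ |t| := by
  rw [ZZ_abs hd0 hd]
  unfold ZZ
  have := kk_nonneg (x := x) (abs_nonneg t)
  nlinarith

lemma ZZ_abs_lt_iff {d x t t' : ℝ} (hd0 : 0 ≤ d) (hd : d ≤ 1) (ht' : 0 ≤ t') :
    |ZZ d x t| < ZZ d x t' ↔ |t| < t' := by
  rw [ZZ_abs hd0 hd]
  constructor
  · intro h
    by_contra h'
    rcases eq_or_lt_of_le (not_lt.1 h') with h2 | h2
    · rw [h2] at h; exact lt_irrefl _ h
    · exact absurd (ZZ_strict hd0 hd h2) (not_lt.2 h.le)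
  · exact fun h => ZZ_strict hd0 hd h

/-- Values near the plateau: for `d = 1`. -/
lemma kk_plateau {x t : ℝ} (hx : |x - 3| ≤ 1) (h1 : ee x ≤ t) (h2 : t ≤ 5) :
    kk x t = ee x - 8 / 100 := by
  rw [abs_le] at hx
  have he : ee x = 4 + (x + 8) / 24 := rfl
  rw [kk_eq (by rw [he] at h1; linarith)]
  have hA : AA x t = ee x - 8 / 100 := by
    unfold AA
    rw [min_eq_left (by rw [he]; linarith), max_eq_right (by rw [he]; linarith)]
  rw [hA]
  apply min_eq_right
  rw [he] at h1 ⊢
  linarith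

lemma ZZ_ee {x : ℝ} (hx : |x - 3| ≤ 1) : ZZ 1 x (ee x) = 8 / 100 := by
  unfold ZZ
  have he : ee x = 4 + (x + 8) / 24 := rfl
  rw [kk_plateau hx le_rfl (by rw [abs_le] at hx; rw [he]; linarith)]
  ring

end

end Pool.Agent.H88.Nest
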