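import Pool.Agent.H88.Nest.Sphere
import Pool.Agent.H88.Nest.Rel

/-!
The flat structures on the complement of the finite stages.
-/

set_option autoImplicit false

namespace Pool.Agent.H88.Nest

open Topology Filter Set

/-- The two zooms. -/
def zo1 (p : V3) : V3 := (100 * (p.2.2 - 2), 100 * (p.1 - 3), 100 * p.2.1)
def zo2 (p : V3) : V3 := (100 * (p.2.1 - 2), -100 * (p.1 + 3), 100 * p.2.2)

lemma continuous_zo1 : Continuous zo1 := by unfold zo1; fun_prop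
lemma continuous_zo2 : Continuous zo2 := by unfold zo2; fun_prop

/-- The domain of the unit. -/
def Om : Set V3 := {p | |p.1| < 8 ∧ |p.2.1| < 75 ∧ |p.2.2| < 75}

/-- The closed inner box. -/
def Qc : Set V3 := {p | |p.1| ≤ 8 ∧ |p.2.1| ≤ 8 ∧ |p.2.2| ≤ 8}

lemma isOpen_Om : IsOpen Om := by
  have h1 : IsOpen {p : V3 | |p.1| < 8} := isOpen_lt (by fun_prop) (by fun_prop)
  have h2 : IsOpen {p : V3 | |p.2.1| < 75} := isOpen_lt (by fun_prop) (by fun_prop)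
  have h3 : IsOpen {p : V3 | |p.2.2| < 75} := isOpen_lt (by fun_prop) (by fun_prop)
  exact h1.inter (h2.inter h3)

lemma isClosed_Qc : IsClosed Qc := by
  have h1 : IsClosed {p : V3 | |p.1| ≤ 8} := isClosed_le (by fun_prop) (by fun_prop)
  have h2 : IsClosed {p : V3 | |p.2.1| ≤ 8} := isClosed_le (by fun_prop) (by fun_prop)
  have h3 : IsClosed {p : V3 | |p.2.2| ≤ 8} := isClosed_le (by fun_prop) (by fun_prop)
  exact h1.inter (h2.inter h3)

/-- left hole / outside of the left ring (as subsets of the plane `y = 0`). -/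
def inL : Set V3 := {p | p.1 < 5 / 2 ∧ |p.2.2 - 2| < 9 / 2}
def outL : Set V3 := {p | 11 / 2 < |p.2.2 - 2| ∨ 7 / 2 < p.1}
def inR : Set V3 := {p | -5 / 2 < p.1 ∧ |p.2.1 - 2| < 9 / 2}
def outR : Set V3 := {p | 11 / 2 < |p.2.1 - 2| ∨ p.1 < -7 / 2}

/-- The ambient set of the parent's charts. -/
def Amb : Set V3 := Om ∩ ((zo1 ⁻¹' Qc)ᶜ ∩ (zo2 ⁻¹' Qc)ᶜ)

lemma isOpen_Amb : IsOpen Amb :=
  isOpen_Om.inter ((isClosed_Qc.preimage continuous_zo1).isOpen_compl.inter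
    (isClosed_Qc.preimage continuous_zo2).isOpen_compl)

inductive C5 | s0 | s1 | s2 | s3 | s5

def Sch : C5 → Set V3
  | .s0 => {p | p.2.2 ≠ 0 ∧ (p.2.1 ≠ 0 ∨ p ∈ outL)}
  | .s1 => {p | p ∈ inR ∧ (p.2.1 ≠ 0 ∨ 7 / 2 < p.1)}
  | .s2 => {p | p ∈ inL ∧ p ∈ inR}
  | .s3 => {p | p ∈ inL ∧ (p.2.2 ≠ 0 ∨ p.1 < -7 / 2)}
  | .s5 => {p | p ∈ outR ∧ p.2.1 ≠ 0}

lemma isOpen_inL : IsOpen inL := by
  have h1 : IsOpen {p : V3 | p.1 < 5 / 2} := isOpen_lt (by fun_prop) (by fun_prop)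
  have h2 : IsOpen {p : V3 | |p.2.2 - 2| < 9 / 2} := isOpen_lt (by fun_prop) (by fun_prop)
  exact h1.inter h2
lemma isOpen_inR : IsOpen inR := by
  have h1 : IsOpen {p : V3 | -5 / 2 < p.1} := isOpen_lt (by fun_prop) (by fun_prop)
  have h2 : IsOpen {p : V3 | |p.2.1 - 2| < 9 / 2} := isOpen_lt (by fun_prop) (by fun_prop)
  exact h1.inter h2
lemma isOpen_outL : IsOpen outL := by
  have h1 : IsOpen {p : V3 | 11 / 2 < |p.2.2 - 2|} := isOpen_lt (by fun_prop) (by fun_prop)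
  have h2 : IsOpen {p : V3 | 7 / 2 < p.1} := isOpen_lt (by fun_prop) (by fun_prop)
  exact h1.union h2
lemma isOpen_outR : IsOpen outR := by
  have h1 : IsOpen {p : V3 | 11 / 2 < |p.2.1 - 2|} := isOpen_lt (by fun_prop) (by fun_prop)
  have h2 : IsOpen {p : V3 | p.1 < -7 / 2} := isOpen_lt (by fun_prop) (by fun_prop)
  exact h1.union h2

lemma isOpen_Sch (i : C5) : IsOpen (Sch i) := by
  have hy : IsOpen {p : V3 | p.2.1 ≠ 0} := isOpen_ne_fun (by fun_prop) (by fun_prop)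
  have hz : IsOpen {p : V3 | p.2.2 ≠ 0} := isOpen_ne_fun (by fun_prop) (by fun_prop)
  have hx : IsOpen {p : V3 | 7 / 2 < p.1} := isOpen_lt (by fun_prop) (by fun_prop)
  have hx' : IsOpen {p : V3 | p.1 < -7 / 2} := isOpen_lt (by fun_prop) (by fun_prop)
  cases i
  · exact hz.inter (hy.union isOpen_outL)
  · exact isOpen_inR.inter (hy.union hx)
  · exact isOpen_inL.inter isOpen_inR
  · exact isOpen_inL.inter (hz.union hx')
  · exact isOpen_outR.inter hy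

section

variable {G : Type} [Group G]

/-- The label of the waist. -/
def lab (a b : G) : G := a⁻¹ * b * a * b⁻¹

open Classical in
/-- The frames. -/
noncomputable def fch (a b : G) : C5 → V3 → G
  | .s0 => fun _ => 1
  | .s1 => fun p => if p.2.2 < 0 then b⁻¹ else 1
  | .s2 => fun p => (if p.2.1 < 0 then a else 1) * (if p.2.2 < 0 then b⁻¹ else 1)
  | .s3 => fun p => if p.2.1 < 0 then (if p.2.2 < 0 then b * a * b⁻¹ else a) else 1
  | .s5 => fun p => if p.2.1 < 0 then (if p.2.2 < 0 then lab a b else 1) else 1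

/-- Compatibility of frames at a point. -/
def Cmp (f g : V3 → G) (p : V3) : Prop := ∀ᶠ q in 𝓝 p, f q * (g q)⁻¹ = f p * (g p)⁻¹

lemma Cmp.refl (f : V3 → G) (p : V3) : Cmp f f p := Eventually.of_forall fun q => by simp

lemma Cmp.symm {f g : V3 → G} {p : V3} (h : Cmp f g p) : Cmp g f p := by
  filter_upwards [h] with q hq
  have := congrArg (·⁻¹) hq
  simpa using this

lemma Cmp.trans {f g h : V3 → G} {p : V3} (h1 : Cmp f g p) (h2 : Cmp g h p) : Cmp f h p := by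
  filter_upwards [h1, h2] with q hq hq'
  have e1 : f q * (h q)⁻¹ = (f q * (g q)⁻¹) * (g q * (h q)⁻¹) := by group
  have e2 : f p * (h p)⁻¹ = (f p * (g p)⁻¹) * (g p * (h p)⁻¹) := by group
  rw [e1, e2, hq, hq']

lemma ev_y {p : V3} (h : p.2.1 ≠ 0) : ∀ᶠ q : V3 in 𝓝 p, (q.2.1 < 0 ↔ p.2.1 < 0) := by
  rcases lt_or_gt_of_ne h with h | h
  · have : ∀ᶠ q : V3 in 𝓝 p, q.2.1 < 0 :=
      (isOpen_lt (f := fun q : V3 => q.2.1) (by fun_prop) continuous_const).mem_nhds h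
    filter_upwards [this] with q hq
    simp [hq, h]
  · have : ∀ᶠ q : V3 in 𝓝 p, 0 < q.2.1 :=
      (isOpen_lt (g := fun q : V3 => q.2.1) continuous_const (by fun_prop)).mem_nhds h
    filter_upwards [this] with q hq
    exact ⟨fun h' => absurd h' (not_lt.2 hq.le), fun h' => absurd h' (not_lt.2 h.le)⟩

lemma ev_z {p : V3} (h : p.2.2 ≠ 0) : ∀ᶠ q : V3 in 𝓝 p, (q.2.2 < 0 ↔ p.2.2 < 0) := by
  rcases lt_or_gt_of_ne h with h | h
  · have : ∀ᶠ q : V3 in 𝓝 p, q.2.2 < 0 :=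
      (isOpen_lt (f := fun q : V3 => q.2.2) (by fun_prop) continuous_const).mem_nhds h
    filter_upwards [this] with q hq
    simp [hq, h]
  · have : ∀ᶠ q : V3 in 𝓝 p, 0 < q.2.2 :=
      (isOpen_lt (g := fun q : V3 => q.2.2) continuous_const (by fun_prop)).mem_nhds h
    filter_upwards [this] with q hq
    exact ⟨fun h' => absurd h' (not_lt.2 hq.le), fun h' => absurd h' (not_lt.2 h.le)⟩

/-- Away from both planes every frame is locally constant. -/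
lemma Cmp.of_ne {a b : G} (i j : C5) {p : V3} (hy : p.2.1 ≠ 0) (hz : p.2.2 ≠ 0) :
    Cmp (fch a b i) (fch a b j) p := by
  filter_upwards [ev_y hy, ev_z hz] with q hqy hqz
  cases i <;> cases j <;> simp only [fch, hqy, hqz]

/-- Away from `y = 0`, it is enough to check the jump across `z = 0`. -/
lemma Cmp.of_y {f g : V3 → G} {p : V3} (hy : p.2.1 ≠ 0)
    (h : ∀ q : V3, (q.2.1 < 0 ↔ p.2.1 < 0) → f q * (g q)⁻¹ = f p * (g p)⁻¹) : Cmp f g p := by
  filter_upwards [ev_y hy] with q hq using h q hq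

lemma Cmp.of_z {f g : V3 → G} {p : V3} (hz : p.2.2 ≠ 0)
    (h : ∀ q : V3, (q.2.2 < 0 ↔ p.2.2 < 0) → f q * (g q)⁻¹ = f p * (g p)⁻¹) : Cmp f g p := by
  filter_upwards [ev_z hz] with q hq using h q hq

lemma cmp_ch (a b : G) (i j : C5) {p : V3} (hi : p ∈ Sch i) (hj : p ∈ Sch j) :
    Cmp (fch a b i) (fch a b j) p := by
  -- the ten unordered pairs
  have h01 : p ∈ Sch .s0 → p ∈ Sch .s1 → Cmp (fch a b .s0) (fch a b .s1) p := by
    rintro ⟨h1, -⟩ -
    refine Cmp.of_z h1 fun q hq => ?_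
    simp only [fch, hq]
  have h02 : p ∈ Sch .s0 → p ∈ Sch .s2 → Cmp (fch a b .s0) (fch a b .s2) p := by
    rintro ⟨h1, h2⟩ ⟨⟨h3, h4⟩, -⟩
    refine Cmp.of_ne _ _ (h2.resolve_right ?_) h1
    rintro (h | h) <;> linarith
  have h03 : p ∈ Sch .s0 → p ∈ Sch .s3 → Cmp (fch a b .s0) (fch a b .s3) p := by
    rintro ⟨h1, h2⟩ ⟨⟨h3, h4⟩, -⟩
    refine Cmp.of_ne _ _ (h2.resolve_right ?_) h1
    rintro (h | h) <;> linarith
  have h05 : p ∈ Sch .s0 → p ∈ Sch .s5 → Cmp (fch a b .s0) (fch a b .s5) p := by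
    rintro ⟨h1, -⟩ ⟨-, h2⟩
    exact Cmp.of_ne _ _ h2 h1
  have h12 : p ∈ Sch .s1 → p ∈ Sch .s2 → Cmp (fch a b .s1) (fch a b .s2) p := by
    rintro ⟨-, h1⟩ ⟨⟨h2, -⟩, -⟩
    have hy : p.2.1 ≠ 0 := h1.resolve_right (by intro h; linarith)
    refine Cmp.of_y hy fun q hq => ?_
    simp only [fch, hq]
    split_ifs <;> group
  have h13 : p ∈ Sch .s1 → p ∈ Sch .s3 → Cmp (fch a b .s1) (fch a b .s3) p := by
    rintro ⟨⟨h0, -⟩, h1⟩ ⟨⟨h2, -⟩, h3⟩
    exact Cmp.of_ne _ _ (h1.resolve_right (by intro h; linarith))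
      (h3.resolve_right (by intro h; linarith))
  have h15 : p ∈ Sch .s1 → p ∈ Sch .s5 → Cmp (fch a b .s1) (fch a b .s5) p := by
    rintro ⟨⟨h0, h0'⟩, h1⟩ ⟨h2, -⟩
    rcases h2 with h2 | h2 <;> linarith
  have h23 : p ∈ Sch .s2 → p ∈ Sch .s3 → Cmp (fch a b .s2) (fch a b .s3) p := by
    rintro ⟨-, ⟨h0, -⟩⟩ ⟨-, h3⟩
    have hz : p.2.2 ≠ 0 := h3.resolve_right (by intro h; linarith)
    refine Cmp.of_z hz fun q hq => ?_
    simp only [fch, hq]
    split_ifs <;> group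
  have h25 : p ∈ Sch .s2 → p ∈ Sch .s5 → Cmp (fch a b .s2) (fch a b .s5) p := by
    rintro ⟨-, ⟨h0, h0'⟩⟩ ⟨h2, -⟩
    rcases h2 with h2 | h2 <;> linarith
  have h35 : p ∈ Sch .s3 → p ∈ Sch .s5 → Cmp (fch a b .s3) (fch a b .s5) p := by
    rintro ⟨-, -⟩ ⟨-, hy⟩
    refine Cmp.of_y hy fun q hq => ?_
    simp only [fch, lab, hq]
    split_ifs <;> group
  cases i <;> cases j
  · exact Cmp.refl _ _
  · exact h01 hi hj
  · exact h02 hi hj
  · exact h03 hi hj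
  · exact h05 hi hj
  · exact (h01 hj hi).symm
  · exact Cmp.refl _ _
  · exact h12 hi hj
  · exact h13 hi hj
  · exact h15 hi hj
  · exact (h02 hj hi).symm
  · exact (h12 hj hi).symm
  · exact Cmp.refl _ _
  · exact h23 hi hj
  · exact h25 hi hj
  · exact (h03 hj hi).symm
  · exact (h13 hj hi).symm
  · exact (h23 hj hi).symm
  · exact Cmp.refl _ _
  · exact h35 hi hj
  · exact (h05 hj hi).symm
  · exact (h15 hj hi).symm
  · exact (h25 hj hi).symm
  · exact (h35 hj hi).symm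
  · exact Cmp.refl _ _

end

end Pool.Agent.H88.Nest
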