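import Pool.Agent.H88.Nest.Geo
import Pool.Agent.H88.Nest.Unit

/-!
Properties of the elementary move.
-/

set_option autoImplicit false

namespace Pool.Agent.H88.Nest

open Topology Filter Set

/-! ### bijectivity -/

lemma s1_injective : Function.Injective s1 := by
  rintro ⟨x, y, z⟩ ⟨x', y', z'⟩ h
  simp only [s1, Prod.mk.injEq] at h
  obtain ⟨h1, rfl, rfl⟩ := h
  obtain ⟨b0, b1⟩ := bb_mem y z
  rcases lt_trichotomy x x' with h | h | h
  · exact absurd h1 (X_strict b0 b1 h).ne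
  · rw [h]
  · exact absurd h1 (X_strict b0 b1 h).ne'

lemma s1_surjective : Function.Surjective s1 := by
  rintro ⟨x, y, z⟩
  obtain ⟨b0, b1⟩ := bb_mem y z
  obtain ⟨x', hx'⟩ := X_surj b0 b1 x
  exact ⟨(x', y, z), by simp only [s1]; rw [hx']⟩

lemma s2_eq (p : V3) : s2 p = (p.1, p.2.1, 2 + ZZ (dd p.1 p.2.1) p.1 (p.2.2 - 2)) := by
  simp only [s2, ZZ]; congr 2; ring

lemma s2_injective : Function.Injective s2 := by
  rintro ⟨x, y, z⟩ ⟨x', y', z'⟩ h
  rw [s2_eq, s2_eq] at h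
  simp only [Prod.mk.injEq] at h
  obtain ⟨rfl, rfl, h1⟩ := h
  obtain ⟨b0, b1⟩ := dd_mem x y
  have h1 := add_left_cancel h1
  rcases lt_trichotomy z z' with h | h | h
  · exact absurd h1 (ZZ_strict b0 b1 (by linarith)).ne
  · rw [h]
  · exact absurd h1 (ZZ_strict b0 b1 (by linarith)).ne'

lemma s2_surjective : Function.Surjective s2 := by
  rintro ⟨x, y, z⟩
  obtain ⟨b0, b1⟩ := dd_mem x y
  obtain ⟨t, ht⟩ := ZZ_surj (x := x) b0 b1 (z - 2)
  refine ⟨(x, y, t + 2), ?_⟩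
  rw [s2_eq]
  simp only [add_sub_cancel_right, ht]
  congr 2; ring

lemma gL_injective : Function.Injective gL := s2_injective.comp s1_injective
lemma gL_surjective : Function.Surjective gL := s2_surjective.comp s1_surjective

lemma sg_injective : Function.Injective sg := fun a b h => by
  have := congrArg sg h; rwa [sg_sg, sg_sg] at this
lemma sg_surjective : Function.Surjective sg := fun a => ⟨sg a, sg_sg a⟩

lemma gR_injective : Function.Injective gR := sg_injective.comp (gL_injective.comp sg_injective)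
lemma gR_surjective : Function.Surjective gR :=
  sg_surjective.comp (gL_surjective.comp sg_surjective)

lemma gg_injective : Function.Injective gg := gR_injective.comp gL_injective
lemma gg_surjective : Function.Surjective gg := gR_surjective.comp gL_surjective

/-! ### supports -/

/-- A set containing the support of the left move. -/
def BL : Set V3 := {p | |p.2.1| ≤ 1 ∧ (-10 ≤ p.1 ∧ p.1 ≤ 6) ∧ |p.2.2 - 2| ≤ 6 ∧
  (4 ≤ |p.2.2 - 2| ∨ (2 ≤ p.1 ∧ p.1 ≤ 4))}

lemma bb_zero {y z : ℝ} (h : 1 ≤ rho y z) : bb y z = 0 := by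
  unfold bb
  exact max_eq_left ((min_le_right _ _).trans (by linarith))

lemma gL_id {p : V3} (h : p ∉ BL) : gL p = p := by
  obtain ⟨x, y, z⟩ := p
  have h1 : s1 (x, y, z) = (x, y, z) := by
    by_contra hne
    apply h
    have hb : rho y z < 1 := by
      by_contra hb
      apply hne
      simp only [s1, bb_zero (not_lt.1 hb), zero_mul, add_zero]
    have hx : -10 < x ∧ x < 6 := by
      by_contra hx
      apply hne
      have : cc x = 0 := by
        apply cc_zero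
        by_contra h'
        push Not at h'
        exact hx h'
      simp only [s1, this, mul_zero, add_zero]
    have h2 : |y| < 1 := (le_max_left _ _).trans_lt hb
    have h3 : |(|z - 2| - 5)| < 1 := (le_max_right _ _).trans_lt hb
    rw [abs_lt] at h3
    exact ⟨h2.le, ⟨hx.1.le, hx.2.le⟩, by show |z - 2| ≤ 6; linarith, Or.inl (by show 4 ≤ |z - 2|; linarith)⟩
  show s2 (s1 (x, y, z)) = _
  rw [h1]
  by_contra hne
  apply h
  rw [s2_eq] at hne
  have hd : dd x y ≠ 0 := by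
    intro hd
    apply hne
    simp only [hd, ZZ, zero_mul, sub_zero]
    congr 2; ring
  have hd' : max |x - 3| |y| < 1 := by
    by_contra hd'
    apply hd
    unfold dd
    exact max_eq_left ((min_le_right _ _).trans (by linarith [not_lt.1 hd']))
  have hz : |z - 2| < 11 / 2 := by
    by_contra hz
    apply hne
    simp only
    rw [ZZ_id (not_lt.1 hz)]
    congr 2; ring
  have h2 : |x - 3| < 1 := (le_max_left _ _).trans_lt hd'
  have h3 : |y| < 1 := (le_max_right _ _).trans_lt hd'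
  rw [abs_lt] at h2
  exact ⟨h3.le, ⟨by show -10 ≤ x; linarith, by show x ≤ 6; linarith⟩, by show |z - 2| ≤ 6; linarith,
    Or.inr ⟨by show 2 ≤ x; linarith, by show x ≤ 4; linarith⟩⟩

lemma gL_mem {p : V3} : gL p ∈ BL ↔ p ∈ BL := by
  constructor
  · intro h
    by_contra h'
    rw [gL_id h'] at h
    exact h' h
  · intro h
    by_contra h'
    have := gL_id h'
    rw [gL_injective this] at h'
    exact h' h

lemma gR_id {p : V3} (h : sg p ∉ BL) : gR p = p := by
  show sg (gL (sg p)) = p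
  rw [gL_id h, sg_sg]

lemma BL_disj {p : V3} (h : p ∈ BL) : sg p ∉ BL := by
  intro h'
  obtain ⟨h1, h2, h3, h4⟩ := h
  obtain ⟨k1, k2, k3, k4⟩ := h'
  simp only [sg] at k1 k2 k3 k4
  rw [abs_le] at h1 k1
  have h5 : 2 ≤ p.1 := by
    rcases h4 with h4 | h4
    · exfalso
      rcases le_abs.1 h4 with h | h <;> linarith
    · exact h4.1
  have k5 : 2 ≤ -p.1 := by
    rcases k4 with h4 | h4
    · exfalso
      rcases le_abs.1 h4 with h | h <;> linarith
    · exact h4.1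
  linarith

lemma gg_of_BL {p : V3} (h : p ∈ BL) : gg p = gL p := gR_id (BL_disj (gL_mem.2 h))

lemma gg_of_not_BL {p : V3} (h : p ∉ BL) : gg p = gR p := by
  show gR (gL p) = gR p
  rw [gL_id h]

lemma gg_sg (p : V3) : gg (sg p) = sg (gg p) := by
  by_cases h : p ∈ BL
  · rw [gg_of_BL h, gg_of_not_BL (BL_disj h)]
    show sg (gL (sg (sg p))) = _
    rw [sg_sg]
  · by_cases h' : sg p ∈ BL
    · rw [gg_of_BL h', gg_of_not_BL h]
      show _ = sg (sg (gL (sg p)))
      rw [sg_sg]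
    · rw [gg_of_not_BL h', gg_of_not_BL h, gR_id h', gR_id (by rwa [sg_sg])]

/-- If the image lies in `BL`, so does the point. -/
lemma mem_BL_of_gg {p : V3} (h : gg p ∈ BL) : p ∈ BL := by
  by_contra h'
  rw [gg_of_not_BL h'] at h
  have h1 := BL_disj h
  have h2 : sg (gR p) = gL (sg p) := by
    show sg (sg (gL (sg p))) = _
    rw [sg_sg]
  rw [h2, gL_mem] at h1
  rw [gR_id h1] at h
  exact h' h

/-- The box supporting everything. -/
def Qs : Set V3 := {p | |p.1| ≤ 10 ∧ |p.2.1| ≤ 8 ∧ |p.2.2| ≤ 8}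

lemma isClosed_Qs : IsClosed Qs := by
  have h1 : IsClosed {p : V3 | |p.1| ≤ 10} := isClosed_le (by fun_prop) (by fun_prop)
  have h2 : IsClosed {p : V3 | |p.2.1| ≤ 8} := isClosed_le (by fun_prop) (by fun_prop)
  have h3 : IsClosed {p : V3 | |p.2.2| ≤ 8} := isClosed_le (by fun_prop) (by fun_prop)
  exact h1.inter (h2.inter h3)

lemma BL_sub {p : V3} (h : p ∈ BL) : p ∈ Qs := by
  obtain ⟨h1, h2, h3, h4⟩ := h
  rw [abs_le] at h1 h3
  refine ⟨abs_le.2 ⟨?_, ?_⟩, abs_le.2 ⟨?_, ?_⟩, abs_le.2 ⟨?_, ?_⟩⟩ <;> linarith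

lemma sg_mem_Qs {p : V3} : sg p ∈ Qs ↔ p ∈ Qs := by
  simp only [Qs, sg, mem_ofPred_eq, abs_neg]
  tauto

lemma gg_id {p : V3} (h : p ∉ Qs) : gg p = p := by
  have h1 : p ∉ BL := fun h' => h (BL_sub h')
  rw [gg_of_not_BL h1]
  exact gR_id (fun h' => h (sg_mem_Qs.1 (BL_sub h')))

lemma gg_mem_Qs {p : V3} : gg p ∈ Qs ↔ p ∈ Qs := by
  constructor
  · intro h
    by_contra h'
    rw [gg_id h'] at h
    exact h' h
  · intro h
    by_contra h'
    have := gg_id h'
    rw [gg_injective this] at h'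
    exact h' h

/-! ### monotonicity -/

lemma gg_left {q : V3} (hq : q.1 ≤ -8) : ∃ p : V3, p.1 ≤ -8 ∧ gg p = q := by
  obtain ⟨x, y, z⟩ := q
  obtain ⟨b0, b1⟩ := bb_mem y z
  obtain ⟨x', hx'⟩ := X_surj b0 b1 x
  simp only at hq
  have h1 : x' ≤ x := by
    have := mul_nonneg b0 (cc_nonneg x'); linarith
  refine ⟨(x', y, z), h1.trans hq, ?_⟩
  have e1 : s1 (x', y, z) = (x, y, z) := by simp only [s1]; rw [hx']
  have e2 : s2 (x, y, z) = (x, y, z) := by
    have : dd x y = 0 := by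
      unfold dd
      apply max_eq_left
      refine (min_le_right _ _).trans ?_
      have h3 : 11 ≤ |x - 3| := le_abs.2 (Or.inr (by linarith))
      have h4 := le_max_left |x - 3| |y|
      linarith
    simp only [s2, this, zero_mul, sub_zero]
  have e3 : gL (x', y, z) = (x, y, z) := by
    show s2 (s1 _) = _
    rw [e1, e2]
  show gR (gL (x', y, z)) = _
  rw [e3]
  apply gR_id
  rintro ⟨-, ⟨-, h⟩, -⟩
  simp only [sg] at h
  linarith

lemma gg_right {q : V3} (hq : 8 ≤ q.1) : ∃ p : V3, 8 ≤ p.1 ∧ gg p = q := by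
  obtain ⟨p, h1, h2⟩ := gg_left (q := sg q) (by simp only [sg]; linarith)
  refine ⟨sg p, by simp only [sg]; linarith, ?_⟩
  rw [gg_sg, h2, sg_sg]

/-! ### near the left gap -/

/-- Everything we need about a point whose image is near the left gap. -/
lemma gap_facts {p : V3} (h : zo1 (gg p) ∈ Qs) :
    (|(gg p).1 - 3| ≤ 8 / 100 ∧ |(gg p).2.1| ≤ 8 / 100 ∧ |(gg p).2.2 - 2| ≤ 10 / 100) ∧
    p ∈ BL ∧ p.2.1 = (gg p).2.1 ∧
    (gg p).1 = p.1 + bb p.2.1 p.2.2 * cc p.1 ∧
    (gg p).2.2 - 2 = ZZ 1 (gg p).1 (p.2.2 - 2) := by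
  obtain ⟨h1, h2, h3⟩ := h
  simp only [zo1] at h1 h2 h3
  rw [abs_le] at h1 h2 h3
  have k1 : |(gg p).1 - 3| ≤ 8 / 100 := abs_le.2 ⟨by linarith, by linarith⟩
  have k2 : |(gg p).2.1| ≤ 8 / 100 := abs_le.2 ⟨by linarith, by linarith⟩
  have k3 : |(gg p).2.2 - 2| ≤ 10 / 100 := abs_le.2 ⟨by linarith, by linarith⟩
  have hBL : gg p ∈ BL := by
    refine ⟨k2.trans (by norm_num), ⟨by linarith, by linarith⟩, k3.trans (by norm_num),
      Or.inr ⟨by linarith, by linarith⟩⟩
  have hp := mem_BL_of_gg hBL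
  have e : gg p = gL p := gg_of_BL hp
  have e2 : gL p = (p.1 + bb p.2.1 p.2.2 * cc p.1, p.2.1,
      2 + ZZ (dd (p.1 + bb p.2.1 p.2.2 * cc p.1) p.2.1) (p.1 + bb p.2.1 p.2.2 * cc p.1)
        (p.2.2 - 2)) := by
    show s2 (s1 p) = _
    rw [s2_eq]
    rfl
  have a1 : (gg p).1 = p.1 + bb p.2.1 p.2.2 * cc p.1 := by rw [e, e2]
  have a2 : p.2.1 = (gg p).2.1 := by rw [e, e2]
  have hd : dd (gg p).1 p.2.1 = 1 := by
    rw [a2]
    unfold dd
    have : max |(gg p).1 - 3| |(gg p).2.1| ≤ 8 / 100 := max_le k1 k2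
    rw [min_eq_left (by linarith), max_eq_right zero_le_one]
  refine ⟨⟨k1, k2, k3⟩, hp, a2, a1, ?_⟩
  have a3 : (gg p).2.2 = 2 + ZZ (dd (p.1 + bb p.2.1 p.2.2 * cc p.1) p.2.1)
      (p.1 + bb p.2.1 p.2.2 * cc p.1) (p.2.2 - 2) := by rw [e, e2]
  rw [← a1, hd] at a3
  rw [a3]; ring

lemma rho_ge (y z : ℝ) : 5 - |z - 2| ≤ rho y z := by
  unfold rho
  refine le_trans ?_ (le_max_right _ _)
  refine le_trans ?_ (neg_le_abs _)
  linarith

lemma bb_lt {y z c : ℝ} (hc : 0 < c) (h : 2 * |z - 2| - 8 < c) : bb y z < c := by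
  unfold bb
  apply max_lt hc
  apply min_lt_of_right_lt
  have := rho_ge y z
  linarith

lemma bb_eq {y z : ℝ} (hy : |y| ≤ 8 / 100) (h1 : 4 ≤ |z - 2|) (h2 : |z - 2| ≤ 9 / 2) :
    bb y z = 2 * |z - 2| - 8 := by
  have h3 : rho y z = 5 - |z - 2| := by
    unfold rho
    rw [abs_of_nonpos (by linarith : |z - 2| - 5 ≤ 0)]
    rw [max_eq_right (by linarith)]
    ring
  unfold bb
  rw [h3, min_eq_right (by linarith), max_eq_right (by linarith)]
  ring

/-- The horn profile. -/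
lemma X_le_iff {b x : ℝ} (hb0 : 0 ≤ b) (hb : b ≤ 1) : x + b * cc x ≤ -8 + 12 * b ↔ x ≤ -8 := by
  have e : (-8 : ℝ) + 12 * b = -8 + b * cc (-8) := by
    rw [cc_left (by norm_num) le_rfl]; ring
  rw [e]
  constructor
  · intro h
    by_contra h'
    exact absurd (X_strict hb0 hb (not_le.1 h')) (not_lt.2 h)
  · intro h
    rcases eq_or_lt_of_le h with h | h
    · rw [h]
    · exact (X_strict hb0 hb h).le

lemma X_lt_iff {b x : ℝ} (hb0 : 0 ≤ b) (hb : b ≤ 1) : x + b * cc x < -8 + 12 * b ↔ x < -8 := by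
  have e : (-8 : ℝ) + 12 * b = -8 + b * cc (-8) := by
    rw [cc_left (by norm_num) le_rfl]; ring
  rw [e]
  constructor
  · intro h
    by_contra h'
    rcases eq_or_lt_of_le (not_lt.1 h') with h2 | h2
    · rw [h2] at h; exact lt_irrefl _ h
    · exact absurd (X_strict hb0 hb h2) (not_lt.2 h.le)
  · exact fun h => X_strict hb0 hb h

lemma gap_t {p : V3} (h : zo1 (gg p) ∈ Qs) :
    (8 / 100 ≤ |(gg p).2.2 - 2| → ee (gg p).1 ≤ |p.2.2 - 2| ∧
      |p.2.2 - 2| = |(gg p).2.2 - 2| + (ee (gg p).1 - 8 / 100)) ∧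
    (|(gg p).2.2 - 2| < 8 / 100 → |p.2.2 - 2| < ee (gg p).1) := by
  obtain ⟨⟨k1, k2, k3⟩, hp, a2, a1, a3⟩ := gap_facts h
  have hx : |(gg p).1 - 3| ≤ 1 := k1.trans (by norm_num)
  set x := (gg p).1 with hxdef
  set Z := (gg p).2.2 - 2 with hZ
  set t := p.2.2 - 2 with ht
  have he : ee x = 4 + (x + 8) / 24 := rfl
  have kx := k1
  rw [abs_le] at kx
  have hZe : ZZ 1 x (ee x) = 8 / 100 := ZZ_ee hx
  constructor
  · intro h8
    have h9 : ee x ≤ |t| := by
      by_contra h'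
      have := (ZZ_abs_lt_iff (d := 1) (x := x) zero_le_one le_rfl
        (by rw [he]; linarith : 0 ≤ ee x)).2 (not_le.1 h')
      rw [hZe, ← a3] at this
      linarith
    refine ⟨h9, ?_⟩
    have h10 : |t| ≤ ee x + 2 / 100 := by
      by_contra h'
      have h11 : ZZ 1 x (ee x + 2 / 100) = 10 / 100 := by
        unfold ZZ
        rw [kk_plateau hx (by linarith) (by rw [he]; linarith)]
        ring
      have h12 := ZZ_strict (d := 1) (x := x) zero_le_one le_rfl (not_le.1 h')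
      rw [h11, ← ZZ_abs zero_le_one le_rfl, ← a3] at h12
      linarith
    have h13 : |Z| = |t| - (ee x - 8 / 100) := by
      rw [a3, ZZ_abs zero_le_one le_rfl]
      unfold ZZ
      rw [kk_plateau hx h9 (by rw [he] at h10; linarith)]
      ring
    linarith
  · intro h8
    rw [a3, ← hZe] at h8
    exact (ZZ_abs_lt_iff zero_le_one le_rfl (by rw [he]; linarith)).1 h8

/-- (A), (B) -/
lemma gap_iff {p : V3} (h : zo1 (gg p) ∈ Qs) :
    (8 ≤ |p.1| ↔ 8 ≤ |(zo1 (gg p)).1|) ∧ (8 < |p.1| ↔ 8 < |(zo1 (gg p)).1|) ∧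
      (8 ≤ |p.1| → p.1 ≤ -8) := by
  obtain ⟨⟨k1, k2, k3⟩, hp, a2, a1, a3⟩ := gap_facts h
  obtain ⟨t1, t2⟩ := gap_t h
  obtain ⟨b0, b1⟩ := bb_mem p.2.1 p.2.2
  have he : ee (gg p).1 = 4 + ((gg p).1 + 8) / 24 := rfl
  have kx := k1
  rw [abs_le] at kx
  have hzo : |(zo1 (gg p)).1| = 100 * |(gg p).2.2 - 2| := by
    simp only [zo1]; rw [abs_mul, abs_of_pos (by norm_num : (0 : ℝ) < 100)]
  have hB : 8 ≤ |p.1| → p.1 ≤ -8 := by
    intro h8
    rcases le_abs.1 h8 with h9 | h9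
    · exfalso
      rw [cc_zero (Or.inr (by linarith))] at a1
      linarith
    · linarith
  have hx8 : ¬ 8 ≤ p.1 := by
    intro h9
    rw [cc_zero (Or.inr (by linarith))] at a1
    linarith
  have h1 : 8 ≤ |p.1| ↔ p.1 ≤ -8 := ⟨hB, fun h => le_abs.2 (Or.inr (by linarith))⟩
  have h1' : 8 < |p.1| ↔ p.1 < -8 := by
    constructor
    · intro h
      rcases lt_abs.1 h with h9 | h9
      · exact absurd h9.le hx8
      · linarith
    · exact fun h => lt_abs.2 (Or.inr (by linarith))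
  refine ⟨?_, ?_, hB⟩
  · rw [h1, hzo, ← X_le_iff b0 b1, ← a1]
    constructor
    · intro h2
      by_contra h3
      have h4 : |(gg p).2.2 - 2| < 8 / 100 := by linarith [not_le.1 h3]
      have h5 := t2 h4
      have h6 : bb p.2.1 p.2.2 < ((gg p).1 + 8) / 12 :=
        bb_lt (by linarith) (by rw [he] at h5; linarith)
      linarith
    · intro h2
      obtain ⟨h3, h4⟩ := t1 (by linarith)
      rw [bb_eq (by rw [a2]; exact k2) (by rw [he] at h3; linarith)
        (by rw [he] at h4; linarith)]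
      rw [he] at h3
      linarith
  · rw [h1', hzo, ← X_lt_iff b0 b1, ← a1]
    constructor
    · intro h2
      by_contra h3
      rcases eq_or_lt_of_le (not_lt.1 h3) with h4 | h4
      · obtain ⟨h5, h6⟩ := t1 (by linarith)
        rw [bb_eq (by rw [a2]; exact k2) (by rw [he] at h5; linarith)
          (by rw [he] at h6; linarith)] at h2
        rw [he] at h6
        linarith
      · have h5 := t2 (by linarith)
        have h6 : bb p.2.1 p.2.2 < ((gg p).1 + 8) / 12 :=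
          bb_lt (by linarith) (by rw [he] at h5; linarith)
        linarith
    · intro h2
      obtain ⟨h3, h4⟩ := t1 (by linarith)
      rw [bb_eq (by rw [a2]; exact k2) (by rw [he] at h3; linarith)
        (by rw [he] at h4; linarith)]
      rw [he] at h4
      linarith

/-- The formula on the solid side. -/
lemma gap_formula {p : V3} (h : zo1 (gg p) ∈ Qs) (hD : 8 ≤ |p.1|) :
    (-10 ≤ p.1 ∧ p.1 ≤ -8) ∧
    (p.1 + 10) * (12 * |p.2.2 - 2| - 47) = (gg p).1 + 10 ∧
    |p.2.2 - 2| = |(gg p).2.2 - 2| + (ee (gg p).1 - 8 / 100) ∧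
    8 / 100 ≤ |(gg p).2.2 - 2| := by
  obtain ⟨⟨k1, k2, k3⟩, hp, a2, a1, a3⟩ := gap_facts h
  obtain ⟨i1, i2, i3⟩ := gap_iff h
  have he : ee (gg p).1 = 4 + ((gg p).1 + 8) / 24 := rfl
  have kx := k1
  rw [abs_le] at kx
  have hx := i3 hD
  have hzo : |(zo1 (gg p)).1| = 100 * |(gg p).2.2 - 2| := by
    simp only [zo1]; rw [abs_mul, abs_of_pos (by norm_num : (0 : ℝ) < 100)]
  have h8 : 8 / 100 ≤ |(gg p).2.2 - 2| := by
    have := i1.1 hD
    rw [hzo] at this
    linarith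
  obtain ⟨h3, h4⟩ := (gap_t h).1 h8
  have hb : bb p.2.1 p.2.2 = 2 * |p.2.2 - 2| - 8 :=
    bb_eq (by rw [a2]; exact k2) (by rw [he] at h3; linarith) (by rw [he] at h4; linarith)
  refine ⟨⟨hp.2.1.1, hx⟩, ?_, h4, h8⟩
  rw [a1, hb, cc_left hp.2.1.1 hx]
  ring

/-- (Dp) -/
lemma gap_depth {p : V3} (h : zo1 (gg p) ∈ Qs) (hD : 8 ≤ |p.1|) :
    |p.1| - 8 ≤ 1 / 2 * (|(zo1 (gg p)).1| - 8) := by
  obtain ⟨⟨k1, k2, k3⟩, hp, a2, a1, a3⟩ := gap_facts h
  obtain ⟨⟨f1, f2⟩, f3, f4, f5⟩ := gap_formula h hD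
  have he : ee (gg p).1 = 4 + ((gg p).1 + 8) / 24 := rfl
  have kx := k1
  rw [abs_le] at kx
  have hzo : |(zo1 (gg p)).1| = 100 * |(gg p).2.2 - 2| := by
    simp only [zo1]; rw [abs_mul, abs_of_pos (by norm_num : (0 : ℝ) < 100)]
  rw [hzo, abs_of_nonpos (by linarith : p.1 ≤ 0)]
  rw [he] at f4
  set T := |p.2.2 - 2|
  set Z := |(gg p).2.2 - 2|
  set x := (gg p).1
  -- (2 - δ) (12 T - 47) = x + 10
  have h1 : (-p.1 - 8) * (12 * T - 47) = 24 * (Z - 8 / 100) := by
    have : (p.1 + 10) * (12 * T - 47) = x + 10 := f3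
    have : (-p.1 - 8) * (12 * T - 47) = 2 * (12 * T - 47) - (x + 10) := by rw [← this]; ring
    rw [this, f4]; ring
  have h2 : (6 : ℝ) ≤ 12 * T - 47 := by rw [f4]; linarith
  nlinarith

lemma dist_V3 (p q : V3) : dist p q = max |p.1 - q.1| (max |p.2.1 - q.2.1| |p.2.2 - q.2.2|) := by
  rw [Prod.dist_eq, Prod.dist_eq, Real.dist_eq, Real.dist_eq, Real.dist_eq]

/-- (C) -/
lemma gap_contr {p q : V3} (hp : zo1 (gg p) ∈ Qs) (hq : zo1 (gg q) ∈ Qs) (hDp : 8 ≤ |p.1|)
    (hDq : 8 ≤ |q.1|) (hs : 0 ≤ (zo1 (gg p)).1 * (zo1 (gg q)).1) :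
    dist p q ≤ 1 / 2 * dist (zo1 (gg p)) (zo1 (gg q)) := by
  obtain ⟨⟨k1, k2, k3⟩, -, a2, -, a3⟩ := gap_facts hp
  obtain ⟨⟨f1, f2⟩, f3, f4, f5⟩ := gap_formula hp hDp
  obtain ⟨⟨k1', k2', k3'⟩, -, a2', -, a3'⟩ := gap_facts hq
  obtain ⟨⟨f1', f2'⟩, f3', f4', f5'⟩ := gap_formula hq hDq
  have he : ee (gg p).1 = 4 + ((gg p).1 + 8) / 24 := rfl
  have he' : ee (gg q).1 = 4 + ((gg q).1 + 8) / 24 := rfl
  rw [he] at f4
  rw [he'] at f4'
  have kx := k1
  rw [abs_le] at kx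
  have kx' := k1'
  rw [abs_le] at kx'
  -- the distance Δ
  set Δ := dist (zo1 (gg p)) (zo1 (gg q)) with hΔ
  have d1 : |(zo1 (gg p)).1 - (zo1 (gg q)).1| ≤ Δ := by
    rw [hΔ, dist_V3]; exact le_max_left _ _
  have d2 : |(zo1 (gg p)).2.1 - (zo1 (gg q)).2.1| ≤ Δ := by
    rw [hΔ, dist_V3]; exact (le_max_left _ _).trans (le_max_right _ _)
  have d3 : |(zo1 (gg p)).2.2 - (zo1 (gg q)).2.2| ≤ Δ := by
    rw [hΔ, dist_V3]; exact (le_max_right _ _).trans (le_max_right _ _)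
  simp only [zo1] at d1 d2 d3 hs
  rw [abs_le] at d1 d2 d3
  have hs' : 0 ≤ ((gg p).2.2 - 2) * ((gg q).2.2 - 2) := by nlinarith
  -- same sign for `t`
  have sgn : ∀ {x t : ℝ}, (0 < ZZ 1 x t → 0 < t) ∧ (ZZ 1 x t < 0 → t < 0) := by
    intro x t
    have h0 : ZZ 1 x 0 = 0 := by
      have := ZZ_neg 1 x 0
      rw [neg_zero] at this
      linarith
    constructor
    · intro h
      by_contra h'
      rcases eq_or_lt_of_le (not_lt.1 h') with h2 | h2
      · rw [h2, h0] at h; exact lt_irrefl _ h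
      · have := ZZ_strict (d := 1) (x := x) zero_le_one le_rfl h2
        rw [h0] at this; linarith
    · intro h
      by_contra h'
      rcases eq_or_lt_of_le (not_lt.1 h') with h2 | h2
      · rw [← h2, h0] at h; exact lt_irrefl _ h
      · have := ZZ_strict (d := 1) (x := x) zero_le_one le_rfl h2
        rw [h0] at this; linarith
  -- the differences of `|t|`
  have key : |p.2.2 - q.2.2| ≤ 25 / 24 * (Δ / 100) ∧
      |(|p.2.2 - 2| - |q.2.2 - 2|)| ≤ 25 / 24 * (Δ / 100) := by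
    have hZ : |(|(gg p).2.2 - 2| - |(gg q).2.2 - 2|)| ≤ Δ / 100 := by
      refine (abs_abs_sub_abs_le _ _).trans ?_
      rw [abs_le]; constructor <;> linarith
    have h2 : |(|p.2.2 - 2| - |q.2.2 - 2|)| ≤ 25 / 24 * (Δ / 100) := by
      rw [f4, f4']
      rw [abs_le] at hZ ⊢
      constructor <;> linarith
    refine ⟨?_, h2⟩
    rcases lt_trichotomy ((gg p).2.2 - 2) 0 with hp0 | hp0 | hp0
    · have hq0 : (gg q).2.2 - 2 < 0 := by
        by_contra h'
        rcases eq_or_lt_of_le (not_lt.1 h') with h3 | h3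
        · rw [← h3, abs_zero] at f5'; linarith
        · nlinarith
      have t1 := sgn.2 (a3 ▸ hp0)
      have t2 := sgn.2 (a3' ▸ hq0)
      rw [abs_of_neg t1, abs_of_neg t2, abs_le] at h2
      rw [abs_le]
      constructor <;> linarith
    · rw [hp0, abs_zero] at f5; linarith
    · have hq0 : 0 < (gg q).2.2 - 2 := by
        by_contra h'
        rcases eq_or_lt_of_le (not_lt.1 h') with h3 | h3
        · rw [h3, abs_zero] at f5'; linarith
        · nlinarith
      have t1 := sgn.1 (a3 ▸ hp0)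
      have t2 := sgn.1 (a3' ▸ hq0)
      rw [abs_of_pos t1, abs_of_pos t2, abs_le] at h2
      rw [abs_le]
      constructor <;> linarith
  obtain ⟨key1, key2⟩ := key
  have hΔ0 : 0 ≤ Δ := dist_nonneg
  rw [dist_V3]
  refine max_le ?_ (max_le ?_ (key1.trans (by linarith)))
  · -- first coordinate
    set T := |p.2.2 - 2|
    set T' := |q.2.2 - 2|
    have hN : (6 : ℝ) ≤ 12 * T - 47 := by rw [f4]; linarith
    have e1 : (p.1 - q.1) * (12 * T - 47) = ((gg p).1 - (gg q).1) - (q.1 + 10) * (12 * (T - T')) := by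
      have : (p.1 - q.1) * (12 * T - 47) = (p.1 + 10) * (12 * T - 47) -
        (q.1 + 10) * (12 * T' - 47) - (q.1 + 10) * (12 * (T - T')) := by ring
      rw [this, f3, f3']; ring
    have b1 : |(p.1 - q.1) * (12 * T - 47)| ≤ 30 * (Δ / 100) := by
      rw [e1]
      have b2 : |(gg p).1 - (gg q).1| ≤ Δ / 100 := by
        rw [abs_le]; constructor <;> linarith
      have b3 : |(q.1 + 10) * (12 * (T - T'))| ≤ 2 * (12 * (25 / 24 * (Δ / 100))) := by
        rw [abs_mul, abs_mul]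
        apply mul_le_mul
        · rw [abs_le]; constructor <;> linarith
        · rw [abs_of_pos (by norm_num : (0 : ℝ) < 12)]
          exact mul_le_mul_of_nonneg_left key2 (by norm_num)
        · positivity
        · norm_num
      refine (abs_sub _ _).trans ?_
      linarith
    rw [abs_mul, abs_of_pos (by linarith : 0 < 12 * T - 47)] at b1
    have b4 : |p.1 - q.1| * 6 ≤ |p.1 - q.1| * (12 * T - 47) :=
      mul_le_mul_of_nonneg_left hN (abs_nonneg _)
    linarith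
  · rw [a2, a2', abs_le]
    constructor <;> linarith

end Pool.Agent.H88.Nest
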