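import Mathlib

/-!
Locally constant cocycles (flat structures) given by discontinuous frames, and parallel
functions along maps.
-/

set_option autoImplicit false

namespace Pool.Agent.H88.Nest

open Topology Filter Set

lemma eventually_eq_of_discrete {T G : Type} [TopologicalSpace T] [TopologicalSpace G]
    [DiscreteTopology G] {f : T → G} {t : T} (h : ContinuousAt f t) : ∀ᶠ u in 𝓝 t, f u = f t :=
  h (by rw [nhds_discrete]; exact mem_pure.2 rfl : ({f t} : Set G) ∈ 𝓝 (f t))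

/-- A flat `G`-structure on an open subset of `X`: open sets `U i` with frames `φ i` whose
quotients are locally constant. -/
structure LS (G : Type) [Group G] (X : Type) [TopologicalSpace X] where
  ι : Type
  U : ι → Set X
  φ : ι → X → G
  isOpen_U : ∀ i, IsOpen (U i)
  compat : ∀ i j x, x ∈ U i → x ∈ U j →
    ∀ᶠ y in 𝓝 x, φ i y * (φ j y)⁻¹ = φ i x * (φ j x)⁻¹

namespace LS

variable {G : Type} [Group G] {X : Type} [TopologicalSpace X] (L : LS G X)

/-- The domain. -/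
def dom : Set X := ⋃ i, L.U i

lemma mem_dom {x : X} : x ∈ L.dom ↔ ∃ i, x ∈ L.U i := by simp [dom]

lemma isOpen_dom : IsOpen L.dom := isOpen_iUnion L.isOpen_U

/-- `s` is parallel along `γ`. -/
def Par {T : Type} [TopologicalSpace T] (γ : T → X) (s : T → G) : Prop :=
  ∀ t i, γ t ∈ L.U i → ∀ᶠ u in 𝓝 t, s u * (L.φ i (γ u))⁻¹ = s t * (L.φ i (γ t))⁻¹

/-- The associated bundle core. -/
noncomputable def core [TopologicalSpace G] [DiscreteTopology G] :
    FiberBundleCore L.ι L.dom G where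
  baseSet i := {x | (x : X) ∈ L.U i}
  isOpen_baseSet i := (L.isOpen_U i).preimage continuous_subtype_val
  indexAt x := (L.mem_dom.1 x.2).choose
  mem_baseSet_at x := (L.mem_dom.1 x.2).choose_spec
  coordChange i j x v := v * (L.φ i x * (L.φ j x)⁻¹)
  coordChange_self i x hx v := by simp
  continuousOn_coordChange i j := by
    rintro ⟨x, v⟩ ⟨⟨hx1, hx2⟩, -⟩
    apply ContinuousAt.continuousWithinAt
    rw [ContinuousAt]
    have h1 : ∀ᶠ p : L.dom × G in 𝓝 (x, v), p.2 = v :=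
      eventually_eq_of_discrete (f := fun p : L.dom × G => p.2) continuous_snd.continuousAt
    have h2 : ∀ᶠ p : L.dom × G in 𝓝 (x, v),
        L.φ i p.1 * (L.φ j p.1)⁻¹ = L.φ i x * (L.φ j x)⁻¹ := by
      have : Tendsto (fun p : L.dom × G => (p.1 : X)) (𝓝 (x, v)) (𝓝 (x : X)) :=
        (continuous_subtype_val.comp continuous_fst).continuousAt
      exact this.eventually (L.compat i j x hx1 hx2)
    refine tendsto_nhds_of_eventually_eq ?_
    filter_upwards [h1, h2] with p hp1 hp2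
    rw [hp1, hp2]
  coordChange_comp i j k x hx v := by
    simp only [mul_assoc, inv_mul_cancel_left]

theorem exists_par {T : Type} [TopologicalSpace T] [SimplyConnectedSpace T]
    [LocallyPathConnectedSpace T] (γ : T → X) (hγ : Continuous γ) (hd : ∀ t, γ t ∈ L.dom)
    (t₀ : T) (g₀ : G) : ∃ s : T → G, L.Par γ s ∧ s t₀ = g₀ := by
  let _ : TopologicalSpace G := ⊥
  have _ : DiscreteTopology G := ⟨rfl⟩
  set Z := L.core with hZ
  have cov : IsCoveringMap (Bundle.TotalSpace.proj : Bundle.TotalSpace G Z.Fiber → L.dom) :=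
    FiberBundle.isCoveringMap
  let f : C(T, L.dom) := ⟨fun t => ⟨γ t, hd t⟩, by fun_prop⟩
  let e₀ : Bundle.TotalSpace G Z.Fiber := ⟨f t₀, (g₀ * (L.φ (Z.indexAt (f t₀)) (γ t₀))⁻¹ : G)⟩
  obtain ⟨F, ⟨hF0, hF⟩, -⟩ := cov.existsUnique_continuousMap_lifts f t₀ e₀ rfl
  have hFp : ∀ t, (F t).proj = f t := fun t => congrFun hF t
  -- the coordinate in the chart `i`
  let v : T → G := fun t => (F t).snd
  refine ⟨fun t => v t * L.φ (Z.indexAt (f t)) (γ t), ?_, ?_⟩
  · intro t i hti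
    have hcont : ContinuousAt (fun u => (Z.localTriv i (F u)).2) t := by
      have h1 : ContinuousAt (Z.localTriv i) (F t) := by
        apply (Z.localTriv i).continuousAt
        rw [FiberBundleCore.mem_localTriv_source]
        show ((F t).proj : X) ∈ L.U i
        rw [hFp]; exact hti
      exact continuousAt_snd.comp (h1.comp F.continuous.continuousAt)
    have hev : ∀ᶠ u in 𝓝 t, (Z.localTriv i (F u)).2 = (Z.localTriv i (F t)).2 :=
      eventually_eq_of_discrete hcont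
    have hval : ∀ u, (Z.localTriv i (F u)).2
        = v u * L.φ (Z.indexAt (f u)) (γ u) * (L.φ i (γ u))⁻¹ := by
      intro u
      rw [FiberBundleCore.localTriv_apply]
      show v u * (L.φ (Z.indexAt (F u).proj) ((F u).proj : X) *
        (L.φ i ((F u).proj : X))⁻¹) = _
      rw [hFp]
      show v u * (L.φ (Z.indexAt (f u)) (γ u) * (L.φ i (γ u))⁻¹) = _
      rw [← mul_assoc]
    filter_upwards [hev] with u hu
    rw [hval, hval] at hu
    exact hu
  · have hv : v t₀ = g₀ * (L.φ (Z.indexAt (f t₀)) (γ t₀))⁻¹ := by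
      show (F t₀).snd = _
      rw [hF0]
    show v t₀ * L.φ (Z.indexAt (f t₀)) (γ t₀) = g₀
    rw [hv, inv_mul_cancel_right]

lemma const_of_eventually {T H : Type} [TopologicalSpace T] {S : Set T} (hS : IsPreconnected S)
    {r : T → H} (hr : ∀ x ∈ S, ∀ᶠ y in 𝓝 x, r y = r x) {x y : T} (hx : x ∈ S) (hy : y ∈ S) :
    r x = r y := by
  let _ : TopologicalSpace H := ⊥
  have _ : DiscreteTopology H := ⟨rfl⟩
  refine hS.constant (f := r) ?_ hx hy
  intro z hz
  apply ContinuousAt.continuousWithinAt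
  exact tendsto_nhds_of_eventually_eq (hr z hz)

variable {L}

lemma Par.mul {T : Type} [TopologicalSpace T] {γ : T → X} {s : T → G} (h : L.Par γ s) (g : G) :
    L.Par γ (fun t => g * s t) := by
  intro t i hi
  filter_upwards [h t i hi] with u hu
  rw [mul_assoc, hu, mul_assoc]

lemma Par.comp {T T' : Type} [TopologicalSpace T] [TopologicalSpace T'] {γ : T → X} {s : T → G}
    (h : L.Par γ s) {f : T' → T} (hf : Continuous f) : L.Par (γ ∘ f) (s ∘ f) := by
  intro t i hi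
  exact hf.continuousAt.eventually (h (f t) i hi)

/-- Two parallel functions along the same map differ by a locally constant factor. -/
lemma Par.ratio {T : Type} [TopologicalSpace T] {γ : T → X} {s s' : T → G} (h : L.Par γ s)
    (h' : L.Par γ s') (t : T) (ht : γ t ∈ L.dom) :
    ∀ᶠ u in 𝓝 t, s u * (s' u)⁻¹ = s t * (s' t)⁻¹ := by
  obtain ⟨i, hi⟩ := L.mem_dom.1 ht
  filter_upwards [h t i hi, h' t i hi] with u hu hu'
  have e1 : s u * (s' u)⁻¹ = (s u * (L.φ i (γ u))⁻¹) * (s' u * (L.φ i (γ u))⁻¹)⁻¹ := by group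
  have e2 : s t * (s' t)⁻¹ = (s t * (L.φ i (γ t))⁻¹) * (s' t * (L.φ i (γ t))⁻¹)⁻¹ := by group
  rw [e1, e2, hu, hu']

lemma Par.unique {T : Type} [TopologicalSpace T] [PreconnectedSpace T] {γ : T → X} {s s' : T → G}
    (h : L.Par γ s) (h' : L.Par γ s') (hd : ∀ t, γ t ∈ L.dom) (t t' : T) :
    s t * (s' t)⁻¹ = s t' * (s' t')⁻¹ :=
  const_of_eventually isPreconnected_univ (r := fun t => s t * (s' t)⁻¹)
    (fun x _ => h.ratio h' x (hd x)) (mem_univ t) (mem_univ t')

/-- `ψ` is parallel near every point of `S`. -/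
def ParOn (L : LS G X) (S : Set X) (ψ : X → G) : Prop :=
  ∀ x ∈ S, ∀ i, x ∈ L.U i → ∀ᶠ y in 𝓝 x, ψ y * (L.φ i y)⁻¹ = ψ x * (L.φ i x)⁻¹

lemma ParOn.mono {S S' : Set X} {ψ : X → G} (h : L.ParOn S ψ) (hS : S' ⊆ S) : L.ParOn S' ψ :=
  fun x hx => h x (hS hx)

lemma ParOn.mul {S : Set X} {ψ : X → G} (h : L.ParOn S ψ) (g : G) :
    L.ParOn S (fun x => g * ψ x) := by
  intro t ht i hi
  filter_upwards [h t ht i hi] with u hu
  rw [mul_assoc, hu, mul_assoc]

lemma parOn_chart (L : LS G X) (i : L.ι) : L.ParOn (L.U i) (L.φ i) :=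
  fun x hx j hj => L.compat i j x hx hj

lemma ParOn.par {T : Type} [TopologicalSpace T] {S : Set X} {ψ : X → G} (h : L.ParOn S ψ)
    {γ : T → X} (hγ : Continuous γ) (hd : ∀ t, γ t ∈ S) : L.Par γ (fun t => ψ (γ t)) := by
  intro t i hi
  exact hγ.continuousAt.eventually (h (γ t) (hd t) i hi)

lemma ParOn.ratio {S : Set X} {ψ ψ' : X → G} (h : L.ParOn S ψ) (h' : L.ParOn S ψ') {x : X}
    (hx : x ∈ S) (hd : x ∈ L.dom) : ∀ᶠ y in 𝓝 x, ψ y * (ψ' y)⁻¹ = ψ x * (ψ' x)⁻¹ := by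
  obtain ⟨i, hi⟩ := L.mem_dom.1 hd
  filter_upwards [h x hx i hi, h' x hx i hi] with u hu hu'
  have e1 : ψ u * (ψ' u)⁻¹ = (ψ u * (L.φ i u)⁻¹) * (ψ' u * (L.φ i u)⁻¹)⁻¹ := by group
  have e2 : ψ x * (ψ' x)⁻¹ = (ψ x * (L.φ i x)⁻¹) * (ψ' x * (L.φ i x)⁻¹)⁻¹ := by group
  rw [e1, e2, hu, hu']

lemma ParOn.unique {S : Set X} (hS : IsPreconnected S) {ψ ψ' : X → G} (h : L.ParOn S ψ)
    (h' : L.ParOn S ψ') (hd : S ⊆ L.dom) {x y : X} (hx : x ∈ S) (hy : y ∈ S) :
    ψ x * (ψ' x)⁻¹ = ψ y * (ψ' y)⁻¹ :=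
  const_of_eventually hS (r := fun t => ψ t * (ψ' t)⁻¹)
    (fun x hx => h.ratio h' hx (hd hx)) hx hy

/-- A function which differs from a parallel function by a locally constant factor. -/
lemma ParOn.of_ratio {S : Set X} {ψ ψ' : X → G} (h : L.ParOn S ψ)
    (h' : ∀ x ∈ S, ∀ᶠ y in 𝓝 x, ψ' y * (ψ y)⁻¹ = ψ' x * (ψ x)⁻¹) : L.ParOn S ψ' := by
  intro x hx i hi
  filter_upwards [h x hx i hi, h' x hx] with u hu hu'
  have e1 : ψ' u * (L.φ i u)⁻¹ = (ψ' u * (ψ u)⁻¹) * (ψ u * (L.φ i u)⁻¹) := by group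
  have e2 : ψ' x * (L.φ i x)⁻¹ = (ψ' x * (ψ x)⁻¹) * (ψ x * (L.φ i x)⁻¹) := by group
  rw [e1, e2, hu, hu']

/-- Existence of parallel functions on simply connected open sets. -/
lemma exists_parOn (L : LS G X) {S : Set X} (hS : IsOpen S) [SimplyConnectedSpace S]
    [LocallyPathConnectedSpace S] (hd : S ⊆ L.dom) {x₀ : X} (hx₀ : x₀ ∈ S) (g₀ : G) :
    ∃ ψ : X → G, L.ParOn S ψ ∧ ψ x₀ = g₀ := by
  classical
  obtain ⟨s, hs, hs0⟩ := L.exists_par (T := S) (fun t => (t : X)) continuous_subtype_val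
    (fun t => hd t.2) ⟨x₀, hx₀⟩ g₀
  refine ⟨fun x => if h : x ∈ S then s ⟨x, h⟩ else 1, ?_, ?_⟩
  · intro x hx i hi
    have h1 := hs ⟨x, hx⟩ i hi
    rw [nhds_subtype_eq_comap, eventually_comap] at h1
    filter_upwards [h1, hS.mem_nhds hx] with y hy hyS
    have := hy ⟨y, hyS⟩ rfl
    simp only [dif_pos hyS, dif_pos hx]
    exact this
  · simp only [dif_pos hx₀]
    exact hs0

end LS

/-- Existence of parallel functions on convex open sets. -/
lemma LS.exists_parOn_convex {G : Type} [Group G] {X : Type} [NormedAddCommGroup X]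
    [NormedSpace ℝ X] (L : LS G X) {S : Set X} (hS : IsOpen S) (hc : Convex ℝ S)
    (hd : S ⊆ L.dom) {x₀ : X} (hx₀ : x₀ ∈ S) (g₀ : G) :
    ∃ ψ : X → G, L.ParOn S ψ ∧ ψ x₀ = g₀ := by
  have : ContractibleSpace S := hc.contractibleSpace ⟨x₀, hx₀⟩
  have : LocallyPathConnectedSpace S := hS.locallyPathConnectedSpace
  exact L.exists_parOn hS hd hx₀ g₀

end Pool.Agent.H88.Nest
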