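import Pool.Agent.H88.Nest.Core

/-!
The shell theorem: no embedded sphere avoiding the double horn separates the two meridians.
-/

set_option autoImplicit false

namespace Pool.Agent.H88.Nest

open Topology Filter Set

lemma good_of {p : V3} (hx : |p.1| < 8)
    (h : |p.2.1| ≤ 8 → |p.2.2| ≤ 8 → zo1 p ∉ Qc ∧ zo2 p ∉ Qc ∧ ∃ i, p ∈ Sch i) :
    p ∈ ((⋃ i, Sch i) ∩ Amb) ∪ Oe := by
  by_cases hO : p ∈ Oe
  · exact Or.inr hO
  left
  simp only [Oe, mem_ofPred_eq, not_or, not_lt] at hO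
  obtain ⟨h1, h2, i, hi⟩ := h hO.2.1 hO.2.2
  exact ⟨mem_iUnion.2 ⟨i, hi⟩, ⟨hx, hO.2.1.trans_lt (by norm_num), hO.2.2.trans_lt (by norm_num)⟩,
    h1, h2⟩

lemma not_gap1 {p : V3} (h : p.1 < 2 ∨ 4 < p.1 ∨ p.2.1 < -1 ∨ 1 < p.2.1 ∨ p.2.2 < 1) :
    zo1 p ∉ Qc := by
  rintro ⟨h1, h2, h3⟩
  simp only [zo1] at h1 h2 h3
  rw [abs_le] at h1 h2 h3
  rcases h with h | h | h | h | h <;> linarith

lemma not_gap2 {p : V3} (h : -2 < p.1 ∨ p.1 < -4 ∨ p.2.2 < -1 ∨ 1 < p.2.2 ∨ p.2.1 < 1) :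
    zo2 p ∉ Qc := by
  rintro ⟨h1, h2, h3⟩
  simp only [zo2] at h1 h2 h3
  rw [abs_le] at h1 h2 h3
  rcases h with h | h | h | h | h <;> linarith

lemma boxes_dom {r : ℝ} (hr : 8 ≤ r) : ∀ k ∈ boxes r, k.S ⊆ ((⋃ i, Sch i) ∩ Amb) ∪ Oe := by
  simp only [boxes, List.mem_cons, List.not_mem_nil, or_false, forall_eq_or_imp, forall_eq]
  have hT : ∀ p : V3, 8 < |p.1| - 1 ∨ 8 < |p.2.1| ∨ 8 < |p.2.2| →
      p ∈ ((⋃ i, Sch i) ∩ Amb) ∪ Oe := fun p h => Or.inr (by
    rcases h with h | h | h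
    · exact Or.inl (by linarith)
    · exact Or.inr (Or.inl h)
    · exact Or.inr (Or.inr h))
  refine ⟨?_, ?_, ?_, ?_, ?_, ?_, ?_, ?_, ?_, ?_, ?_, ?_, ?_, ?_, ?_, ?_, ?_, ?_, ?_, ?_⟩ <;>
    rintro p ⟨⟨h1, h2⟩, ⟨h3, h4⟩, ⟨h5, h6⟩⟩ <;>
    simp only [kWpp, kWpm, kWmp, kWmm, kT, kBo, kBa, kFr, kU1, kU2, kU3, kU4, kV1, kV2, kV3,
      kTe, kBae, kBoe, kFe, kLf] at h1 h2 h3 h4 h5 h6
  · exact good_of (by rw [abs_lt]; constructor <;> linarith) fun _ _ =>
      ⟨not_gap1 (Or.inr (Or.inr (Or.inr (Or.inl h3)))), not_gap2 (Or.inr (Or.inr (Or.inr (Or.inl h5)))),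
        .s0, by intro h; linarith, Or.inl (by intro h; linarith)⟩
  · exact good_of (by rw [abs_lt]; constructor <;> linarith) fun _ _ =>
      ⟨not_gap1 (Or.inr (Or.inr (Or.inr (Or.inl h3)))), not_gap2 (Or.inr (Or.inr (Or.inl h6))),
        .s0, by intro h; linarith, Or.inl (by intro h; linarith)⟩
  · exact good_of (by rw [abs_lt]; constructor <;> linarith) fun _ _ =>
      ⟨not_gap1 (Or.inr (Or.inr (Or.inl h4))), not_gap2 (Or.inr (Or.inr (Or.inr (Or.inl h5)))),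
        .s0, by intro h; linarith, Or.inl (by intro h; linarith)⟩
  · exact good_of (by rw [abs_lt]; constructor <;> linarith) fun _ _ =>
      ⟨not_gap1 (Or.inr (Or.inr (Or.inl h4))), not_gap2 (Or.inr (Or.inr (Or.inl h6))),
        .s0, by intro h; linarith, Or.inl (by intro h; linarith)⟩
  · exact hT p (Or.inr (Or.inr (lt_abs.2 (Or.inl h5))))
  · exact good_of (by rw [abs_lt]; constructor <;> linarith) fun _ _ =>
      ⟨not_gap1 (Or.inr (Or.inr (Or.inr (Or.inr (by linarith))))),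
        not_gap2 (Or.inr (Or.inr (Or.inl (by linarith)))),
        .s0, by intro h; linarith, Or.inr (Or.inl (by rw [lt_abs]; right; linarith))⟩
  · exact hT p (Or.inr (Or.inl (lt_abs.2 (Or.inl h3))))
  · exact good_of (by rw [abs_lt]; constructor <;> linarith) fun _ _ =>
      ⟨not_gap1 (Or.inr (Or.inr (Or.inl (by linarith)))),
        not_gap2 (Or.inr (Or.inr (Or.inr (Or.inr (by linarith))))),
        .s5, Or.inl (by rw [lt_abs]; right; linarith), by intro h; linarith⟩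
  · exact good_of (by rw [abs_lt]; constructor <;> linarith) fun _ _ =>
      ⟨not_gap1 (Or.inl (by linarith)), not_gap2 (Or.inr (Or.inr (Or.inr (Or.inl (by linarith))))),
        .s3, ⟨by linarith, by rw [abs_lt]; constructor <;> linarith⟩, Or.inl (by intro h; linarith)⟩
  · exact good_of (by rw [abs_lt]; constructor <;> linarith) fun _ _ =>
      ⟨not_gap1 (Or.inl (by linarith)), not_gap2 (Or.inr (Or.inr (Or.inl (by linarith)))),
        .s3, ⟨by linarith, by rw [abs_lt]; constructor <;> linarith⟩, Or.inl (by intro h; linarith)⟩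
  · exact good_of (by rw [abs_lt]; constructor <;> linarith) fun _ _ =>
      ⟨not_gap1 (Or.inl (by linarith)), not_gap2 (Or.inr (Or.inl (by linarith))),
        .s3, ⟨by linarith, by rw [abs_lt]; constructor <;> linarith⟩, Or.inr (by linarith)⟩
  · exact good_of (by rw [abs_lt]; constructor <;> linarith) fun _ _ =>
      ⟨not_gap1 (Or.inl (by linarith)), not_gap2 (Or.inl (by linarith)),
        .s2, ⟨by linarith, by rw [abs_lt]; constructor <;> linarith⟩,
        ⟨by linarith, by rw [abs_lt]; constructor <;> linarith⟩⟩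
  · exact good_of (by rw [abs_lt]; constructor <;> linarith) fun _ _ =>
      ⟨not_gap1 (Or.inr (Or.inr (Or.inr (Or.inl (by linarith))))), not_gap2 (Or.inl (by linarith)),
        .s1, ⟨by linarith, by rw [abs_lt]; constructor <;> linarith⟩, Or.inl (by intro h; linarith)⟩
  · exact good_of (by rw [abs_lt]; constructor <;> linarith) fun _ _ =>
      ⟨not_gap1 (Or.inr (Or.inr (Or.inl (by linarith)))), not_gap2 (Or.inl (by linarith)),
        .s1, ⟨by linarith, by rw [abs_lt]; constructor <;> linarith⟩, Or.inl (by intro h; linarith)⟩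
  · exact good_of (by rw [abs_lt]; constructor <;> linarith) fun _ _ =>
      ⟨not_gap1 (Or.inr (Or.inl (by linarith))), not_gap2 (Or.inl (by linarith)),
        .s1, ⟨by linarith, by rw [abs_lt]; constructor <;> linarith⟩, Or.inr (by linarith)⟩
  · exact hT p (Or.inr (Or.inr (lt_abs.2 (Or.inl (by linarith)))))
  · exact hT p (Or.inr (Or.inl (lt_abs.2 (Or.inl (by linarith)))))
  · exact hT p (Or.inr (Or.inr (lt_abs.2 (Or.inr (by linarith)))))
  · exact hT p (Or.inr (Or.inl (lt_abs.2 (Or.inr (by linarith)))))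
  · refine hT p (Or.inl ?_)
    rw [abs_of_neg (by linarith)]; linarith

lemma sqY_eq_zero {t : ℝ} (h : sqY t = 0) : sqZ t = 1 ∨ sqZ t = -1 := by
  rcases lt_trichotomy t 0 with h0 | h0 | h0
  · exact absurd h (sqY_neg1 h0).ne
  · right; rw [h0]; exact sqZ_zero
  rcases lt_trichotomy t 4 with h4 | h4 | h4
  · exact absurd h (sqY_pos1 h0 h4).ne'
  · left; rw [h4]; exact sqZ_one (by norm_num) (by norm_num)
  rcases lt_trichotomy t 8 with h8 | h8 | h8
  · exact absurd h (sqY_neg2 h4 h8).ne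
  · right; rw [h8]; exact sqZ_eight
  · exact absurd h (sqY_pos2 h8).ne'

lemma alp_dom {u : ℝ} (h1 : 1 / 2 < u) (h2 : u ≤ 3 / 2) (t : ℝ) :
    alp u t ∈ (⋃ i, Sch i) ∩ Amb := by
  refine ⟨?_, alp_Amb h1 h2 t⟩
  rw [mem_iUnion]
  have hz : (alp u t).2.2 ≠ 0 := by
    have := (alp_bounds h1 h2 t).2.1
    intro h; rw [h] at this; norm_num at this
  by_cases hy : sqY t = 0
  · rcases sqY_eq_zero hy with h | h
    · refine ⟨.s0, hz, Or.inr (Or.inl ?_)⟩
      simp only [alp, h]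
      rw [lt_abs]; left; linarith
    · refine ⟨.s3, ⟨?_, ?_⟩, Or.inl hz⟩
      · simp only [alp]; norm_num
      · simp only [alp, h]
        rw [abs_lt]; constructor <;> linarith
  · exact ⟨.s0, hz, Or.inl (mul_ne_zero (by linarith) hy)⟩

lemma bet_dom {u : ℝ} (h1 : 1 / 2 < u) (h2 : u ≤ 3 / 2) (t : ℝ) :
    bet u t ∈ (⋃ i, Sch i) ∩ Amb := by
  refine ⟨?_, bet_Amb h1 h2 t⟩
  rw [mem_iUnion]
  have hz : (bet u t).2.1 ≠ 0 := by
    have := (bet_bounds h1 h2 t).2.1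
    intro h; rw [h] at this; norm_num at this
  by_cases hy : sqY t = 0
  · rcases sqY_eq_zero hy with h | h
    · refine ⟨.s5, Or.inl ?_, hz⟩
      simp only [bet, h]
      rw [lt_abs]; left; linarith
    · refine ⟨.s1, ⟨?_, ?_⟩, Or.inl hz⟩
      · simp only [bet]; norm_num
      · simp only [bet, h]
        rw [abs_lt]; constructor <;> linarith
  · exact ⟨.s0, mul_ne_zero (by linarith) hy, Or.inl hz⟩

lemma isClosed_DD : IsClosed DD := isClosed_le continuous_const (by fun_prop)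

/-- **The shell theorem.** -/
theorem shell {f : Sph → V3} (hf : Continuous f) (hinj : Function.Injective f)
    (hav : ∀ t, f t ∈ Qs → f t ∉ Fm '' DD) {A B : Set V3} (hA : IsOpen A) (hB : IsOpen B)
    (hAB : Disjoint A B) (hcompl : (range f)ᶜ ⊆ A ∪ B) (hαA : ∀ t, alp (2 / 3) t ∈ A)
    (hβB : ∀ t, bet (2 / 3) t ∈ B) : False := by
  -- the distance to the double horn
  have hK : IsClosed (Fm '' DD ∩ Qs) := (Fm_isClosedMap _ isClosed_DD).inter isClosed_Qs
  have hdisj : Disjoint (range f) (Fm '' DD ∩ Qs) := by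
    rw [Set.disjoint_left]
    rintro _ ⟨t, rfl⟩ ⟨h1, h2⟩
    exact hav t h2 h1
  obtain ⟨δ, hδ, hdist⟩ := Metric.exists_pos_forall_lt_edist (isCompact_range hf) hK hdisj
  have hδ' : (0 : ℝ) < δ := hδ
  obtain ⟨n, hn⟩ : ∃ n : ℕ, (16 : ℝ) / 100 ^ (n + 1) < δ := by
    have h1 : Tendsto (fun n : ℕ => (16 : ℝ) * ((1 : ℝ) / 100) ^ (n + 1)) atTop (𝓝 0) := by
      have h : Tendsto (fun n : ℕ => ((1 : ℝ) / 100) ^ n) atTop (𝓝 0) :=
        tendsto_pow_atTop_nhds_zero_of_lt_one (by norm_num) (by norm_num)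
      simpa using (h.comp (tendsto_add_atTop_nat 1)).const_mul 16
    obtain ⟨n, hn⟩ := (h1.eventually (gt_mem_nhds hδ')).exists
    refine ⟨n, ?_⟩
    rw [one_div, inv_pow] at hn
    exact hn
  obtain ⟨P, a, ha, hdom, hP⟩ := exists_stage n
  have hfd : ∀ t, f t ∈ P.dom := by
    intro t
    rw [hdom]
    by_cases hO : f t ∈ Oe
    · exact Or.inr hO
    left
    simp only [Oe, mem_ofPred_eq, not_or, not_lt] at hO
    have hQ : f t ∈ Qs := ⟨hO.1.trans (by norm_num), hO.2⟩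
    have hF := hav t hQ
    have hx : |(f t).1| < 8 := by
      by_contra h
      exact hF (DD_sub (not_lt.1 h))
    refine mem_Yn (n + 1) (f t) ⟨hx, hO.2.1.trans_lt (by norm_num), hO.2.2.trans_lt (by norm_num)⟩
      hF ?_
    intro hG
    obtain ⟨y, h1, h2, h3⟩ := Gam_close (n + 1) _ hG
    have h4 := hdist (f t) ⟨t, rfl⟩ y ⟨h1, h2⟩
    have h5 : dist (f t) y < δ := h3.trans_lt hn
    rw [edist_nndist] at h4
    have h6 : δ < nndist (f t) y := by exact_mod_cast h4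
    have h7 : (δ : ℝ) < dist (f t) y := h6
    linarith
  have hfr : ((⋃ i, Sch i) ∩ Amb) ∪ Oe ⊆ P.dom := by
    rw [hdom]
    rintro p (h | h)
    · exact Or.inl (Or.inl h)
    · exact Or.inr h
  obtain ⟨s, hs, hs8⟩ := hol_P_alp (ρ := 2 / 3) (by norm_num) (by norm_num) hP
  obtain ⟨s', hs', hs8'⟩ := hol_P_bet (ρ := 2 / 3) (by norm_num) (by norm_num) hP
  exact cert P (r := 8) le_rfl (fun k hk => (boxes_dom le_rfl k hk).trans hfr) hf hinj hfd hA hB
    hAB hcompl (ρ := 2 / 3) (by norm_num)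
    (fun u hu t => hfr (Or.inl (alp_dom (by linarith [hu.1]) hu.2 t)))
    (fun u hu t => hfr (Or.inl (bet_dom (by linarith [hu.1]) hu.2 t))) hαA hβB hs hs'
    (by rw [hs8]; exact inv_ne_one.2 ha) (by rw [hs8']; exact ha)

end Pool.Agent.H88.Nest
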