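import Pool.Agent.H88.Nest.LS

/-!
Parallel functions along maps of the 2-sphere.
-/

set_option autoImplicit false

namespace Pool.Agent.H88.Nest

open Topology Filter Set

variable {G : Type} [Group G] {X : Type} [TopologicalSpace X]

/-- Pullback of a flat structure. -/
def LS.comap (L : LS G X) {T : Type} [TopologicalSpace T] (γ : T → X) (hγ : Continuous γ) :
    LS G T where
  ι := L.ι
  U i := γ ⁻¹' L.U i
  φ i t := L.φ i (γ t)
  isOpen_U i := (L.isOpen_U i).preimage hγ
  compat i j x hx hy := hγ.continuousAt.eventually (L.compat i j (γ x) hx hy)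

lemma LS.exists_par_union (L : LS G X) {T : Type} [TopologicalSpace T] {A B : Set T}
    (hA : IsOpen A) (hB : IsOpen B) [SimplyConnectedSpace A] [LocallyPathConnectedSpace A]
    [SimplyConnectedSpace B] [LocallyPathConnectedSpace B] (hAB : A ∪ B = univ)
    (hc : IsPreconnected (A ∩ B)) {t₀ : T} (ht₀ : t₀ ∈ A ∩ B) (γ : T → X) (hγ : Continuous γ)
    (hd : ∀ t, γ t ∈ L.dom) : ∃ s : T → G, L.Par γ s := by
  classical
  set M := L.comap γ hγ with hM
  have hMd : ∀ t, t ∈ M.dom := by
    intro t
    obtain ⟨i, hi⟩ := L.mem_dom.1 (hd t)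
    exact M.mem_dom.2 ⟨i, hi⟩
  obtain ⟨a, ha, ha0⟩ := M.exists_parOn hA (fun t _ => hMd t) ht₀.1 1
  obtain ⟨b, hb, hb0⟩ := M.exists_parOn hB (fun t _ => hMd t) ht₀.2 1
  have hab : ∀ t ∈ A ∩ B, a t = b t := by
    intro t ht
    have h1 := LS.ParOn.unique hc (ha.mono inter_subset_left) (hb.mono inter_subset_right)
      (fun t _ => hMd t) ht ht₀
    rw [ha0, hb0] at h1
    have : a t * (b t)⁻¹ = 1 := by rw [h1]; simp
    exact mul_inv_eq_one.1 this
  refine ⟨fun t => if t ∈ A then a t else b t, ?_⟩
  have key : ∀ t, ∀ i, t ∈ M.U i → ∀ᶠ u in 𝓝 t,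
      (if u ∈ A then a u else b u) * (M.φ i u)⁻¹ = (if t ∈ A then a t else b t) * (M.φ i t)⁻¹ := by
    intro t i hi
    by_cases htA : t ∈ A
    · filter_upwards [ha t htA i hi, hA.mem_nhds htA] with u hu huA
      rw [if_pos huA, if_pos htA, hu]
    · have htB : t ∈ B := by
        have : t ∈ A ∪ B := by rw [hAB]; trivial
        exact this.resolve_left htA
      filter_upwards [hb t htB i hi, hB.mem_nhds htB] with u hu huB
      rw [if_neg htA]
      by_cases huA : u ∈ A
      · rw [if_pos huA, hab u ⟨huA, huB⟩, hu]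
      · rw [if_neg huA, hu]
  exact key

/-- The unit sphere. -/
abbrev Sph : Type := Metric.sphere (0 : EuclideanSpace ℝ (Fin 3)) 1

noncomputable def puncturedHomeo (v : Sph) :
    ({v}ᶜ : Set Sph) ≃ₜ (ℝ ∙ (v : EuclideanSpace ℝ (Fin 3)))ᗮ :=
  ((stereographic (norm_eq_of_mem_sphere v)).toHomeomorphSourceTarget).trans
    (Homeomorph.Set.univ _)

instance (v : Sph) : ContractibleSpace ({v}ᶜ : Set Sph) :=
  (puncturedHomeo v).contractibleSpace

instance (v : Sph) : LocallyPathConnectedSpace ({v}ᶜ : Set Sph) :=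
  (puncturedHomeo v).isOpenEmbedding.locallyPathConnectedSpace

lemma isPreconnected_twice_punctured (v : Sph) :
    IsPreconnected (({v}ᶜ : Set Sph) ∩ {-v}ᶜ) := by
  have hv := norm_eq_of_mem_sphere v
  have h1 : (({v}ᶜ : Set Sph) ∩ {-v}ᶜ) =
      (stereographic hv).symm '' ({0}ᶜ : Set (ℝ ∙ (v : EuclideanSpace ℝ (Fin 3)))ᗮ) := by
    have hs : (stereographic hv).source = {v}ᶜ := rfl
    ext x
    constructor
    · rintro ⟨h1, h2⟩
      refine ⟨stereographic hv x, ?_, ?_⟩
      · intro h3
        apply h2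
        have h4 : stereographic hv x = stereographic hv (-v) := by
          rw [h3, stereographic_apply_neg]
        have h5 : (-v : Sph) ∈ (stereographic hv).source := by
          rw [hs]
          intro h6
          exact ne_neg_of_mem_unit_sphere ℝ v h6.symm
        exact (stereographic hv).injOn (by rw [hs]; exact h1) h5 h4
      · exact (stereographic hv).left_inv (by rw [hs]; exact h1)
    · rintro ⟨y, hy, rfl⟩
      constructor
      · have := (stereographic hv).map_target (x := y) (by simp)
        rwa [hs] at this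
      · intro h6
        apply hy
        have h7 := (stereographic hv).right_inv (x := y) (by simp)
        rw [h6, stereographic_apply_neg] at h7
        exact h7.symm
  rw [h1]
  apply IsPreconnected.image
  · apply (isConnected_compl_singleton_of_one_lt_rank _ 0).isPreconnected
    have h2 : Module.finrank ℝ (EuclideanSpace ℝ (Fin 3)) = 2 + 1 := by simp
    have : Fact (Module.finrank ℝ (EuclideanSpace ℝ (Fin 3)) = 2 + 1) := ⟨h2⟩
    have h3 : Module.finrank ℝ (ℝ ∙ (v : EuclideanSpace ℝ (Fin 3)))ᗮ = 2 :=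
      Submodule.finrank_orthogonal_span_singleton (ne_zero_of_mem_unit_sphere v)
    rw [← Module.finrank_eq_rank, h3]
    norm_num
  · exact (stereographic hv).continuousOn_symm.mono (by simp)

theorem LS.exists_par_sphere (L : LS G X) (f : Sph → X) (hf : Continuous f)
    (hd : ∀ t, f t ∈ L.dom) : ∃ s : Sph → G, L.Par f s := by
  let e : Fin 3 → EuclideanSpace ℝ (Fin 3) := fun i => EuclideanSpace.single i 1
  let v : Sph := ⟨e 0, by simp [e]⟩
  let w : Sph := ⟨e 1, by simp [e]⟩
  have hvw : w ∈ ({v}ᶜ : Set Sph) ∩ {-v}ᶜ := by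
    constructor
    · intro h
      have h1 := congrArg (fun x : Sph => (x : EuclideanSpace ℝ (Fin 3)) 0) h
      simp [v, w, e] at h1
    · intro h
      have h1 := congrArg (fun x : Sph => (x : EuclideanSpace ℝ (Fin 3)) 0) h
      simp [v, w, e] at h1
  refine L.exists_par_union (A := {v}ᶜ) (B := {-v}ᶜ) isOpen_compl_singleton
    isOpen_compl_singleton ?_ (isPreconnected_twice_punctured v) hvw f hf hd
  rw [eq_univ_iff_forall]
  intro x
  by_cases hx : x = v
  · right
    rw [hx]
    intro h
    exact ne_neg_of_mem_unit_sphere ℝ v h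
  · left; exact hx

end Pool.Agent.H88.Nest
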