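import Pool.Agent.H88.Nest.Unit
import Pool.Agent.H88.Nest.Cert

/-!
The recursion: flat structures on the complement of the finite stages.
-/

set_option autoImplicit false

namespace Pool.Agent.H88.Nest

open Topology Filter Set

/-- The collar. -/
def Col : Set V3 := Om ∩ {p | 8 < |p.2.1| ∨ 8 < |p.2.2|}

lemma isOpen_Col : IsOpen Col := by
  have h1 : IsOpen {p : V3 | 8 < |p.2.1|} := isOpen_lt (by fun_prop) (by fun_prop)
  have h2 : IsOpen {p : V3 | 8 < |p.2.2|} := isOpen_lt (by fun_prop) (by fun_prop)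
  exact isOpen_Om.inter (h1.union h2)

variable {G : Type} [Group G]

open Classical in
/-- The frame with a jump `c` across `z = 0`. -/
noncomputable def kap (c : G) : V3 → G := fun p => if p.2.2 < 0 then c else 1

open Classical in
/-- The standard frame near the point `p` of the collar. -/
noncomputable def stdf (c : G) (p : V3) : V3 → G :=
  if p.2.2 = 0 ∧ p.2.1 < 0 then kap c else fun _ => 1

lemma stdf_pos {c : G} {p : V3} (h : p.2.2 = 0 ∧ p.2.1 < 0) : stdf c p = kap c := if_pos h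
lemma stdf_neg {c : G} {p : V3} (h : ¬ (p.2.2 = 0 ∧ p.2.1 < 0)) : stdf c p = fun _ => 1 := if_neg h

/-- Standard form on the collar. -/
def Std (c : G) (L : LS G V3) : Prop :=
  L.dom ⊆ Om ∧ ∀ p ∈ Col, ∀ i, p ∈ L.U i → Cmp (stdf c p) (L.φ i) p

lemma Cmp.comap {f g : V3 → G} {z : V3 → V3} (hz : Continuous z) {p : V3} (h : Cmp f g (z p)) :
    Cmp (f ∘ z) (g ∘ z) p := hz.continuousAt.eventually h

/-- The structure on the collar. -/
noncomputable def colLS (c : G) : LS G V3 where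
  ι := Bool
  U := fun i => if i then Col ∩ {p | p.2.2 ≠ 0 ∨ 0 < p.2.1} else Col ∩ {p | p.2.1 < 0}
  φ := fun i => if i then fun _ => 1 else kap c
  isOpen_U := by
    have h1 : IsOpen {p : V3 | p.2.2 ≠ 0} := isOpen_ne_fun (by fun_prop) (by fun_prop)
    have h2 : IsOpen {p : V3 | 0 < p.2.1} := isOpen_lt (by fun_prop) (by fun_prop)
    have h3 : IsOpen {p : V3 | p.2.1 < 0} := isOpen_lt (by fun_prop) (by fun_prop)
    rintro (_ | _)
    · exact isOpen_Col.inter h3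
    · exact isOpen_Col.inter (h1.union h2)
  compat := by
    have key : ∀ p : V3, p ∈ Col ∩ {p | p.2.2 ≠ 0 ∨ 0 < p.2.1} → p ∈ Col ∩ {p | p.2.1 < 0} →
        Cmp (fun _ => (1 : G)) (kap c) p := by
      rintro p ⟨-, h1⟩ ⟨-, h2⟩
      have h3 : p.2.2 ≠ 0 := h1.resolve_right (not_lt.2 (le_of_lt h2))
      refine Cmp.of_z h3 fun q hq => ?_
      simp only [kap, hq]
    rintro (_ | _) (_ | _) p hp hp'
    · exact Cmp.refl _ _
    · exact (key p hp' hp).symm
    · exact key p hp hp'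
    · exact Cmp.refl _ _

lemma colLS_dom (c : G) : (colLS c).dom = Col := by
  ext p
  rw [LS.mem_dom]
  constructor
  · rintro ⟨_ | _, h⟩
    · exact h.1
    · exact h.1
  · intro hp
    by_cases h : p.2.2 ≠ 0 ∨ 0 < p.2.1
    · exact ⟨true, hp, h⟩
    · refine ⟨false, hp, ?_⟩
      push Not at h
      show p.2.1 < 0
      rcases hp.2 with h1 | h1
      · rcases lt_or_eq_of_le h.2 with h2 | h2
        · exact h2
        · rw [h2] at h1; norm_num at h1
      · rw [h.1] at h1; norm_num at h1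

lemma colLS_std (c : G) : Std c (colLS c) := by
  refine ⟨by rw [colLS_dom]; exact inter_subset_left, ?_⟩
  rintro p hp (_ | _) h
  · have hy : p.2.1 < 0 := h.2
    by_cases hz : p.2.2 = 0
    · rw [stdf_pos ⟨hz, hy⟩]; exact Cmp.refl _ _
    · rw [stdf_neg (fun h => hz h.1)]
      refine Cmp.of_z hz fun q hq => ?_
      show 1 * (kap c q)⁻¹ = 1 * (kap c p)⁻¹
      simp only [kap, hq]
  · have h' : p.2.2 ≠ 0 ∨ 0 < p.2.1 := h.2
    rw [stdf_neg (by rintro ⟨h1, h2⟩; rcases h' with h' | h'; exact h' h1; linarith)]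
    exact Cmp.refl _ _

lemma inner1 (a b : G) (i : C5) {p : V3} (hi : p ∈ Sch i) (hp : zo1 p ∈ Om) :
    Cmp (fch a b i) (stdf a (zo1 p) ∘ zo1) p := by
  obtain ⟨h1, h2, h3⟩ := hp
  simp only [zo1] at h1 h2 h3
  rw [abs_lt] at h1 h2 h3
  have hz : p.2.2 ≠ 0 := by intro h; linarith
  have hz' : ¬ p.2.2 < 0 := by intro h; linarith
  -- the two possibilities for the standard frame
  have hpos : p.2.1 = 0 → p.1 < 3 →
      stdf a (zo1 p) ∘ zo1 = fun q => if q.2.1 < 0 then a else 1 := by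
    intro hy hx
    rw [stdf_pos ⟨by simp [zo1, hy], by simp only [zo1]; linarith⟩]
    funext q
    show (if (zo1 q).2.2 < 0 then a else 1) = _
    by_cases hq : q.2.1 < 0
    · rw [if_pos (show (zo1 q).2.2 < 0 by simp only [zo1]; linarith), if_pos hq]
    · rw [if_neg (show ¬ (zo1 q).2.2 < 0 by simp only [zo1]; intro h; apply hq; linarith),
        if_neg hq]
  have hneg : (p.2.1 ≠ 0 ∨ 3 ≤ p.1) → stdf a (zo1 p) ∘ zo1 = fun _ => 1 := by
    intro h
    rw [stdf_neg]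
    · rfl
    · rintro ⟨h4, h5⟩
      simp only [zo1] at h4 h5
      rcases h with h | h
      · apply h; linarith
      · linarith
  cases i with
  | s0 =>
    have h4 : p.2.1 ≠ 0 ∨ 3 ≤ p.1 := by
      rcases hi.2 with h | h | h
      · exact Or.inl h
      · exfalso; rw [lt_abs] at h; rcases h with h | h <;> linarith
      · right; linarith
    rw [hneg h4]; exact Cmp.refl _ _
  | s1 =>
    have h4 : p.2.1 ≠ 0 ∨ 3 ≤ p.1 := by
      rcases hi.2 with h | h
      · exact Or.inl h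
      · right; linarith
    rw [hneg h4]
    refine Cmp.of_z hz fun q hq => ?_
    simp only [fch, hq]
  | s2 =>
    have hx : p.1 < 5 / 2 := hi.1.1
    by_cases hy : p.2.1 = 0
    · rw [hpos hy (by linarith)]
      refine Cmp.of_z hz fun q hq => ?_
      simp only [fch, hq, hz', if_false]
      split_ifs <;> group
    · rw [hneg (Or.inl hy)]
      have := Cmp.of_ne (a := a) (b := b) .s2 .s0 hy hz
      exact this
  | s3 =>
    have hx : p.1 < 5 / 2 := hi.1.1
    by_cases hy : p.2.1 = 0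
    · rw [hpos hy (by linarith)]
      refine Cmp.of_z hz fun q hq => ?_
      simp only [fch, hq, hz', if_false]
      split_ifs <;> group
    · rw [hneg (Or.inl hy)]
      have := Cmp.of_ne (a := a) (b := b) .s3 .s0 hy hz
      exact this
  | s5 =>
    exfalso
    rcases hi.1 with h | h
    · rw [lt_abs] at h; rcases h with h | h <;> linarith
    · linarith

lemma inner2 (a b : G) (i : C5) {p : V3} (hi : p ∈ Sch i) (hp : zo2 p ∈ Om) :
    Cmp (fch a b i) (stdf b⁻¹ (zo2 p) ∘ zo2) p := by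
  obtain ⟨h1, h2, h3⟩ := hp
  simp only [zo2] at h1 h2 h3
  rw [abs_lt] at h1 h2 h3
  have hy : p.2.1 ≠ 0 := by intro h; linarith
  have hy' : ¬ p.2.1 < 0 := by intro h; linarith
  have hpos : p.2.2 = 0 → -3 < p.1 →
      stdf b⁻¹ (zo2 p) ∘ zo2 = fun q => if q.2.2 < 0 then b⁻¹ else 1 := by
    intro hz hx
    rw [stdf_pos ⟨by simp [zo2, hz], by simp only [zo2]; linarith⟩]
    funext q
    show (if (zo2 q).2.2 < 0 then b⁻¹ else 1) = _
    by_cases hq : q.2.2 < 0
    · rw [if_pos (show (zo2 q).2.2 < 0 by simp only [zo2]; linarith), if_pos hq]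
    · rw [if_neg (show ¬ (zo2 q).2.2 < 0 by simp only [zo2]; intro h; apply hq; linarith),
        if_neg hq]
  have hneg : (p.2.2 ≠ 0 ∨ p.1 ≤ -3) → stdf b⁻¹ (zo2 p) ∘ zo2 = fun _ => 1 := by
    intro h
    rw [stdf_neg]
    · rfl
    · rintro ⟨h4, h5⟩
      simp only [zo2] at h4 h5
      rcases h with h | h
      · apply h; linarith
      · linarith
  cases i with
  | s0 =>
    rw [hneg (Or.inl hi.1)]; exact Cmp.refl _ _
  | s1 =>
    have hx : -5 / 2 < p.1 := hi.1.1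
    by_cases hz : p.2.2 = 0
    · rw [hpos hz (by linarith)]
      exact Cmp.refl _ _
    · rw [hneg (Or.inl hz)]
      exact Cmp.of_ne (a := a) (b := b) .s1 .s0 hy hz
  | s2 =>
    have hx : -5 / 2 < p.1 := hi.2.1
    by_cases hz : p.2.2 = 0
    · rw [hpos hz (by linarith)]
      refine Cmp.of_y hy fun q hq => ?_
      simp only [fch, hq, hy', if_false]
      split_ifs <;> group
    · rw [hneg (Or.inl hz)]
      exact Cmp.of_ne (a := a) (b := b) .s2 .s0 hy hz
  | s3 =>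
    have h4 : p.2.2 ≠ 0 ∨ p.1 ≤ -3 := by
      rcases hi.2 with h | h
      · exact Or.inl h
      · right; linarith
    rw [hneg h4]
    refine Cmp.of_y hy fun q hq => ?_
    simp only [fch, hq, hy', if_false]
  | s5 =>
    have h4 : p.2.2 ≠ 0 ∨ p.1 ≤ -3 := by
      rcases hi.1 with h | h
      · exfalso; rw [lt_abs] at h; rcases h with h | h <;> linarith
      · right; linarith
    rw [hneg h4]
    refine Cmp.of_y hy fun q hq => ?_
    simp only [fch, hq, hy', if_false]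

lemma outer (a b : G) (i : C5) {p : V3} (hi : p ∈ Sch i) (hp : p ∈ Col) :
    Cmp (stdf (lab a b) p) (fch a b i) p := by
  have hC := hp.2
  cases i with
  | s0 =>
    rw [stdf_neg (fun h => hi.1 h.1)]; exact Cmp.refl _ _
  | s1 =>
    have hy := hi.1.2
    rw [abs_lt] at hy
    have hz : p.2.2 ≠ 0 := by
      rcases hC with h | h
      · rw [lt_abs] at h; rcases h with h | h <;> linarith
      · intro h0; rw [h0] at h; norm_num at h
    rw [stdf_neg (fun h => hz h.1)]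
    refine Cmp.of_z hz fun q hq => ?_
    simp only [fch, hq]
  | s2 =>
    exfalso
    have hy := hi.2.2
    have hz := hi.1.2
    rw [abs_lt] at hy hz
    rcases hC with h | h
    · rw [lt_abs] at h; rcases h with h | h <;> linarith
    · rw [lt_abs] at h; rcases h with h | h <;> linarith
  | s3 =>
    have hz := hi.1.2
    rw [abs_lt] at hz
    have hy : p.2.1 ≠ 0 := by
      rcases hC with h | h
      · intro h0; rw [h0] at h; norm_num at h
      · rw [lt_abs] at h; rcases h with h | h <;> linarith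
    by_cases h : p.2.2 = 0 ∧ p.2.1 < 0
    · rw [stdf_pos h]
      refine Cmp.of_y hy fun q hq => ?_
      simp only [fch, hq, h.2, if_true, kap, lab]
      split_ifs <;> group
    · rw [stdf_neg h]
      by_cases hz' : p.2.2 = 0
      · have hy' : ¬ p.2.1 < 0 := fun h' => h ⟨hz', h'⟩
        refine Cmp.of_y hy fun q hq => ?_
        simp only [fch, hq, hy', if_false]
      · exact Cmp.of_ne (a := a) (b := b) .s0 .s3 hy hz'
  | s5 =>
    have hy : p.2.1 ≠ 0 := hi.2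
    by_cases h : p.2.2 = 0 ∧ p.2.1 < 0
    · rw [stdf_pos h]
      refine Cmp.of_y hy fun q hq => ?_
      simp only [fch, hq, h.2, if_true, kap]
      split_ifs <;> group
    · rw [stdf_neg h]
      by_cases hz' : p.2.2 = 0
      · have hy' : ¬ p.2.1 < 0 := fun h' => h ⟨hz', h'⟩
        refine Cmp.of_y hy fun q hq => ?_
        simp only [fch, hq, hy', if_false]
      · exact Cmp.of_ne (a := a) (b := b) .s0 .s5 hy hz'

lemma zo1_Om {p : V3} (hp : zo1 p ∈ Om) :
    |p.1 - 3| < 3 / 4 ∧ |p.2.1| < 3 / 4 ∧ |p.2.2 - 2| < 8 / 100 := by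
  obtain ⟨h1, h2, h3⟩ := hp
  simp only [zo1] at h1 h2 h3
  rw [abs_lt] at h1 h2 h3
  refine ⟨?_, ?_, ?_⟩ <;> rw [abs_lt] <;> constructor <;> linarith

lemma zo2_Om {p : V3} (hp : zo2 p ∈ Om) :
    |p.1 + 3| < 3 / 4 ∧ |p.2.2| < 3 / 4 ∧ |p.2.1 - 2| < 8 / 100 := by
  obtain ⟨h1, h2, h3⟩ := hp
  simp only [zo2] at h1 h2 h3
  rw [abs_lt] at h1 h2 h3
  refine ⟨?_, ?_, ?_⟩ <;> rw [abs_lt] <;> constructor <;> linarith

lemma zo1_sub {p : V3} (hp : zo1 p ∈ Om) : p ∈ Om := by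
  obtain ⟨h1, h2, h3⟩ := zo1_Om hp
  rw [abs_lt] at h1 h2 h3
  refine ⟨?_, ?_, ?_⟩ <;> rw [abs_lt] <;> constructor <;> linarith

lemma zo2_sub {p : V3} (hp : zo2 p ∈ Om) : p ∈ Om := by
  obtain ⟨h1, h2, h3⟩ := zo2_Om hp
  rw [abs_lt] at h1 h2 h3
  refine ⟨?_, ?_, ?_⟩ <;> rw [abs_lt] <;> constructor <;> linarith

lemma zo1_not_Col {p : V3} (hp : zo1 p ∈ Om) : p ∉ Col := by
  rintro ⟨-, h | h⟩ <;>
  · obtain ⟨h1, h2, h3⟩ := zo1_Om hp
    rw [abs_lt] at h1 h2 h3
    rw [lt_abs] at h; rcases h with h | h <;> linarith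

lemma zo2_not_Col {p : V3} (hp : zo2 p ∈ Om) : p ∉ Col := by
  rintro ⟨-, h | h⟩ <;>
  · obtain ⟨h1, h2, h3⟩ := zo2_Om hp
    rw [abs_lt] at h1 h2 h3
    rw [lt_abs] at h; rcases h with h | h <;> linarith

lemma mem_Col_of {p : V3} (h1 : p ∈ Om) (h2 : p ∉ Qc) : p ∈ Col := by
  refine ⟨h1, ?_⟩
  by_contra h
  simp only [mem_ofPred_eq, not_or, not_lt] at h
  exact h2 ⟨h1.1.le, h.1, h.2⟩

/-- One step of the recursion. -/
noncomputable def stepLS (a b : G) (L1 L2 : LS G V3) (h1 : Std a L1) (h2 : Std b⁻¹ L2) :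
    LS G V3 where
  ι := C5 ⊕ (L1.ι ⊕ L2.ι)
  U := fun k => match k with
    | .inl i => Sch i ∩ Amb
    | .inr (.inl j) => zo1 ⁻¹' (L1.U j)
    | .inr (.inr j) => zo2 ⁻¹' (L2.U j)
  φ := fun k => match k with
    | .inl i => fch a b i
    | .inr (.inl j) => L1.φ j ∘ zo1
    | .inr (.inr j) => L2.φ j ∘ zo2
  isOpen_U := by
    rintro (i | j | j)
    · exact (isOpen_Sch i).inter isOpen_Amb
    · exact (L1.isOpen_U j).preimage continuous_zo1
    · exact (L2.isOpen_U j).preimage continuous_zo2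
  compat := by
    have k1 : ∀ i j p, p ∈ Sch i ∩ Amb → zo1 p ∈ L1.U j →
        Cmp (fch a b i) (L1.φ j ∘ zo1) p := by
      intro i j p hp hj
      have hO : zo1 p ∈ Om := h1.1 (L1.mem_dom.2 ⟨j, hj⟩)
      have hC : zo1 p ∈ Col := mem_Col_of hO hp.2.2.1
      exact (inner1 a b i hp.1 hO).trans ((h1.2 _ hC j hj).comap continuous_zo1)
    have k2 : ∀ i j p, p ∈ Sch i ∩ Amb → zo2 p ∈ L2.U j →
        Cmp (fch a b i) (L2.φ j ∘ zo2) p := by
      intro i j p hp hj
      have hO : zo2 p ∈ Om := h2.1 (L2.mem_dom.2 ⟨j, hj⟩)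
      have hC : zo2 p ∈ Col := mem_Col_of hO hp.2.2.2
      exact (inner2 a b i hp.1 hO).trans ((h2.2 _ hC j hj).comap continuous_zo2)
    have k3 : ∀ i j p, zo1 p ∈ L1.U i → zo2 p ∈ L2.U j → False := by
      intro i j p hi hj
      have e1 := (zo1_Om (h1.1 (L1.mem_dom.2 ⟨i, hi⟩))).1
      have e2 := (zo2_Om (h2.1 (L2.mem_dom.2 ⟨j, hj⟩))).1
      rw [abs_lt] at e1 e2
      linarith
    rintro (i | i | i) (j | j | j) p hp hp'
    · exact cmp_ch a b i j hp.1 hp'.1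
    · exact k1 i j p hp hp'
    · exact k2 i j p hp hp'
    · exact (k1 j i p hp' hp).symm
    · exact Cmp.comap continuous_zo1 (L1.compat i j (zo1 p) hp hp')
    · exact (k3 i j p hp hp').elim
    · exact (k2 j i p hp' hp).symm
    · exact (k3 j i p hp' hp).elim
    · exact Cmp.comap continuous_zo2 (L2.compat i j (zo2 p) hp hp')

lemma stepLS_dom (a b : G) (L1 L2 : LS G V3) (h1 : Std a L1) (h2 : Std b⁻¹ L2) :
    (stepLS a b L1 L2 h1 h2).dom = ((⋃ i, Sch i) ∩ Amb) ∪ (zo1 ⁻¹' L1.dom ∪ zo2 ⁻¹' L2.dom) := by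
  ext p
  rw [LS.mem_dom]
  simp only [mem_union, mem_inter_iff, mem_iUnion, mem_preimage, LS.mem_dom]
  constructor
  · rintro ⟨i | i | i, h⟩
    · exact Or.inl ⟨⟨i, h.1⟩, h.2⟩
    · exact Or.inr (Or.inl ⟨i, h⟩)
    · exact Or.inr (Or.inr ⟨i, h⟩)
  · rintro (⟨⟨i, h⟩, h'⟩ | ⟨i, h⟩ | ⟨i, h⟩)
    · exact ⟨.inl i, h, h'⟩
    · exact ⟨.inr (.inl i), h⟩
    · exact ⟨.inr (.inr i), h⟩

lemma stepLS_std (a b : G) (L1 L2 : LS G V3) (h1 : Std a L1) (h2 : Std b⁻¹ L2) :
    Std (lab a b) (stepLS a b L1 L2 h1 h2) := by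
  constructor
  · rw [stepLS_dom]
    rintro p (h | h | h)
    · exact h.2.1
    · exact zo1_sub (h1.1 h)
    · exact zo2_sub (h2.1 h)
  · rintro p hp (i | i | i) hi
    · exact outer a b i hi.1 hp
    · exact (zo1_not_Col (h1.1 (L1.mem_dom.2 ⟨i, hi⟩)) hp).elim
    · exact (zo2_not_Col (h2.1 (L2.mem_dom.2 ⟨i, hi⟩)) hp).elim

/-- The domains. -/
def Yn : ℕ → Set V3
  | 0 => Col
  | n + 1 => ((⋃ i, Sch i) ∩ Amb) ∪ (zo1 ⁻¹' Yn n ∪ zo2 ⁻¹' Yn n)

theorem exists_Yn {S : Set G} (hc : ∀ c ∈ S, ∃ a ∈ S, ∃ b ∈ S, lab a b = c)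
    (hi : ∀ c ∈ S, c⁻¹ ∈ S) (n : ℕ) : ∀ c ∈ S, ∃ L : LS G V3, Std c L ∧ L.dom = Yn n := by
  induction n with
  | zero => exact fun c _ => ⟨colLS c, colLS_std c, colLS_dom c⟩
  | succ n ih =>
    intro c hcS
    obtain ⟨a, ha, b, hb, hab⟩ := hc c hcS
    obtain ⟨L1, h1, e1⟩ := ih a ha
    obtain ⟨L2, h2, e2⟩ := ih b⁻¹ (hi b hb)
    refine ⟨stepLS a b L1 L2 h1 h2, hab ▸ stepLS_std a b L1 L2 h1 h2, ?_⟩
    rw [stepLS_dom, e1, e2]
    rfl

/-- The exterior. -/
def Oe : Set V3 := {p | 9 < |p.1| ∨ 8 < |p.2.1| ∨ 8 < |p.2.2|}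

lemma isOpen_Oe : IsOpen Oe := by
  have h1 : IsOpen {p : V3 | 9 < |p.1|} := isOpen_lt (by fun_prop) (by fun_prop)
  have h2 : IsOpen {p : V3 | 8 < |p.2.1|} := isOpen_lt (by fun_prop) (by fun_prop)
  have h3 : IsOpen {p : V3 | 8 < |p.2.2|} := isOpen_lt (by fun_prop) (by fun_prop)
  exact h1.union (h2.union h3)

/-- Adding the exterior chart. -/
noncomputable def topLS (L : LS G V3) (h : Std 1 L) : LS G V3 where
  ι := L.ι ⊕ Unit
  U := fun k => match k with
    | .inl i => L.U i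
    | .inr _ => Oe
  φ := fun k => match k with
    | .inl i => L.φ i
    | .inr _ => fun _ => 1
  isOpen_U := by
    rintro (i | _)
    · exact L.isOpen_U i
    · exact isOpen_Oe
  compat := by
    have k : ∀ i p, p ∈ L.U i → p ∈ Oe → Cmp (fun _ => 1) (L.φ i) p := by
      intro i p hi hO
      have hp : p ∈ Om := h.1 (L.mem_dom.2 ⟨i, hi⟩)
      have hC : p ∈ Col := by
        refine ⟨hp, hO.resolve_left ?_⟩
        have := hp.1
        intro h9; linarith
      have h1 := h.2 p hC i hi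
      have h2 : stdf (1 : G) p = fun _ => 1 := by
        by_cases h3 : p.2.2 = 0 ∧ p.2.1 < 0
        · rw [stdf_pos h3]; funext q; simp [kap]
        · rw [stdf_neg h3]
      rwa [h2] at h1
    rintro (i | _) (j | _) p hp hp'
    · exact L.compat i j p hp hp'
    · exact (k i p hp hp').symm
    · exact k j p hp' hp
    · exact Cmp.refl _ _

theorem exists_P {S : Set G} (hc : ∀ c ∈ S, ∃ a ∈ S, ∃ b ∈ S, lab a b = c)
    (hi : ∀ c ∈ S, c⁻¹ ∈ S) {a : G} (ha : a ∈ S) (n : ℕ) :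
    ∃ P : LS G V3, P.dom = Yn (n + 1) ∪ Oe ∧ ∀ i, P.ParOn (Sch i ∩ Amb) (fch a a i) := by
  obtain ⟨L1, h1, e1⟩ := exists_Yn hc hi n a ha
  obtain ⟨L2, h2, e2⟩ := exists_Yn hc hi n a⁻¹ (hi a ha)
  have h3 : Std 1 (stepLS a a L1 L2 h1 h2) := by
    have := stepLS_std a a L1 L2 h1 h2
    have e : lab a a = 1 := by simp [lab]
    rwa [e] at this
  refine ⟨topLS _ h3, ?_, ?_⟩
  · ext p
    rw [LS.mem_dom]
    have e3 : (stepLS a a L1 L2 h1 h2).dom = Yn (n + 1) := by
      rw [stepLS_dom, e1, e2]; rfl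
    rw [← e3, mem_union, LS.mem_dom]
    constructor
    · rintro ⟨i | _, hp⟩
      · exact Or.inl ⟨i, hp⟩
      · exact Or.inr hp
    · rintro (⟨i, hp⟩ | hp)
      · exact ⟨.inl i, hp⟩
      · exact ⟨.inr (), hp⟩
  · intro i
    exact LS.parOn_chart (topLS _ h3) (.inl (.inl i))

end Pool.Agent.H88.Nest
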